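import Mathlib

/-!
# Weights on the hulls of a closure operator, and fixed hulls of `p`-groups
-/

set_option autoImplicit false

namespace Pool.Agent.H341.FM

open Finset MulAction

universe u v

/-- invariant weights without support on the fixed points have sum divisible by `p` -/
theorem comb_pgroup {G : Type v} [Group G] {p : ℕ} [Fact p.Prime] (hG : IsPGroup p G)
    {α : Type u} [Fintype α] [MulAction G α] (f : α → ℤ) (hf : ∀ (g : G) (a : α), f (g • a) = f a)
    (h0 : ∀ a : α, (∀ g : G, g • a = a) → f a = 0) : (p : ℤ) ∣ ∑ a, f a := by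
  classical
  have h1 : ∑ a, f a = ∑ n ∈ univ.image f, n * ((univ.filter fun a => f a = n).card : ℤ) := by
    rw [← sum_fiberwise_of_maps_to (s := univ) (t := univ.image f) (g := f)
      (fun a _ => mem_image_of_mem f (mem_univ a))]
    refine sum_congr rfl fun n _ => ?_
    rw [sum_congr rfl (g := fun _ => n) (fun a ha => (mem_filter.1 ha).2), sum_const, nsmul_eq_mul,
      mul_comm]
  rw [h1]
  refine dvd_sum fun n _ => ?_
  by_cases hn : n = 0
  · rw [hn, zero_mul]; exact dvd_zero _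
  apply Dvd.dvd.mul_left
  -- the sub-action
  let S : SubMulAction G α := ⟨{a | f a = n}, fun g a ha => (hf g a).trans ha⟩
  have h2 := hG.card_modEq_card_fixedPoints S
  have h3 : Nat.card (fixedPoints G S) = 0 := by
    rw [Nat.card_eq_zero]
    left
    constructor
    rintro ⟨a, ha⟩
    apply hn
    have h4 : f (a : α) = n := a.2
    rw [← h4]
    apply h0
    intro g
    have := ha g
    exact congrArg Subtype.val this
  rw [h3] at h2
  have h5 : p ∣ Nat.card S := (Nat.modEq_zero_iff_dvd).1 h2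
  have h6 : Nat.card S = (univ.filter fun a => f a = n).card := by
    have h7 : Nat.card S = Nat.card {a // f a = n} := rfl
    rw [h7, Nat.card_eq_fintype_card, Fintype.card_subtype]
  rw [← h6]
  exact_mod_cast h5

section

variable {V : Type u} [DecidableEq V]

/-- the pairs of a vertex and a set of lower neighbours -/
def Prs (C : Finset V) (L : V → V → Finset V) (o : V) : Finset (V × Finset V) :=
  (C ×ˢ C.powerset).filter fun q => q.2 ⊆ L o q.1

theorem mem_Prs {C : Finset V} {L : V → V → Finset V} {o : V} (hL : ∀ v ∈ C, L o v ⊆ C)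
    {q : V × Finset V} : q ∈ Prs C L o ↔ q.1 ∈ C ∧ q.2 ⊆ L o q.1 := by
  unfold Prs
  rw [mem_filter, mem_product, mem_powerset]
  exact ⟨fun h => ⟨h.1.1, h.2⟩, fun h => ⟨⟨h.1, h.2.trans (hL _ h.1)⟩, h.2⟩⟩

/-- the sum over all pairs inside `R` counts the vertices of `R` without lower neighbours in `R` -/
theorem comb_count {C : Finset V} {L : V → V → Finset V} {o : V} (hL : ∀ v ∈ C, L o v ⊆ C)
    (R : Set V) [DecidablePred (· ∈ R)] [DecidablePred fun q : V × Finset V => q.1 ∈ R ∧ ∀ x ∈ q.2, x ∈ R]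
    [DecidablePred fun u : V => u ∈ R ∧ ∀ x ∈ L o u, x ∉ R] :
    ∑ q ∈ (Prs C L o).filter (fun q => q.1 ∈ R ∧ ∀ x ∈ q.2, x ∈ R), (-1 : ℤ) ^ q.2.card =
      ((C.filter fun u => u ∈ R ∧ ∀ x ∈ L o u, x ∉ R).card : ℤ) := by
  have h1 : (Prs C L o).filter (fun q => q.1 ∈ R ∧ ∀ x ∈ q.2, x ∈ R) =
      (C.filter (· ∈ R)).biUnion fun u => (((L o u).filter (· ∈ R)).powerset).image fun T => (u, T) := by
    ext ⟨u, T⟩
    rw [mem_filter, mem_Prs hL, mem_biUnion]
    constructor
    · rintro ⟨⟨h1, h2⟩, h3, h4⟩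
      refine ⟨u, mem_filter.2 ⟨h1, h3⟩, mem_image.2 ⟨T, mem_powerset.2 fun x hx => ?_, rfl⟩⟩
      exact mem_filter.2 ⟨h2 hx, h4 x hx⟩
    · rintro ⟨u', h1, h2⟩
      obtain ⟨T', h3, h4⟩ := mem_image.1 h2
      obtain ⟨rfl, rfl⟩ := Prod.mk.inj h4
      rw [mem_powerset] at h3
      exact ⟨⟨(mem_filter.1 h1).1, fun x hx => (mem_filter.1 (h3 hx)).1⟩, (mem_filter.1 h1).2,
        fun x hx => (mem_filter.1 (h3 hx)).2⟩
  rw [h1, sum_biUnion]
  · have h2 : ∀ u ∈ C.filter (· ∈ R),
        ∑ q ∈ (((L o u).filter (· ∈ R)).powerset).image (fun T => (u, T)), (-1 : ℤ) ^ q.2.card =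
          if (∀ x ∈ L o u, x ∉ R) then 1 else 0 := by
      intro u _
      rw [sum_image (fun a _ b _ h => (Prod.mk.inj h).2)]
      rw [sum_powerset_neg_one_pow_card]
      congr 1
      rw [eq_iff_iff, filter_eq_empty_iff]
    rw [sum_congr rfl h2, sum_ite, sum_const, sum_const_zero, add_zero, nsmul_eq_mul, mul_one,
      filter_filter]
    congr 2
    ext a
    simp only [mem_filter]
  · intro a _ b _ hab
    rw [Function.onFun, disjoint_left]
    intro q hq hq'
    obtain ⟨T, -, rfl⟩ := mem_image.1 hq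
    obtain ⟨T', -, h⟩ := mem_image.1 hq'
    exact hab (Prod.mk.inj h).1.symm

end

/-- **Fixed hulls.** -/
theorem comb {V : Type u} [DecidableEq V] {G : Type v} [Group G] [MulAction G V] {p : ℕ}
    [Fact p.Prime] (hG : IsPGroup p G) (C : Finset V) (hC : C.Nonempty)
    (hGC : ∀ g : G, ∀ v ∈ C, g • v ∈ C) (L : V → V → Finset V)
    (hLC : ∀ o ∈ C, ∀ v ∈ C, L o v ⊆ C) (hL0 : ∀ o ∈ C, ∀ v ∈ C, L o v = ∅ ↔ v = o)
    (hLG : ∀ (g : G) (o v x : V), x ∈ L o v → g • x ∈ L (g • o) (g • v))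
    (cl : Finset V → Set V) (cl1 : ∀ S : Finset V, ∀ x ∈ S, x ∈ cl S)
    (cl2 : ∀ S S' : Finset V, (∀ x ∈ S, x ∈ cl S') → cl S ⊆ cl S')
    (clG : ∀ (g : G) (S : Finset V), cl (S.image (g • ·)) = (g • ·) '' cl S)
    (hgate : ∀ o ∈ C, ∀ o' ∈ C, ∀ v ∈ C, ∀ T ⊆ L o' v,
      ∃! u, u ∈ C ∧ u ∈ cl (insert v T) ∧ ∀ x ∈ L o u, x ∉ cl (insert v T)) :
    ∃ o ∈ C, ∃ v ∈ C, ∃ T ⊆ L o v, ∀ g : G, (g • ·) '' cl (insert v T) = cl (insert v T) := by
  classical
  let Rf : V × Finset V → Set V := fun q => cl (insert q.1 q.2)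
  let 𝓡 : Finset (Set V) := C.biUnion fun o => (Prs C L o).image Rf
  let N : V → Set V → ℤ := fun o R => ∑ q ∈ (Prs C L o).filter (fun q => Rf q = R), (-1 : ℤ) ^ q.2.card
  have memR : ∀ {o : V}, o ∈ C → ∀ {q : V × Finset V}, q ∈ Prs C L o → Rf q ∈ 𝓡 := fun ho _ hq =>
    mem_biUnion.2 ⟨_, ho, mem_image_of_mem Rf hq⟩
  -- sums of weights
  have hB0 : ∀ o ∈ C, ∀ P : Set V → Prop,
      ∑ R ∈ 𝓡.filter P, N o R = ∑ q ∈ (Prs C L o).filter (fun q => P (Rf q)), (-1 : ℤ) ^ q.2.card := by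
    intro o ho P
    rw [← sum_fiberwise_of_maps_to (s := (Prs C L o).filter (fun q => P (Rf q)))
      (t := 𝓡.filter P) (g := Rf) (fun q hq => mem_filter.2 ⟨memR ho (mem_filter.1 hq).1,
        (mem_filter.1 hq).2⟩)]
    refine sum_congr rfl fun R hR => ?_
    show ∑ q ∈ (Prs C L o).filter (fun q => Rf q = R), (-1 : ℤ) ^ q.2.card = _
    congr 1
    ext q
    simp only [mem_filter]
    constructor
    · rintro ⟨h1, h2⟩
      exact ⟨⟨h1, by rw [h2]; exact (mem_filter.1 hR).2⟩, h2⟩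
    · rintro ⟨⟨h1, -⟩, h2⟩
      exact ⟨h1, h2⟩
  have hB : ∀ o ∈ C, ∀ R ∈ 𝓡, ∑ R' ∈ 𝓡.filter (fun R' => R' ⊆ R), N o R' = 1 := by
    intro o ho R hR
    obtain ⟨o', ho', hq⟩ := mem_biUnion.1 hR
    obtain ⟨⟨v, T⟩, hvT, rfl⟩ := mem_image.1 hq
    rw [mem_Prs (hLC o' ho')] at hvT
    rw [hB0 o ho]
    have h1 : (Prs C L o).filter (fun q => Rf q ⊆ Rf (v, T)) =
        (Prs C L o).filter (fun q => q.1 ∈ Rf (v, T) ∧ ∀ x ∈ q.2, x ∈ Rf (v, T)) := by
      ext q
      rw [mem_filter, mem_filter]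
      refine and_congr_right fun _ => ?_
      constructor
      · intro h
        exact ⟨h (cl1 _ _ (mem_insert_self _ _)), fun x hx => h (cl1 _ _ (mem_insert_of_mem hx))⟩
      · rintro ⟨h2, h3⟩
        refine cl2 _ _ fun x hx => ?_
        rcases mem_insert.1 hx with rfl | hx
        · exact h2
        · exact h3 x hx
    rw [h1, comb_count (hLC o ho)]
    obtain ⟨b, hb, hb2⟩ := hgate o ho o' ho' v hvT.1 T hvT.2
    have h2 : (C.filter fun u => u ∈ Rf (v, T) ∧ ∀ x ∈ L o u, x ∉ Rf (v, T)) = {b} := by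
      ext u
      rw [mem_filter, mem_singleton]
      constructor
      · rintro ⟨h3, h4, h5⟩
        exact hb2 u ⟨h3, h4, h5⟩
      · rintro rfl
        exact ⟨hb.1, hb.2.1, hb.2.2⟩
    rw [h2, card_singleton]
    rfl
  -- independence of the base point
  have hind : ∀ n : ℕ, ∀ R ∈ 𝓡, (𝓡.filter (fun R' => R' ⊆ R)).card = n →
      ∀ o ∈ C, ∀ o' ∈ C, N o R = N o' R := by
    intro n
    induction n using Nat.strong_induction_on with
    | _ n ih =>
      intro R hR hn o ho o' ho'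
      have h1 := hB o ho R hR
      have h2 := hB o' ho' R hR
      have hmem : R ∈ 𝓡.filter (fun R' => R' ⊆ R) := mem_filter.2 ⟨hR, subset_rfl⟩
      rw [← add_sum_erase _ _ hmem] at h1 h2
      have h3 : ∑ R' ∈ (𝓡.filter (fun R' => R' ⊆ R)).erase R, N o R' =
          ∑ R' ∈ (𝓡.filter (fun R' => R' ⊆ R)).erase R, N o' R' := by
        refine sum_congr rfl fun R' hR' => ?_
        obtain ⟨hne, hR'2⟩ := mem_erase.1 hR'
        obtain ⟨hR'3, hR'4⟩ := mem_filter.1 hR'2
        refine ih _ ?_ R' hR'3 rfl o ho o' ho'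
        rw [← hn]
        apply card_lt_card
        rw [ssubset_iff_of_subset]
        · exact ⟨R, hmem, fun h => hne (hR'4.antisymm (mem_filter.1 h).2)⟩
        · intro S hS
          exact mem_filter.2 ⟨(mem_filter.1 hS).1, (mem_filter.1 hS).2.trans hR'4⟩
      linarith
  obtain ⟨o, ho⟩ := hC
  have htot : ∑ R ∈ 𝓡, N o R = 1 := by
    have h1 := hB0 o ho (fun _ => True)
    have e1 : ∀ inst : DecidablePred (fun _ : Set V => True),
        @filter _ (fun _ => True) inst 𝓡 = 𝓡 := fun inst => by ext; simp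
    rw [e1] at h1
    rw [h1]
    have h2 : ∀ inst : DecidablePred (fun _ : V × Finset V => True),
        @filter _ (fun _ => True) inst (Prs C L o) =
        (Prs C L o).filter (fun q => q.1 ∈ (Set.univ : Set V) ∧ ∀ x ∈ q.2, x ∈ (Set.univ : Set V)) := by
      intro inst
      ext q
      simp
    rw [h2, comb_count (hLC o ho)]
    have h3 : (C.filter fun u => u ∈ (Set.univ : Set V) ∧ ∀ x ∈ L o u, x ∉ (Set.univ : Set V)) = {o} := by
      ext u
      rw [mem_filter, mem_singleton]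
      constructor
      · rintro ⟨h3, -, h5⟩
        rw [← hL0 o ho u h3]
        refine eq_empty_of_forall_notMem fun x hx => h5 x hx (Set.mem_univ x)
      · rintro rfl
        refine ⟨ho, Set.mem_univ _, fun x hx => ?_⟩
        rw [(hL0 u ho u ho).2 rfl] at hx
        exact absurd hx (notMem_empty x)
    rw [h3, card_singleton]
    rfl
  -- the action on the hulls
  have hLG' : ∀ (g : G) (o v : V), L (g • o) (g • v) = (L o v).image (g • ·) := by
    intro g o v
    ext x
    rw [mem_image]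
    constructor
    · intro hx
      refine ⟨g⁻¹ • x, ?_, smul_inv_smul g x⟩
      have := hLG g⁻¹ _ _ _ hx
      rwa [inv_smul_smul, inv_smul_smul] at this
    · rintro ⟨y, hy, rfl⟩
      exact hLG g o v y hy
  have hPG : ∀ (g : G) (o : V), o ∈ C → ∀ q ∈ Prs C L o,
      (g • q.1, q.2.image (g • ·)) ∈ Prs C L (g • o) := by
    intro g o ho q hq
    rw [mem_Prs (hLC o ho)] at hq
    rw [mem_Prs (hLC _ (hGC g o ho))]
    refine ⟨hGC g _ hq.1, ?_⟩
    show q.2.image (g • ·) ⊆ L (g • o) (g • q.1)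
    rw [hLG']
    exact image_subset_image hq.2
  have hRG : ∀ (g : G) (q : V × Finset V), Rf (g • q.1, q.2.image (g • ·)) = (g • ·) '' Rf q := by
    intro g q
    show cl (insert (g • q.1) (q.2.image (g • ·))) = (g • ·) '' cl (insert q.1 q.2)
    rw [← clG, image_insert]
  have hinj : ∀ g : G, Function.Injective fun x : V => g • x := fun g => MulAction.injective g
  have himg : ∀ (g h : G) (R : Set V), (g • ·) '' ((h • ·) '' R) = ((g * h) • ·) '' R := by
    intro g h R
    rw [← Set.image_comp]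
    congr 1
    ext x
    exact (mul_smul g h x).symm
  have himg1 : ∀ R : Set V, ((1 : G) • ·) '' R = R := by
    intro R
    have : (fun x : V => (1 : G) • x) = id := by ext x; exact one_smul G x
    rw [this, Set.image_id]
  have h𝓡G : ∀ (g : G), ∀ R ∈ 𝓡, (g • ·) '' R ∈ 𝓡 := by
    intro g R hR
    obtain ⟨o', ho', hq⟩ := mem_biUnion.1 hR
    obtain ⟨q, hq', rfl⟩ := mem_image.1 hq
    rw [← hRG]
    exact memR (hGC g o' ho') (hPG g o' ho' q hq')
  have hNG : ∀ (g : G) (o : V), o ∈ C → ∀ R : Set V, N (g • o) ((g • ·) '' R) = N o R := by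
    intro g o ho R
    show ∑ q ∈ (Prs C L (g • o)).filter (fun q => Rf q = (g • ·) '' R), (-1 : ℤ) ^ q.2.card =
      ∑ q ∈ (Prs C L o).filter (fun q => Rf q = R), (-1 : ℤ) ^ q.2.card
    symm
    refine sum_bij (fun q _ => (g • q.1, q.2.image (g • ·))) ?_ ?_ ?_ ?_
    · intro q hq
      obtain ⟨h1, h2⟩ := mem_filter.1 hq
      refine mem_filter.2 ⟨hPG g o ho q h1, ?_⟩
      rw [hRG, h2]
    · intro q _ q' _ h
      obtain ⟨h1, h2⟩ := Prod.mk.inj h
      exact Prod.ext (hinj g h1) (image_injective (hinj g) h2)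
    · intro q hq
      obtain ⟨h1, h2⟩ := mem_filter.1 hq
      refine ⟨(g⁻¹ • q.1, q.2.image (g⁻¹ • ·)), mem_filter.2 ⟨?_, ?_⟩, ?_⟩
      · have := hPG g⁻¹ (g • o) (hGC g o ho) q h1
        rwa [inv_smul_smul] at this
      · rw [hRG, h2, himg, inv_mul_cancel, himg1]
      · ext1
        · exact smul_inv_smul g q.1
        · show (q.2.image (g⁻¹ • ·)).image (g • ·) = q.2
          rw [image_image]
          have h3 : ((fun x : V => g • x) ∘ fun x => g⁻¹ • x) = id := by
            ext x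
            exact smul_inv_smul g x
          rw [h3, image_id]
    · intro q _
      rw [card_image_of_injective _ (hinj g)]
  by_contra hcon
  push Not at hcon
  let A := {R : Set V // R ∈ 𝓡}
  let _ : MulAction G A :=
    { smul := fun g R => ⟨(g • ·) '' R.1, h𝓡G g R.1 R.2⟩
      one_smul := fun R => Subtype.ext (himg1 R.1)
      mul_smul := fun g h R => Subtype.ext (himg g h R.1).symm }
  have hA : ∀ (g : G) (R : A), (g • R).1 = (g • ·) '' R.1 := fun _ _ => rfl
  have hinv : ∀ (g : G) (R : A), N o (g • R).1 = N o R.1 := by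
    intro g R
    rw [hA, hind _ ((g • ·) '' R.1) (h𝓡G g R.1 R.2) rfl o ho (g • o) (hGC g o ho), hNG g o ho]
  have hdiv := comb_pgroup hG (α := A) (fun R => N o R.1) hinv (by
    intro R hR
    exfalso
    obtain ⟨o', ho', hq⟩ := mem_biUnion.1 R.2
    obtain ⟨q, hq, hq2⟩ := mem_image.1 hq
    rw [mem_Prs (hLC o' ho')] at hq
    obtain ⟨g, hg⟩ := hcon o' ho' q.1 hq.1 q.2 hq.2
    apply hg
    have h1 := congrArg Subtype.val (hR g)
    rw [hA, ← hq2] at h1
    exact h1)
  have hsum : ∑ R : A, N o R.1 = ∑ R ∈ 𝓡, N o R := by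
    exact sum_coe_sort 𝓡 (fun R => N o R)
  rw [hsum, htot] at hdiv
  have hp := (Fact.out : p.Prime)
  have h2 := Int.le_of_dvd one_pos hdiv
  have h3 : (2 : ℤ) ≤ p := by exact_mod_cast hp.two_le
  omega

end Pool.Agent.H341.FM
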