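import Pool.Agent.H341.FM.Stm
import Pool.Agent.H341.FM.Comb

/-!
# Fixed monoliths of `p`-groups: assembly
-/

set_option autoImplicit false

namespace Pool.Agent.H341.FM

open Pool.Agent.H341.MA SimpleGraph

universe u v

section

variable {V : Type u} {X : SimpleGraph V} {G : Type v} [Group G] [MulAction G V]

theorem dist_smul_eq (hX : X.Connected) (hG : ∀ (g : G) (x y : V), X.Adj x y → X.Adj (g • x) (g • y))
    (g : G) (x y : V) : X.dist (g • x) (g • y) = X.dist x y := by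
  have key : ∀ (g : G) (x y : V), X.dist (g • x) (g • y) ≤ X.dist x y := by
    intro g x y
    obtain ⟨p, hp⟩ := hX.exists_walk_length_eq_dist x y
    rw [← hp]
    let f : X →g X := ⟨fun v => g • v, fun {a b} h => hG g a b h⟩
    have h1 := SimpleGraph.dist_le (p.map f)
    rwa [SimpleGraph.Walk.length_map] at h1
  refine le_antisymm (key g x y) ?_
  have := key g⁻¹ (g • x) (g • y)
  rwa [inv_smul_smul, inv_smul_smul] at this

theorem adj_smul_iff (hG : ∀ (g : G) (x y : V), X.Adj x y → X.Adj (g • x) (g • y))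
    (g : G) (x y : V) : X.Adj (g • x) (g • y) ↔ X.Adj x y := by
  constructor
  · intro h
    have := hG g⁻¹ _ _ h
    rwa [inv_smul_smul, inv_smul_smul] at this
  · exact hG g x y

theorem gated_smul (hX : X.Connected) (hG : ∀ (g : G) (x y : V), X.Adj x y → X.Adj (g • x) (g • y))
    (g : G) {Y : Set V} (hY : Gated X Y) : Gated X ((g • ·) '' Y) := by
  intro x
  obtain ⟨y, hy, hy2⟩ := hY (g⁻¹ • x)
  refine ⟨g • y, ⟨y, hy, rfl⟩, ?_⟩
  rintro _ ⟨y', hy', rfl⟩
  have h1 := hy2 y' hy'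
  have h2 : ∀ w : V, X.dist (g⁻¹ • x) w = X.dist x (g • w) := by
    intro w
    have := dist_smul_eq hX hG g (g⁻¹ • x) w
    rw [smul_inv_smul] at this
    exact this.symm
  rw [h2, h2] at h1
  show X.dist x (g • y') = X.dist x (g • y) + X.dist (g • y) (g • y')
  rw [dist_smul_eq hX hG, h1]

theorem GH_smul (hX : X.Connected) (hG : ∀ (g : G) (x y : V), X.Adj x y → X.Adj (g • x) (g • y))
    (g : G) (S : Set V) : GH X ((g • ·) '' S) = (g • ·) '' GH X S := by
  have key : ∀ (g : G) (S : Set V), GH X ((g • ·) '' S) ⊆ (g • ·) '' GH X S := by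
    intro g S z hz
    refine ⟨g⁻¹ • z, ?_, smul_inv_smul g z⟩
    rintro Y ⟨hY1, hY2⟩
    have h1 : z ∈ (g • ·) '' Y := hz _ ⟨gated_smul hX hG g hY1, Set.image_mono hY2⟩
    obtain ⟨y, hy, rfl⟩ := h1
    rw [inv_smul_smul]
    exact hy
  refine Set.Subset.antisymm (key g S) ?_
  rintro _ ⟨z, hz, rfl⟩
  have e : (g⁻¹ • · : V → V) '' ((g • ·) '' S) = S := by
    rw [← Set.image_comp]
    have : ((g⁻¹ • ·) ∘ (g • ·) : V → V) = id := by
      ext x
      exact inv_smul_smul g x
    rw [this, Set.image_id]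
  have h1 := key g⁻¹ ((g • ·) '' S)
  rw [e] at h1
  obtain ⟨w, hw, hw2⟩ := h1 hz
  have : g • z = w := by rw [← hw2]; exact smul_inv_smul g w
  show g • z ∈ _
  rw [this]
  exact hw

end

theorem GH_sub {V : Type u} (X : SimpleGraph V) (S : Set V) : S ⊆ GH X S :=
  fun _ hx _ hY => hY.2 hx

theorem GH_min {V : Type u} (X : SimpleGraph V) {S S' : Set V} (h : S ⊆ GH X S') :
    GH X S ⊆ GH X S' := by
  intro x hx Y hY
  exact hx Y ⟨hY.1, fun y hy => h hy Y hY⟩

theorem monolith_of (hb : S_BOX.{u}) (hgh : S_GHG.{u}) (hmt : S_MT.{u}) (hsg : S_SG.{u})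
    (hsh : S_SH.{u}) (htr : S_TR.{u}) (V : Type u) (X : SimpleGraph V) (η σ : Type u)
    (co : V → η → σ) (hX : Mediangle X) (hH : Ham X co) (o v : V) (T : Set V)
    (hT : ∀ x ∈ T, X.Adj v x ∧ X.dist o x + 1 = X.dist o v) : Monolith X (GH X ({v} ∪ T)) := by
  obtain ⟨b1, b2, b3, b4, b5⟩ := hb V X η σ co hX.connected hH
  have hgat : Gated X (GH X ({v} ∪ T)) := hgh V X hX _ ⟨v, Or.inl rfl⟩
  refine ⟨⟨v, GH_sub X _ (Or.inl rfl)⟩, hgat, ?_⟩
  rcases T.eq_empty_or_nonempty with h0 | hne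
  · have h1 : GH X ({v} ∪ T) ⊆ {v} := by
      intro x hx
      refine hx {v} ⟨?_, ?_⟩
      · intro y
        refine ⟨v, rfl, ?_⟩
        rintro _ rfl
        simp
      · rw [h0, Set.union_empty]
    intro x hx y hy _ _ _ _ hxy
    have hx' : x = v := h1 hx
    have hy' : y = v := h1 hy
    rw [hx', hy'] at hxy
    exact absurd hxy (X.loopless.irrefl v)
  · obtain ⟨b, -, hant, hlow⟩ := hmt V X η σ co hX hH o v T hne hT
    have e : GH X ({v} ∪ T) = Sub co b v := by
      rw [← hsg V X η σ co hX hH b v hant]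
      congr 2
      ext x
      exact (hlow x).symm
    rw [e]
    intro x hx y hy x' hx' y' hy' hxy hxy' hne2
    obtain ⟨h, hh, -⟩ := (b3 x y).1 hxy
    obtain ⟨h', hh', -⟩ := (b3 x' y').1 hxy'
    by_cases hhh : h = h'
    · exact absurd (hsh V X η σ co hX hH x y x' y' h hxy hxy' hh (hhh ▸ hh')) hne2
    · exact htr V X η σ co hX hH b v hant x hx y hy x' hx' y' hy' hxy hxy' h h' hhh hh hh'

theorem fixed_monolith (hb : S_BOX.{u}) (hham : S_HAM.{u}) (hgp : S_GP.{u}) (hgh : S_GHG.{u})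
    (hmt : S_MT.{u}) (hsg : S_SG.{u}) (hsh : S_SH.{u}) (htr : S_TR.{u}) (hfin : S_FINC.{u, v})
    (p : ℕ) (hp : p.Prime) (V : Type u) (X : SimpleGraph V) (G : Type v) [Group G] [MulAction G V]
    (hX : Mediangle X) (hG : ∀ (g : G) (x y : V), X.Adj x y → X.Adj (g • x) (g • y))
    (hpG : IsPGroup p G) (horb : ∃ x : V, (MulAction.orbit G x).Finite) :
    ∃ M : Set V, Monolith X M ∧ ∀ g : G, (g • ·) '' M = M := by
  classical
  haveI : Fact p.Prime := ⟨hp⟩
  obtain ⟨x₀, hx₀⟩ := horb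
  obtain ⟨η, σ, co, hH⟩ := hham V X hX
  obtain ⟨b1, b2, b3, b4, b5⟩ := hb V X η σ co hX.connected hH
  obtain ⟨C, hCf, hxC, hCI, hCG⟩ := hfin V X η σ co G hX.connected hH hG x₀ hx₀
  have hdist := dist_smul_eq (G := G) hX.connected hG
  let L : V → V → Finset V := fun o v =>
    hCf.toFinset.filter fun x => X.Adj v x ∧ X.dist o x + 1 = X.dist o v
  have hL : ∀ o v x, x ∈ L o v ↔ x ∈ C ∧ X.Adj v x ∧ X.dist o x + 1 = X.dist o v := by
    intro o v x
    show x ∈ hCf.toFinset.filter _ ↔ _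
    rw [Finset.mem_filter, hCf.mem_toFinset]
  -- a lower neighbour
  have hlow : ∀ o ∈ C, ∀ v ∈ C, v ≠ o → ∃ w ∈ L o v, w ∈ Itv X v o := by
    intro o ho v hv hne
    obtain ⟨w, hw1, hw2, hw3⟩ := b5 v o hne
    refine ⟨w, (hL o v w).2 ⟨hCI v hv o ho hw2, hw1, ?_⟩, hw2⟩
    rw [X.dist_comm (u := o) (v := w), X.dist_comm (u := o) (v := v), hw3]
  have hmain := comb hpG (C := hCf.toFinset) ⟨x₀, hCf.mem_toFinset.2 hxC⟩
    (fun g v hv => hCf.mem_toFinset.2 (hCG g v (hCf.mem_toFinset.1 hv))) L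
    (fun o _ v _ => Finset.filter_subset _ _)
    (by
      intro o ho v hv
      rw [hCf.mem_toFinset] at ho hv
      constructor
      · intro h
        by_contra hne
        obtain ⟨w, hw, -⟩ := hlow o ho v hv hne
        rw [h] at hw
        exact Finset.notMem_empty w hw
      · rintro rfl
        refine Finset.eq_empty_of_forall_notMem fun x hx => ?_
        have := ((hL v v x).1 hx).2.2
        rw [SimpleGraph.dist_self] at this
        omega)
    (by
      intro g o v x hx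
      rw [hL] at hx ⊢
      exact ⟨hCG g x hx.1, hG g v x hx.2.1, by rw [hdist, hdist]; exact hx.2.2⟩)
    (fun S => GH X (S : Set V))
    (fun S x hx => GH_sub X _ hx)
    (fun S S' h => GH_min X h)
    (by
      intro g S
      show GH X ((S.image (g • ·) : Finset V) : Set V) = (g • ·) '' GH X (S : Set V)
      rw [Finset.coe_image, GH_smul hX.connected hG])
    (by
      intro o ho o' ho' v hv T hT
      rw [hCf.mem_toFinset] at ho ho' hv
      show ∃! u, u ∈ hCf.toFinset ∧ u ∈ GH X ((insert v T : Finset V) : Set V) ∧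
        ∀ x ∈ L o u, x ∉ GH X ((insert v T : Finset V) : Set V)
      have hvR : v ∈ GH X ((insert v T : Finset V) : Set V) :=
        GH_sub X _ (Finset.mem_coe.2 (Finset.mem_insert_self v T))
      have hgat : Gated X (GH X ((insert v T : Finset V) : Set V)) :=
        hgh V X hX _ ⟨v, Finset.mem_coe.2 (Finset.mem_insert_self v T)⟩
      obtain ⟨hconv, -, -⟩ := hgp V X hX.connected _ hgat
      obtain ⟨b, hbR, hb2⟩ := hgat o
      refine ⟨b, ⟨hCf.mem_toFinset.2 (hCI o ho v hv (hb2 v hvR)), hbR, ?_⟩, ?_⟩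
      · intro x hx hxR
        have h1 := ((hL o b x).1 hx).2.2
        have h2 := hb2 x hxR
        omega
      · rintro u ⟨hu1, hu2, hu3⟩
        rw [hCf.mem_toFinset] at hu1
        by_contra hne
        obtain ⟨w, hw1, hw2, hw3⟩ := b5 u b hne
        have hwR : w ∈ GH X ((insert v T : Finset V) : Set V) := hconv u hu2 b hbR hw2
        have hbC : b ∈ C := hCI o ho v hv (hb2 v hvR)
        refine hu3 w ((hL o u w).2 ⟨hCI u hu1 b hbC hw2, hw1, ?_⟩) hwR
        have h1 := hb2 w hwR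
        have h2 := hb2 u hu2
        rw [X.dist_comm (u := u) (v := b), X.dist_comm (u := w) (v := b)] at hw3
        omega)
  obtain ⟨o, -, v, -, T, hT, hfix⟩ := hmain
  refine ⟨GH X ((insert v T : Finset V) : Set V), ?_, hfix⟩
  have e : ((insert v T : Finset V) : Set V) = {v} ∪ (T : Set V) := by
    rw [Finset.coe_insert]
    rfl
  rw [e]
  refine monolith_of hb hgh hmt hsg hsh htr V X η σ co hX hH o v T fun x hx => ?_
  exact ((hL o v x).1 (hT hx)).2

end Pool.Agent.H341.FM
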