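import Pool.Agent.H341.MA.Main

/-!
# Bounded orbits give finite orbits

`X` is a mediangle graph in which every edge lies in only finitely many triangles (for example a
bipartite or a locally finite one).

Let `O` be an infinite bounded set of vertices and let `𝒰` be an ultrafilter on `O` which contains no
finite set. Let `f y` be the limit of `d(u,y)` along `𝒰`. If `v` is a vertex with minimal `f v`, then
`f y = f v + d(v,y)` for all `y` (`lim_dist`); so `v` lies in `I(u,y)` for almost all `u ∈ O`. The set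
`Lim X O` of these limit vertices has smaller radius than `O`, and it is invariant if `O` is.
-/

set_option autoImplicit false

namespace Pool.Agent.H341.FM

open Pool.Agent.H341.MA Filter

universe u v

/-- the limit vertices of a set of vertices -/
def Lim {V : Type u} (X : SimpleGraph V) (O : Set V) : Set V :=
  {v | ∀ F : Set V, F.Finite → {u | u ∈ O ∧ ∀ y ∈ F, v ∈ Itv X u y}.Infinite}

theorem exists_nbr {V : Type u} (X : SimpleGraph V) (hc : X.Connected) (v y : V) (n : ℕ)
    (h : X.dist v y = n + 1) : ∃ y', X.Adj y' y ∧ X.dist v y' = n := by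
  obtain ⟨p, hp⟩ := hc.exists_walk_length_eq_dist y v
  cases p with
  | nil => simp at h
  | @cons _ w _ hadj q =>
    refine ⟨w, hadj.symm, ?_⟩
    have h1 : X.dist w v ≤ q.length := SimpleGraph.dist_le q
    have h2 : q.length + 1 = X.dist y v := by simpa using hp
    have h3 : X.dist y v = n + 1 := by rw [SimpleGraph.dist_comm]; exact h
    have h4 : X.dist y v ≤ X.dist y w + X.dist w v := hc.dist_triangle
    have h5 : X.dist y w = 1 := SimpleGraph.dist_eq_one_iff_adj.2 hadj
    rw [SimpleGraph.dist_comm]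
    omega

theorem lim_dist {V : Type u} (X : SimpleGraph V) (hX : Mediangle X)
    (hfin : ∀ x y, X.Adj x y → {z | X.Adj z x ∧ X.Adj z y}.Finite)
    (U : Ultrafilter V) (f : V → ℕ) (hf : ∀ y, ∀ᶠ u in (U : Filter V), X.dist u y = f y)
    (v : V) (hv : ∀ y, f v ≤ f y) : ∀ (n : ℕ) (y : V), X.dist v y ≤ n → f y = f v + X.dist v y := by
  have hc := hX.connected
  have e1 : S_E1.{u} := s_e1
  have e2 : S_E2.{u} := s_e2
  have e3 : S_E3.{u} := s_e3
  have e4 : S_E4.{u} := s_e4 e3
  have hadj : ∀ x y, X.Adj x y → X.dist x y = 1 := fun x y h => SimpleGraph.dist_eq_one_iff_adj.2 h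
  intro n
  induction n with
  | zero =>
    intro y hy
    have h0 : X.dist v y = 0 := by omega
    have : v = y := (hc.dist_eq_zero_iff).1 h0
    subst this
    simp
  | succ n ih =>
    -- step A
    have hA : ∀ y, X.dist v y = n + 1 → f y + 1 = f v + n → False := by
      intro y hy hfy
      obtain ⟨y', ha', hd'⟩ := exists_nbr X hc v y n hy
      have hf' : f y' = f v + n := by rw [ih y' (by omega), hd']
      rcases Nat.eq_zero_or_pos n with hn | hn
      · have := hv y
        omega
      obtain ⟨k, rfl⟩ : ∃ k, n = k + 1 := ⟨n - 1, by omega⟩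
      obtain ⟨y'', ha'', hd''⟩ := exists_nbr X hc v y' k hd'
      have hf'' : f y'' = f v + k := by rw [ih y'' (by omega), hd'']
      have hne : y'' ≠ y := by
        rintro rfl
        omega
      -- the cycle
      have hcyc : ∀ᶠ u in (U : Filter V), ∃ (l : ℕ) (c : ℤ → V), EvenConvexCycle X l c ∧ c 0 = y' ∧
          c 1 = y'' ∧ c (-1) = y ∧ c l ∈ Itv X u y'' ∧ c l ∈ Itv X u y := by
        filter_upwards [hf y, hf y', hf y''] with u h1 h2 h3
        exact hX.cycle u y'' y y' hne ha''.symm ha' (by omega) (by omega)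
      obtain ⟨u0, l, c, hcc, hc0, hc1, hcm, -, -⟩ := hcyc.exists
      have hcl : ∀ᶠ u in (U : Filter V), c l ∈ Itv X u y'' := by
        filter_upwards [hcyc] with u hu
        obtain ⟨l', c', hcc', hc0', hc1', hcm', h1, -⟩ := hu
        obtain ⟨rfl, rfl⟩ := e4 V X hX l l' c c' hcc hcc' (by rw [hc0, hc0']) (by rw [hc1, hc1'])
          (by rw [hcm, hcm'])
        exact h1
      have hl2 := hcc.two_le
      have hfs : ∀ s : ℕ, 1 ≤ s → s ≤ l → f (c s) + s = f v + k + 1 := by
        intro s hs1 hsl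
        obtain ⟨u, hu1, hu2, hu3⟩ := (hcl.and ((hf y'').and (hf (c s)))).exists
        have d1 : X.dist (c 1) (c s) = s - 1 := by
          have := e1 V X hc l c hcc 1 (s - 1) (by omega)
          rwa [show (1 : ℤ) + ((s - 1 : ℕ) : ℤ) = (s : ℤ) by omega] at this
        have d2 : X.dist (c s) (c l) = l - s := by
          have := e1 V X hc l c hcc s (l - s) (by omega)
          rwa [show (s : ℤ) + ((l - s : ℕ) : ℤ) = (l : ℤ) by omega] at this
        have d3 : X.dist (c 1) (c l) = l - 1 := by
          have := e1 V X hc l c hcc 1 (l - 1) (by omega)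
          rwa [show (1 : ℤ) + ((l - 1 : ℕ) : ℤ) = (l : ℤ) by omega] at this
        have hu1' : X.dist u y'' = X.dist u (c l) + X.dist (c l) y'' := hu1
        have t1 : X.dist (c l) y'' = l - 1 := by rw [← hc1, SimpleGraph.dist_comm, d3]
        have t2 : X.dist u (c s) ≤ X.dist u (c l) + X.dist (c l) (c s) := hc.dist_triangle
        have t3 : X.dist (c l) (c s) = l - s := by rw [SimpleGraph.dist_comm, d2]
        have t4 : X.dist u y'' ≤ X.dist u (c s) + X.dist (c s) y'' := hc.dist_triangle
        have t5 : X.dist (c s) y'' = s - 1 := by rw [← hc1, SimpleGraph.dist_comm, d1]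
        omega
      have hds : ∀ s : ℕ, 1 ≤ s → s ≤ l → X.dist v (c s) + s = k + 1 := by
        intro s hs1
        induction s, hs1 using Nat.le_induction with
        | base =>
          intro _
          have : c ((1 : ℕ) : ℤ) = y'' := by simpa using hc1
          rw [this]
          omega
        | succ s hs ihs =>
          intro hsl
          have h1 := ihs (by omega)
          have h2 : X.dist (c s) (c ((s + 1 : ℕ) : ℤ)) = 1 := by
            have := hadj _ _ (hcc.adj s)
            rwa [show ((s : ℤ) + 1) = ((s + 1 : ℕ) : ℤ) by push_cast; ring] at this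
          have h3 : X.dist v (c ((s + 1 : ℕ) : ℤ)) ≤ X.dist v (c s) + X.dist (c s) (c ((s + 1 : ℕ) : ℤ)) :=
            hc.dist_triangle
          have h4 := ih (c ((s + 1 : ℕ) : ℤ)) (by omega)
          have h5 := hfs (s + 1) (by omega) hsl
          omega
      have h6 := hds l (by omega) le_rfl
      have h7 : X.dist (c (-1)) (c (l - 2)) = l - 1 := by
        have := e1 V X hc l c hcc (-1) (l - 1) (by omega)
        rwa [show (-1 : ℤ) + ((l - 1 : ℕ) : ℤ) = (l : ℤ) - 2 by omega] at this
      have h8 : X.dist (c l) (c (-1)) = l - 1 := by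
        have h9 := e1 V X hc l c hcc l (l - 1) (by omega)
        have h10 : c ((l : ℤ) + ((l - 1 : ℕ) : ℤ)) = c (-1) := by
          rw [hcc.eq_iff]
          exact ⟨1, by omega⟩
        rwa [h10] at h9
      have h11 : X.dist v y ≤ X.dist v (c l) + X.dist (c l) y := hc.dist_triangle
      rw [← hcm, h8, hcm] at h11
      omega
    intro y hy
    rcases Nat.lt_or_ge n (X.dist v y) with h | h
    swap
    · exact ih y h
    have hy1 : X.dist v y = n + 1 := by omega
    obtain ⟨y', ha', hd'⟩ := exists_nbr X hc v y n hy1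
    have hf' : f y' = f v + n := by rw [ih y' (by omega), hd']
    have hA' : ¬ (f y + 1 = f v + n) := hA y hy1
    -- adjacent values
    have hlip : f y' ≤ f y + 1 ∧ f y ≤ f y' + 1 := by
      obtain ⟨u, h1, h2⟩ := ((hf y).and (hf y')).exists
      have h3 := hadj _ _ ha'
      have h4 : X.dist u y ≤ X.dist u y' + X.dist y' y := hc.dist_triangle
      have h5 : X.dist u y' ≤ X.dist u y + X.dist y y' := hc.dist_triangle
      have h6 : X.dist y y' = 1 := by rw [SimpleGraph.dist_comm]; exact h3
      omega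
    -- step B
    have hB : f y ≠ f v + n := by
      intro hfy
      have h1 : ∀ᶠ u in (U : Filter V), ∃ z ∈ {z | X.Adj z y' ∧ X.Adj z y}, X.dist u z + 1 = X.dist u y := by
        filter_upwards [hf y, hf y'] with u h1 h2
        obtain ⟨z, hz1, hz2, hz3, hz4⟩ := hX.triangle u y' y (by omega) ha'
        refine ⟨z, ⟨hz1, hz2⟩, ?_⟩
        have h5 : X.dist u y = X.dist u z + X.dist z y := hz4
        have h6 := hadj _ _ hz2
        omega
      obtain ⟨z, ⟨hz1, hz2⟩, hz3⟩ := (Ultrafilter.eventually_exists_mem_iff (hfin y' y ha')).1 h1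
      obtain ⟨u, hu1, hu2, hu3⟩ := (hz3.and ((hf y).and (hf z))).exists
      have h4 : f z + 1 = f v + n := by omega
      have h5 : X.dist v y ≤ X.dist v z + X.dist z y := hc.dist_triangle
      have h6 := hadj _ _ hz2
      have h7 : X.dist v z ≤ X.dist v y' + X.dist y' z := hc.dist_triangle
      have h8 := hadj _ _ hz1.symm
      rcases Nat.lt_or_ge n (X.dist v z) with h | h
      · exact hA z (by omega) h4
      · have := ih z h
        omega
    omega

theorem lim_nonempty {V : Type u} (X : SimpleGraph V) (hX : Mediangle X)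
    (hfin : ∀ x y, X.Adj x y → {z | X.Adj z x ∧ X.Adj z y}.Finite)
    (O : Set V) (hO : O.Infinite) (o : V) (n : ℕ) (hb : ∀ u ∈ O, X.dist u o ≤ n) :
    (Lim X O).Nonempty := by
  have hc := hX.connected
  have hne : (cofinite ⊓ 𝓟 O).NeBot := cofinite_inf_principal_neBot_iff.2 hO
  let U : Ultrafilter V := Ultrafilter.of (cofinite ⊓ 𝓟 O)
  have hU : (U : Filter V) ≤ cofinite ⊓ 𝓟 O := Ultrafilter.of_le _
  have hUO : ∀ᶠ u in (U : Filter V), u ∈ O := hU.trans inf_le_right (mem_principal_self O)
  have hlim : ∀ y, ∃ k, ∀ᶠ u in (U : Filter V), X.dist u y = k := by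
    intro y
    have h1 : ∀ᶠ u in (U : Filter V), ∃ k ∈ Set.Iic (n + X.dist o y), X.dist u y = k := by
      filter_upwards [hUO] with u hu
      refine ⟨X.dist u y, ?_, rfl⟩
      have h2 := hb u hu
      have h3 : X.dist u y ≤ X.dist u o + X.dist o y := hc.dist_triangle
      simp only [Set.mem_Iic]
      omega
    obtain ⟨k, -, hk⟩ := (Ultrafilter.eventually_exists_mem_iff (Set.finite_Iic _)).1 h1
    exact ⟨k, hk⟩
  choose f hf using hlim
  obtain ⟨v, hv⟩ : ∃ v, ∀ y, f v ≤ f y := by
    classical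
    have hex : ∃ m, ∃ v, f v = m := ⟨f o, o, rfl⟩
    obtain ⟨v, hv⟩ := Nat.find_spec hex
    refine ⟨v, fun y => ?_⟩
    rw [hv]
    exact Nat.find_min' hex ⟨y, rfl⟩
  refine ⟨v, fun F hF hinf => ?_⟩
  have h1 : ∀ᶠ u in (U : Filter V), ∀ y ∈ F, v ∈ Itv X u y := by
    rw [eventually_all_finite hF]
    intro y hy
    filter_upwards [hf y, hf v] with u h1 h2
    have h3 := lim_dist X hX hfin U f hf v hv (X.dist v y) y le_rfl
    show X.dist u y = X.dist u v + X.dist v y
    omega
  have h2 : ∀ᶠ u in (U : Filter V), u ∈ {u | u ∈ O ∧ ∀ y ∈ F, v ∈ Itv X u y} := by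
    filter_upwards [h1, hUO] with u h3 h4
    exact ⟨h4, h3⟩
  have h3 : ∀ᶠ u in (U : Filter V), u ∉ {u | u ∈ O ∧ ∀ y ∈ F, v ∈ Itv X u y} := by
    have h4 : (U : Filter V) ≤ cofinite := hU.trans inf_le_left
    exact h4 hinf.compl_mem_cofinite
  obtain ⟨u, h4, h5⟩ := (h2.and h3).exists
  exact h5 h4

theorem lim_radius {V : Type u} (X : SimpleGraph V) (hc : X.Connected) (O : Set V) (o : V) (n : ℕ)
    (hb : ∀ u ∈ O, X.dist u o ≤ n) : ∀ v ∈ Lim X O, X.dist v o + 1 ≤ n := by
  intro v hv
  have h1 := hv {o} (Set.finite_singleton o)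
  obtain ⟨u, ⟨hu1, hu2⟩, hne⟩ := h1.exists_notMem_finite (Set.finite_singleton v)
  have h2 : X.dist u o = X.dist u v + X.dist v o := hu2 o rfl
  have h3 : X.dist u v ≠ 0 := fun h => hne ((hc.dist_eq_zero_iff).1 h)
  have h4 := hb u hu1
  omega

section action

variable {V : Type u} (X : SimpleGraph V) {G : Type v} [Group G] [MulAction G V]

theorem dist_smul_le (hc : X.Connected) (hG : ∀ (g : G) (x y : V), X.Adj x y → X.Adj (g • x) (g • y))
    (g : G) (x y : V) : X.dist (g • x) (g • y) ≤ X.dist x y := by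
  obtain ⟨p, hp⟩ := hc.exists_walk_length_eq_dist x y
  let φ : X →g X := ⟨fun z => g • z, fun h => hG g _ _ h⟩
  have := SimpleGraph.dist_le (p.map φ)
  rw [SimpleGraph.Walk.length_map, hp] at this
  exact this

theorem dist_smul (hc : X.Connected) (hG : ∀ (g : G) (x y : V), X.Adj x y → X.Adj (g • x) (g • y))
    (g : G) (x y : V) : X.dist (g • x) (g • y) = X.dist x y := by
  refine le_antisymm (dist_smul_le X hc hG g x y) ?_
  have := dist_smul_le X hc hG g⁻¹ (g • x) (g • y)
  rwa [inv_smul_smul, inv_smul_smul] at this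

theorem lim_invariant (hc : X.Connected) (hG : ∀ (g : G) (x y : V), X.Adj x y → X.Adj (g • x) (g • y)) (O : Set V)
    (hO : ∀ (g : G), ∀ u ∈ O, g • u ∈ O) (g : G) : ∀ v ∈ Lim X O, g • v ∈ Lim X O := by
  intro v hv F hF
  have h1 := hv ((g⁻¹ • ·) '' F) (hF.image _)
  have h2 := h1.image (f := (g • · : V → V)) (MulAction.injective g).injOn
  refine h2.mono ?_
  rintro _ ⟨u, ⟨hu1, hu2⟩, rfl⟩
  refine ⟨hO g u hu1, fun y hy => ?_⟩
  have h3 : X.dist u (g⁻¹ • y) = X.dist u v + X.dist v (g⁻¹ • y) := hu2 _ ⟨y, hy, rfl⟩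
  show X.dist (g • u) y = X.dist (g • u) (g • v) + X.dist (g • v) y
  have h4 : ∀ w, X.dist (g • w) y = X.dist w (g⁻¹ • y) := by
    intro w
    rw [← dist_smul X hc hG g w (g⁻¹ • y), smul_inv_smul]
  rw [h4, h4, dist_smul X hc hG, h3]

/-- A bounded orbit gives a finite orbit, if every edge lies in finitely many triangles. -/
theorem finite_orbit (hX : Mediangle X)
    (hfin : ∀ x y, X.Adj x y → {z | X.Adj z x ∧ X.Adj z y}.Finite)
    (hG : ∀ (g : G) (x y : V), X.Adj x y → X.Adj (g • x) (g • y))
    (hb : ∃ (x : V) (r : ℕ), ∀ g : G, X.dist x (g • x) ≤ r) :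
    ∃ x : V, (MulAction.orbit G x).Finite := by
  obtain ⟨o, r, hr⟩ := hb
  have key : ∀ (n : ℕ) (O : Set V), O.Nonempty → (∀ (g : G), ∀ u ∈ O, g • u ∈ O) →
      (∀ u ∈ O, X.dist u o ≤ n) → ∃ x : V, (MulAction.orbit G x).Finite := by
    intro n
    induction n with
    | zero =>
      rintro O ⟨x, hx⟩ hinv hbd
      refine ⟨x, (Set.finite_singleton o).subset ?_⟩
      rintro _ ⟨g, rfl⟩
      have h1 : X.dist (g • x) o ≤ 0 := hbd _ (hinv g x hx)
      show g • x = o
      exact (hX.connected.dist_eq_zero_iff).1 (by omega)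
    | succ n ih =>
      rintro O ⟨x, hx⟩ hinv hbd
      by_cases hO : O.Finite
      · refine ⟨x, hO.subset ?_⟩
        rintro _ ⟨g, rfl⟩
        exact hinv g x hx
      · refine ih (Lim X O) (lim_nonempty X hX hfin O hO o _ hbd) (lim_invariant X hX.connected hG O hinv) ?_
        intro v hv
        have := lim_radius X hX.connected O o _ hbd v hv
        omega
  refine key r (MulAction.orbit G o) ⟨o, MulAction.mem_orbit_self o⟩ ?_ ?_
  · rintro g _ ⟨h, rfl⟩
    exact ⟨g * h, mul_smul g h o⟩
  · rintro _ ⟨g, rfl⟩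
    rw [SimpleGraph.dist_comm]
    exact hr g

end action

end Pool.Agent.H341.FM
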