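import Pool.Agent.H341.MA.St1

/-!
# Monoliths of mediangle graphs (MP_7af17a_al): definitions
-/

set_option autoImplicit false

namespace Pool.Agent.H341.FM

open Pool.Agent.H341.MA

universe u

/-- Two edges are elementarily parallel: they lie in a common 3-cycle, or they are opposite edges
of a convex even cycle. -/
def ElemPar {V : Type u} (X : SimpleGraph V) (e f : Sym2 V) : Prop :=
  (∃ x y z : V, X.Adj x y ∧ X.Adj y z ∧ X.Adj x z ∧ e = s(x, y) ∧ f = s(y, z)) ∨
  (∃ (l : ℕ) (c : ℤ → V), EvenConvexCycle X l c ∧ e = s(c 0, c 1) ∧ f = s(c l, c (l + 1)))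

/-- Two edges belong to the same hyperplane: the equivalence relation generated by `ElemPar`. -/
def SameHyp {V : Type u} (X : SimpleGraph V) : Sym2 V → Sym2 V → Prop :=
  Relation.EqvGen (ElemPar X)

/-- The hyperplanes of the edges `e`, `f` are transverse: some convex even cycle contains an edge
of each of them. -/
def Transverse {V : Type u} (X : SimpleGraph V) (e f : Sym2 V) : Prop :=
  ∃ (l : ℕ) (c : ℤ → V), EvenConvexCycle X l c ∧
    ∃ i j : ℤ, SameHyp X e s(c i, c (i + 1)) ∧ SameHyp X f s(c j, c (j + 1))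

/-- A monolith: a (nonempty) gated subgraph whose hyperplanes are pairwise transverse. -/
def Monolith {V : Type u} (X : SimpleGraph V) (M : Set V) : Prop :=
  M.Nonempty ∧ Gated X M ∧
  ∀ x ∈ M, ∀ y ∈ M, ∀ x' ∈ M, ∀ y' ∈ M, X.Adj x y → X.Adj x' y' →
    ¬ SameHyp X s(x, y) s(x', y') → Transverse X s(x, y) s(x', y')

end Pool.Agent.H341.FM
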