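import Pool.Agent.H341.FM.Stm

/-!
# Parallel edges have the same direction
-/

set_option autoImplicit false

namespace Pool.Agent.H341.FM

open Pool.Agent.H341.MA SimpleGraph

universe u

theorem s_dir (h1 : S_E1.{u}) (hb : S_BOX.{u}) : S_DIR.{u} := by
  intro V X η σ co hX hH
  obtain ⟨b1, b2, b3, b4, b5⟩ := hb V X η σ co hX.connected hH
  constructor
  · intro x y z hxy hyz hxz h hh heq
    obtain ⟨g1, a1, a2⟩ := (b3 x y).1 hxy
    obtain ⟨g2, c1, c2⟩ := (b3 y z).1 hyz
    obtain ⟨g3, d1, d2⟩ := (b3 x z).1 hxz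
    have e1 : h = g1 := by
      by_contra hne
      exact hh (a2 h hne)
    have e2 : g2 ≠ h := fun e => c1 (e ▸ heq)
    have e3 : h = g3 := by
      by_contra hne
      exact hh ((d2 h hne).trans heq.symm)
    have e4 : co x g2 = co y g2 := a2 g2 (e1 ▸ e2)
    have e5 : co x g2 = co z g2 := d2 g2 (e3 ▸ e2)
    exact c1 (e4.symm.trans e5)
  · intro l c hc h hh
    have hl := hc.two_le
    have k1 := h1 V X hX.connected l c hc 0 l le_rfl
    have k2 := h1 V X hX.connected l c hc 0 1 (by omega)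
    have k3 := h1 V X hX.connected l c hc 1 (l - 1) (by omega)
    have k4 := h1 V X hX.connected l c hc 1 l le_rfl
    have k5 := h1 V X hX.connected l c hc ((l : ℤ) + 1) (l - 1) (by omega)
    have e3 : (1 : ℤ) + ((l - 1 : ℕ) : ℤ) = (l : ℤ) := by omega
    have e4 : (1 : ℤ) + (l : ℤ) = (l : ℤ) + 1 := by omega
    have e5 : c ((l : ℤ) + 1 + ((l - 1 : ℕ) : ℤ)) = c 0 := by
      rw [hc.eq_iff]
      exact ⟨1, by omega⟩
    rw [zero_add] at k1 k2
    rw [e3] at k3
    rw [e4] at k4
    rw [e5] at k5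
    have k2' : X.dist (c 0) (c 1) = 1 := by
      have : ((1 : ℕ) : ℤ) = 1 := rfl
      rw [this] at k2
      exact k2
    have m1 : c 1 ∈ Itv X (c 0) (c l) := by
      show X.dist (c 0) (c l) = X.dist (c 0) (c 1) + X.dist (c 1) (c l)
      omega
    have m2 : c 0 ∈ Itv X (c 1) (c (l + 1)) := by
      show X.dist (c 1) (c (l + 1)) = X.dist (c 1) (c 0) + X.dist (c 0) (c (l + 1))
      rw [X.dist_comm (u := c 1) (v := c 0), X.dist_comm (u := c 0) (v := c (l + 1))]
      omega
    rw [b2] at m1 m2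
    have n1 : co (c 1) h = co (c l) h := (m1 h).resolve_left fun e => hh e.symm
    have n2 : co (c 0) h = co (c (l + 1)) h := (m2 h).resolve_left hh
    rw [← n1, ← n2]
    exact fun e => hh e.symm

end Pool.Agent.H341.FM
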