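import Pool.Agent.H341.FM.Stm

/-!
# S_FINC: finite invariant sets closed under intervals (helper279)
-/

set_option autoImplicit false

namespace Pool.Agent.H341.FM

open Pool.Agent.H341.MA

universe u v

theorem finc_dist_le {V : Type u} {X : SimpleGraph V} {G : Type v} [Group G] [MulAction G V]
    (hX : X.Connected) (hA : ∀ (g : G) (x y : V), X.Adj x y → X.Adj (g • x) (g • y)) (g : G)
    (a b : V) : X.dist (g • a) (g • b) ≤ X.dist a b := by
  obtain ⟨p, hp⟩ := hX.exists_walk_length_eq_dist a b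
  let f : X →g X := ⟨fun w => g • w, fun {a b} h => hA g a b h⟩
  have h1 : X.dist (f a) (f b) ≤ (p.map f).length := SimpleGraph.dist_le _
  rw [SimpleGraph.Walk.length_map, hp] at h1
  exact h1

theorem finc_dist {V : Type u} {X : SimpleGraph V} {G : Type v} [Group G] [MulAction G V]
    (hX : X.Connected) (hA : ∀ (g : G) (x y : V), X.Adj x y → X.Adj (g • x) (g • y)) (g : G)
    (a b : V) : X.dist (g • a) (g • b) = X.dist a b := by
  refine le_antisymm (finc_dist_le hX hA g a b) ?_
  have h := finc_dist_le hX hA g⁻¹ (g • a) (g • b)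
  rw [inv_smul_smul, inv_smul_smul] at h
  exact h

theorem s_finc (hb : S_BOX.{u}) : S_FINC.{u, v} := by
  intro V X η σ co G _ _ hX hH hA x hO
  obtain ⟨b1, b2, -, -, -⟩ := hb V X η σ co hX hH
  let Fam : Set (Set V) := {Y | MulAction.orbit G x ⊆ Y ∧ ∀ u ∈ Y, ∀ v ∈ Y, Itv X u v ⊆ Y}
  let B : Set V := {v | ∀ h, ∃ g : G, co v h = co (g • x) h}
  have hBF : B ∈ Fam := by
    refine ⟨?_, ?_⟩
    · rintro y ⟨g, rfl⟩ h
      exact ⟨g, rfl⟩
    · intro u hu v hv w hw h
      rw [b2] at hw
      rcases hw h with h1 | h1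
      · obtain ⟨g, hg⟩ := hu h
        exact ⟨g, h1.trans hg⟩
      · obtain ⟨g, hg⟩ := hv h
        exact ⟨g, h1.trans hg⟩
  have hBfin : B.Finite := by
    let E : Set η := ⋃ y ∈ MulAction.orbit G x, {h | co x h ≠ co y h}
    have hE : E.Finite := hO.biUnion fun y _ => hH.fin x y
    have hout : ∀ v ∈ B, ∀ h, h ∉ E → co v h = co x h := by
      intro v hv h hh
      obtain ⟨g, hg⟩ := hv h
      rw [hg]
      by_contra hne
      exact hh (Set.mem_iUnion₂.2 ⟨g • x, ⟨g, rfl⟩, fun e => hne e.symm⟩)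
    have : Finite E := hE.to_subtype
    let f : V → E → σ := fun v h => co v h
    have himg : (f '' B).Finite := by
      refine (Set.Finite.pi (t := fun h : E => (fun y => co y h) '' MulAction.orbit G x)
        fun h => hO.image _).subset ?_
      rintro _ ⟨v, hv, rfl⟩ h _
      obtain ⟨g, hg⟩ := hv h
      exact ⟨g • x, ⟨g, rfl⟩, hg.symm⟩
    refine Set.Finite.of_finite_image himg ?_
    intro v hv v' hv' hvv
    refine b1 v v' fun h => ?_
    by_cases hh : h ∈ E
    · exact congrFun hvv ⟨h, hh⟩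
    · rw [hout v hv h hh, hout v' hv' h hh]
  refine ⟨⋂₀ Fam, hBfin.subset (Set.sInter_subset_of_mem hBF), ?_, ?_, ?_⟩
  · intro Y hY
    exact hY.1 (MulAction.mem_orbit_self x)
  · intro u hu v hv w hw Y hY
    exact hY.2 u (hu Y hY) v (hv Y hY) hw
  · intro g v hv Y hY
    have hY' : {w | g • w ∈ Y} ∈ Fam := by
      refine ⟨?_, ?_⟩
      · rintro y ⟨g', rfl⟩
        refine hY.1 ⟨g * g', ?_⟩
        exact mul_smul g g' x
      · intro u hu v hv w hw
        refine hY.2 (g • u) hu (g • v) hv ?_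
        have h1 : X.dist u v = X.dist u w + X.dist w v := hw
        show X.dist (g • u) (g • v) = X.dist (g • u) (g • w) + X.dist (g • w) (g • v)
        rw [finc_dist hX hA, finc_dist hX hA, finc_dist hX hA, h1]
    exact hv _ hY'

end Pool.Agent.H341.FM
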