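import Pool.Agent.H341.FM.Stm

/-!
# GHG, SG : gated hulls
-/

set_option autoImplicit false

namespace Pool.Agent.H341.FM

open Pool.Agent.H341.MA

universe u v

open SimpleGraph

/-- a neighbour on a geodesic -/
private theorem gh_nbr {V : Type u} {X : SimpleGraph V} (hX : X.Connected) {x y : V} {n : ℕ}
    (h : X.dist x y = n + 1) : ∃ w, X.Adj x w ∧ X.dist w y = n := by
  obtain ⟨p, hp⟩ := hX.exists_walk_length_eq_dist x y
  cases p with
  | nil =>
    rw [dist_self] at h
    omega
  | @cons _ w _ hadj q =>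
    refine ⟨w, hadj, ?_⟩
    have h1 : X.dist w y ≤ q.length := dist_le q
    have h2 : X.dist x y ≤ X.dist x w + X.dist w y := hX.dist_triangle
    have h3 : X.dist x w = 1 := dist_eq_one_iff_adj.2 hadj
    rw [Walk.length_cons] at hp
    omega

/-- sets which are closed under intervals are preconnected -/
private theorem gh_preconn {V : Type u} {X : SimpleGraph V} (hX : X.Connected) {Y : Set V}
    (hY : ∀ x ∈ Y, ∀ y ∈ Y, Itv X x y ⊆ Y) : (X.induce Y).Preconnected := by
  have key : ∀ n : ℕ, ∀ x y : Y, X.dist (x : V) (y : V) = n → (X.induce Y).Reachable x y := by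
    intro n
    induction n with
    | zero =>
      intro x y hxy
      have : (x : V) = y := (hX.dist_eq_zero_iff).1 hxy
      rw [Subtype.ext this]
    | succ n ih =>
      intro x y hxy
      obtain ⟨w, hw1, hw2⟩ := gh_nbr hX hxy
      have h3 : X.dist (x : V) w = 1 := dist_eq_one_iff_adj.2 hw1
      have hwS : w ∈ Y := by
        apply hY x x.2 y y.2
        show X.dist (x : V) (y : V) = X.dist (x : V) w + X.dist w (y : V)
        omega
      have hadj : (X.induce Y).Adj x ⟨w, hwS⟩ := by
        rw [SimpleGraph.induce_adj]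
        exact hw1
      exact hadj.reachable.trans (ih ⟨w, hwS⟩ y hw2)
  intro x y
  exact key _ x y rfl

private theorem gh_sub {V : Type u} (X : SimpleGraph V) (S : Set V) : S ⊆ GH X S :=
  fun _ hx _ hY => hY.2 hx

/-- GHG. -/
theorem s_ghg (hg : S_GATE.{u}) (hp : S_GP.{u}) : S_GHG.{u} := by
  intro V X hX S hS
  have hI : ∀ x ∈ GH X S, ∀ y ∈ GH X S, Itv X x y ⊆ GH X S := by
    intro x hx y hy w hw Y hY
    exact (hp V X hX.connected Y hY.1).1 x (hx Y hY) y (hy Y hY) hw
  refine hg V X hX (GH X S) (hS.mono (gh_sub X S)) (gh_preconn hX.connected hI) ?_ ?_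
  · intro x hx y hy w hxy hwx hwy Y hY
    exact (hp V X hX.connected Y hY.1).2.1 x (hx Y hY) y (hy Y hY) w hxy hwx hwy
  · intro l c hc hm h0 h1 w hw Y hY
    exact (hp V X hX.connected Y hY.1).2.2 l c hc (hm Y hY) (h0 Y hY) (h1 Y hY) hw

/-- SG. -/
theorem s_sg (hb : S_BOX.{u}) (hp : S_GP.{u}) (hst : S_STAR.{u}) (hsu : S_SUBC.{u}) :
    S_SG.{u} := by
  intro V X η σ co hX hH b z hA
  obtain ⟨b1, b2, b3, -, -⟩ := hb V X η σ co hX.connected hH
  obtain ⟨hG, hP⟩ := hsu V X η σ co hX hH b z hA
  have hz : z ∈ Sub co b z := fun h hh => hh.symm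
  have hbox : ∀ x ∈ Box co b z, x ∈ Sub co b z := by
    intro x hx h hh
    rcases hx h with h' | h'
    · exact h'
    · rw [h', hh]
  apply Set.Subset.antisymm
  · intro w hw
    refine hw (Sub co b z) ⟨hG, ?_⟩
    rintro x (hx | ⟨hx1, hx2⟩)
    · rw [Set.mem_singleton_iff] at hx
      rw [hx]
      exact hz
    · apply hbox
      rw [← b2]
      show X.dist b z = X.dist b x + X.dist x z
      have h3 : X.dist x z = 1 := dist_eq_one_iff_adj.2 hx1.symm
      omega
  · intro w hw Y hY
    obtain ⟨hYG, hYS⟩ := hY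
    have hzY : z ∈ Y := hYS (Or.inl rfl)
    refine hst V X hX (Sub co b z) Y hG hP hYG z hz hzY ?_ hw
    intro x hx hzx
    obtain ⟨g, hg1, hg2⟩ := (b3 z x).1 hzx
    have hbg : co b g ≠ co z g := by
      intro h
      exact hg1 (h.symm.trans (hx g h).symm)
    obtain ⟨t, ht1, ht2⟩ := hH.proj z x b hzx g hg1
    have hzt : X.Adj z t := by
      rw [b3]
      refine ⟨g, ?_, fun h hh => (ht2 h hh).symm⟩
      rw [ht1]
      exact hbg.symm
    have htI : t ∈ Itv X b z := by
      rw [b2]
      intro h
      by_cases hh : h = g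
      · left
        rw [hh, ht1]
      · right
        exact ht2 h hh
    have htI' : X.dist b z = X.dist b t + X.dist t z := htI
    have h3 : X.dist t z = 1 := dist_eq_one_iff_adj.2 hzt.symm
    have htY : t ∈ Y := hYS (Or.inr ⟨hzt, by omega⟩)
    by_cases hxt : x = t
    · rw [hxt]
      exact htY
    · have hne : co x g ≠ co t g := by
        intro h
        apply hxt
        apply b1
        intro k
        by_cases hk : k = g
        · rw [hk]
          exact h
        · rw [← hg2 k hk, ht2 k hk]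
      have hadj : X.Adj x t := by
        rw [b3]
        exact ⟨g, hne, fun k hk => by rw [← hg2 k hk, ht2 k hk]⟩
      exact (hp V X hX.connected Y hYG).2.1 z hzY t htY x hzt hzx.symm hadj

end Pool.Agent.H341.FM
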