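import Pool.Agent.H341.FM.Stm
import Pool.Agent.H341.MA.Ant

/-!
# FM: S_MT, cells spanned by a set of lower neighbours (helper670)
-/

set_option autoImplicit false

namespace Pool.Agent.H341.FM

open Pool.Agent.H341.MA

universe u v

theorem s_mt (h2 : S_E2.{u}) (hb : S_BOX.{u}) (hm : T_MEET.{u}) (ht : T_MAIN.{u}) : S_MT.{u} := by
  classical
  intro V X η σ co hX H o z T hTne hT
  obtain ⟨b1, b2, -, b4, b5⟩ := hb V X η σ co hX.connected H
  -- the thin system
  let W := {v // v ∈ Box co o z}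
  let φ : W → Finset η := Ant_phi H o z
  let Pol : Set (Set W) := {P | ∃ (l : ℕ) (c : ℤ → V), EvenConvexCycle X l c ∧
    Set.range c ⊆ Box co o z ∧ ∀ w : W, w ∈ P ↔ w.1 ∈ Set.range c}
  have hbt : ∀ a b w : W, w ∈ Bt φ a b ↔ w.1 ∈ Itv X a.1 b.1 := fun a b w => by
    rw [b2]
    exact Ant_bt H a b w
  have hnb : ∀ a b : W, Nb φ a b ↔ X.Adj a.1 b.1 := fun a b => Ant_nb H a b
  have hsub : ∀ a b : W, Itv X a.1 b.1 ⊆ Box co o z := by
    intro a b
    have h5 := b4 o z a.1 b.1 (by rw [b2]; exact a.2) (by rw [b2]; exact b.2)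
    rw [b2 o z] at h5
    exact h5
  have hswap : ∀ a b : V, Itv X a b = Itv X b a := by
    intro a b
    ext w
    show X.dist a b = X.dist a w + X.dist w b ↔ X.dist b a = X.dist b w + X.dist w a
    rw [X.dist_comm (u := b) (v := a), X.dist_comm (u := b) (v := w), X.dist_comm (u := w) (v := a),
      add_comm (X.dist w b)]
  have hthin : Thin φ Pol := by
    refine ⟨?_, ?_, ?_, ?_, ?_, ?_⟩
    · intro a b hab
      have h5 : D φ a b = ∅ := by
        rw [D, hab, symmDiff_self]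
        rfl
      apply Subtype.ext
      apply b1
      intro h
      by_contra h6
      have h7 := (Ant_mem_D H a b h).2 h6
      have h8 : h ∈ D φ a b := h7
      rw [h5] at h8
      exact Finset.notMem_empty h h8
    · intro a b hab
      obtain ⟨w, hw1, hw2, -⟩ := b5 a.1 b.1 (fun h => hab (Subtype.ext h))
      exact ⟨⟨w, hsub a b hw2⟩, (hnb _ _).2 hw1, (hbt _ _ _).2 hw2⟩
    · rintro P ⟨l, c, hc, hcs, hP⟩ v hv
      obtain ⟨i, hi⟩ := (hP v).1 hv
      refine ⟨⟨c (i + l), hcs ⟨i + l, rfl⟩⟩, (hP _).2 ⟨i + l, rfl⟩, ?_⟩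
      ext w
      rw [hP, hbt, ← hi, h2 V X hX.connected l c hc i]
    · rintro P ⟨l, c, hc, hcs, hP⟩ v hv a ha hva
      obtain ⟨i, hi⟩ := (hP v).1 hv
      obtain ⟨j, hj⟩ := (hP a).1 ha
      rw [hnb, ← hi, ← hj] at hva
      have key : ∀ w : W, w ∈ P → Nb φ v w → w.1 = c (i + 1) ∨ w.1 = c (i - 1) := by
        intro w hw hvw
        obtain ⟨k, hk⟩ := (hP w).1 hw
        rw [hnb, ← hi, ← hk] at hvw
        rw [← hk]
        exact Ant_nbr hc hvw
      rcases Ant_nbr hc hva with h5 | h5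
      · refine ⟨⟨c (i - 1), hcs ⟨_, rfl⟩⟩, (hP _).2 ⟨_, rfl⟩, ?_, ?_, ?_⟩
        · intro h6
          have h7 : c (i - 1) = a.1 := congrArg Subtype.val h6
          rw [← hj, h5] at h7
          exact Ant_ne hc i h7.symm
        · rw [hnb, ← hi]
          have h6 := hc.adj (i - 1)
          rw [sub_add_cancel] at h6
          exact h6.symm
        · intro w hw hvw
          rcases key w hw hvw with h6 | h6
          · left
            apply Subtype.ext
            rw [h6, ← hj, h5]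
          · right
            exact Subtype.ext h6
      · refine ⟨⟨c (i + 1), hcs ⟨_, rfl⟩⟩, (hP _).2 ⟨_, rfl⟩, ?_, ?_, ?_⟩
        · intro h6
          have h7 : c (i + 1) = a.1 := congrArg Subtype.val h6
          rw [← hj, h5] at h7
          exact Ant_ne hc i h7
        · rw [hnb, ← hi]
          exact hc.adj i
        · intro w hw hvw
          rcases key w hw hvw with h6 | h6
          · right
            exact Subtype.ext h6
          · left
            apply Subtype.ext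
            rw [h6, ← hj, h5]
    · intro o' x y z' hxy hzx hzy hx hy
      rw [hnb] at hzx hzy
      rw [hbt] at hx hy
      have low : ∀ t : W, X.Adj z'.1 t.1 → t.1 ∈ Itv X z'.1 o'.1 →
          X.dist o'.1 t.1 + 1 = X.dist o'.1 z'.1 := by
        intro t h5 h6
        have h7 : X.dist z'.1 o'.1 = X.dist z'.1 t.1 + X.dist t.1 o'.1 := h6
        have h8 : X.dist z'.1 t.1 = 1 := SimpleGraph.dist_eq_one_iff_adj.2 h5
        rw [h8, X.dist_comm (u := z'.1), X.dist_comm (u := t.1)] at h7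
        omega
      obtain ⟨l, c, hc, c0, c1, c2, c3, c4⟩ := hX.cycle o'.1 x.1 y.1 z'.1
        (fun h => hxy (Subtype.ext h)) hzx hzy (low x hzx hx) (low y hzy hy)
      have hrange : Itv X z'.1 (c l) = Set.range c := by
        have h5 := h2 V X hX.connected l c hc 0
        rwa [c0, zero_add] at h5
      have hm : c l ∈ Box co o z := hsub o' x c3
      have hcs : Set.range c ⊆ Box co o z := by
        rw [← hrange]
        exact hsub z' ⟨c l, hm⟩
      refine ⟨{w | w.1 ∈ Set.range c}, ⟨l, c, hc, hcs, fun w => Iff.rfl⟩, ⟨1, c1⟩, ⟨-1, c2⟩, ⟨0, c0⟩,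
        ⟨c l, hm⟩, ⟨l, rfl⟩, ?_, ?_, ?_⟩
      · ext w
        rw [hbt, hrange]
        rfl
      · rw [hbt]
        exact c3
      · rw [hbt]
        exact c4
    · rintro P ⟨l, c, hc, hcs, hP⟩ P' ⟨l', c', hc', hcs', hP'⟩ x y z' hxy hzx hzy hx hy hz hx' hy' hz'
      rw [hnb] at hzx hzy
      obtain ⟨i, hi⟩ := Ant_edge hc ((hP z').1 hz) ((hP x).1 hx) hzx
      obtain ⟨j, hj⟩ := Ant_edge hc ((hP z').1 hz) ((hP y).1 hy) hzy
      obtain ⟨i', hi'⟩ := Ant_edge hc' ((hP' z').1 hz') ((hP' x).1 hx') hzx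
      obtain ⟨j', hj'⟩ := Ant_edge hc' ((hP' z').1 hz') ((hP' y).1 hy') hzy
      have h5 := hX.share l l' c c' hc hc' i j i' j' (hi.trans hi'.symm) (hj.trans hj'.symm) (by
        rw [hi, hj]
        intro h6
        exact hxy (Subtype.ext (Sym2.congr_right.1 h6)))
      ext w
      rw [hP, hP', h5]
  have ho : o ∈ Box co o z := fun h => Or.inl rfl
  have hz : z ∈ Box co o z := fun h => Or.inr rfl
  have hoz : o ≠ z := by
    obtain ⟨x, hx⟩ := hTne
    intro h
    have h5 := (hT x hx).2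
    rw [← h, SimpleGraph.dist_self] at h5
    omega
  have hTI : ∀ x ∈ T, x ∈ Itv X o z := by
    intro x hx
    obtain ⟨hx1, hx2⟩ := hT x hx
    show X.dist o z = X.dist o x + X.dist x z
    rw [← hx2, SimpleGraph.dist_eq_one_iff_adj.2 hx1.symm]
  have hTB : ∀ x ∈ T, x ∈ Box co o z := by
    intro x hx
    rw [← b2]
    exact hTI x hx
  -- the set of the elements of T, as elements of W
  let T' : Set W := {w | w.1 ∈ T}
  have hT'ne : T'.Nonempty := by
    obtain ⟨x, hx⟩ := hTne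
    exact ⟨⟨x, hTB x hx⟩, hx⟩
  have hT'sub : T' ⊆ Low φ ⟨o, ho⟩ ⟨z, hz⟩ := by
    intro w hw
    refine ⟨(hnb _ _).2 (hT w.1 hw).1, (hbt _ _ _).2 ?_⟩
    rw [hswap]
    exact hTI w.1 hw
  obtain ⟨m, hm1, hm2⟩ := hm W η φ Pol hthin ⟨o, ho⟩ ⟨z, hz⟩ T' hT'ne hT'sub
  obtain ⟨hA, hL⟩ := ht W η φ Pol hthin ⟨o, ho⟩ ⟨z, hz⟩ (fun h => hoz (congrArg Subtype.val h)) T'
    hT'ne hT'sub m hm1 hm2
  refine ⟨m.1, ?_, fun v hv => ?_, fun x => ⟨fun hx => ?_, fun hx => ?_⟩⟩
  · rw [b2]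
    exact m.2
  · have hv2 : v ∈ Itv X m.1 z := by rw [b2]; exact hv
    have hv3 : v ∈ Box co o z := hsub m ⟨z, hz⟩ hv2
    obtain ⟨v', hv4, hv5⟩ := hA ⟨v, hv3⟩ ((hbt _ _ _).2 hv2)
    refine ⟨v'.1, ?_, fun h h5 => ?_⟩
    · rw [← b2]
      exact (hbt _ _ _).1 hv4
    · have h6 : h ∈ D φ m ⟨z, hz⟩ := (Ant_mem_D H m ⟨z, hz⟩ h).2 h5
      rw [← hv5] at h6
      exact (Ant_mem_D H ⟨v, hv3⟩ v' h).1 h6
  · obtain ⟨hx1, hx2⟩ := hx
    have hx3 : x ∈ Itv X m.1 z := by
      show X.dist m.1 z = X.dist m.1 x + X.dist x z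
      rw [← hx2, SimpleGraph.dist_eq_one_iff_adj.2 hx1.symm]
    have hx4 : x ∈ Box co o z := hsub m ⟨z, hz⟩ hx3
    have hx5 : (⟨x, hx4⟩ : W) ∈ Low φ m ⟨z, hz⟩ := by
      refine ⟨(hnb _ _).2 hx1, (hbt _ _ _).2 ?_⟩
      rw [hswap]
      exact hx3
    rw [hL] at hx5
    exact hx5
  · have hx5 : (⟨x, hTB x hx⟩ : W) ∈ T' := hx
    rw [← hL] at hx5
    obtain ⟨h5, h6⟩ := hx5
    have h7 : X.Adj z x := (hnb _ _).1 h5
    have h8 : x ∈ Itv X z m.1 := (hbt _ _ _).1 h6
    have h9 : X.dist z m.1 = X.dist z x + X.dist x m.1 := h8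
    refine ⟨h7, ?_⟩
    rw [SimpleGraph.dist_eq_one_iff_adj.2 h7, X.dist_comm (u := z), X.dist_comm (u := x)] at h9
    omega

end Pool.Agent.H341.FM
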