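import Pool.Agent.H341.FM.OStm
import Pool.Agent.H341.FM.Asm

/-!
# Fixed monoliths for groups in Oliver's class: assembly
-/

set_option autoImplicit false

namespace Pool.Agent.H341.FM.O

open Pool.Agent.H341.MA Pool.Agent.H341.FM

universe u v

theorem o_perm (hmodp : O_MODP.{u}) (hpgrp : O_PGRP.{u}) (hrat : O_RAT.{u}) (hlef : O_LEF.{u})
    (hqgrp : O_QGRP.{u}) (Ω : Type u) [PartialOrder Ω] [Finite Ω] (p q : ℕ) (hp : p.Prime)
    (hq : q.Prime) (P H K : Subgroup (Equiv.Perm Ω))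
    (hmono : ∀ σ ∈ K, ∀ a b : Ω, a < b → σ a < σ b) (hPH : P ≤ H) (hHK : H ≤ K)
    (hPn : ∀ x ∈ P, ∀ y ∈ H, y * x * y⁻¹ ∈ P) (hHn : ∀ x ∈ H, ∀ y ∈ K, y * x * y⁻¹ ∈ H)
    (hPp : IsPGroup p P) (h₀ : Equiv.Perm Ω) (hh₀ : h₀ ∈ H)
    (hgen : ∀ x ∈ H, ∃ k : ℤ, x * h₀ ^ k ∈ P) (hKq : ∀ y ∈ K, ∃ k : ℕ, y ^ q ^ k ∈ H)
    (hex : Ex ℤ (Set.univ : Set Ω)) : ∃ a : Ω, ∀ σ ∈ K, σ a = a := by
  have e1 := hmodp Ω p hp Set.univ hex
  have e2 := hpgrp Ω p hp P (fun g hg => hmono g (hHK (hPH hg))) hPp e1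
  have e3 := hrat Ω p hp _ e2
  have inv1 : ∀ a ∈ {a : Ω | ∀ g ∈ P, g a = a}, h₀ a ∈ {a : Ω | ∀ g ∈ P, g a = a} := by
    intro a ha x hx
    have h1 := ha _ (hPn x hx h₀⁻¹ (H.inv_mem hh₀))
    rw [inv_inv, Equiv.Perm.mul_apply, Equiv.Perm.mul_apply] at h1
    have h2 := congrArg h₀ h1
    rwa [← Equiv.Perm.mul_apply h₀ h₀⁻¹, mul_inv_cancel, Equiv.Perm.one_apply] at h2
  have e4 := hlef Ω _ h₀ (hmono h₀ (hHK hh₀)) inv1 e3
  have key : {a : Ω | a ∈ {a : Ω | ∀ g ∈ P, g a = a} ∧ h₀ a = a} = {a : Ω | ∀ g ∈ H, g a = a} := by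
    ext a
    constructor
    · rintro ⟨h1, h2⟩ x hx
      obtain ⟨k, hk⟩ := hgen x hx
      have h3 := h1 _ hk
      rw [Equiv.Perm.mul_apply] at h3
      have h4 : (h₀ ^ k) a = a := by
        have : ∀ k : ℤ, (h₀ ^ k) a = a := fun k => by
          have hs : h₀ ∈ MulAction.stabilizer (Equiv.Perm Ω) a := h2
          exact (MulAction.stabilizer (Equiv.Perm Ω) a).zpow_mem hs k
        exact this k
      rwa [h4] at h3
    · intro h
      exact ⟨fun g hg => h g (hPH hg), h h₀ hh₀⟩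
  rw [key] at e4
  obtain ⟨a, -, ha⟩ := hqgrp Ω q hq {a : Ω | ∀ g ∈ H, g a = a} K hmono
    (by
      intro y hy a ha x hx
      have h1 := ha _ (hHn x hx y⁻¹ (K.inv_mem hy))
      rw [inv_inv, Equiv.Perm.mul_apply, Equiv.Perm.mul_apply] at h1
      have h2 := congrArg y h1
      rwa [← Equiv.Perm.mul_apply y y⁻¹, mul_inv_cancel, Equiv.Perm.one_apply] at h2)
    (by
      intro g hg
      obtain ⟨k, hk⟩ := hKq g hg
      exact ⟨k, fun a ha => ha _ hk⟩) e4
  exact ⟨a, ha⟩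

theorem o_main (hb : S_BOX.{u}) (hham : S_HAM.{u}) (hgh : S_GHG.{u})
    (hmt : S_MT.{u}) (hsg : S_SG.{u}) (hsh : S_SH.{u}) (htr : S_TR.{u}) (hfin : S_FINC.{u, v})
    (hcs : S_CSYS.{u}) (hac : S_ACY.{u}) (hcones : S_CONES.{u}) (hcinv : S_CINV.{u})
    (hind : O_IND.{u}) (hhull : O_HULL.{u}) (htoz : O_TOZ.{u}) (hmodp : O_MODP.{u})
    (hpgrp : O_PGRP.{u}) (hrat : O_RAT.{u}) (hlef : O_LEF.{u}) (hqgrp : O_QGRP.{u})
    (p q : ℕ) (hp : p.Prime) (hq : q.Prime) (V : Type u) (X : SimpleGraph V) (G : Type v) [Group G]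
    [MulAction G V] (hX : Mediangle X) (hG : ∀ (g : G) (x y : V), X.Adj x y → X.Adj (g • x) (g • y))
    (P H : Subgroup G) [hPn : P.Normal] [hHn : H.Normal] (hPH : P ≤ H) (hPp : IsPGroup p P)
    (hcyc : IsCyclic (H.map (QuotientGroup.mk' P))) (hqG : IsPGroup q (G ⧸ H))
    (horb : ∃ x : V, (MulAction.orbit G x).Finite) :
    ∃ M : Set V, Monolith X M ∧ ∀ g : G, (g • ·) '' M = M := by
  classical
  obtain ⟨x₀, hx₀⟩ := horb
  obtain ⟨η, σ, co, hH⟩ := hham V X hX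
  obtain ⟨C, hCf, hxC, hCI, hCG⟩ := hfin V X η σ co G hX.connected hH hG x₀ hx₀
  have hCne : C.Nonempty := ⟨x₀, hxC⟩
  obtain ⟨hY, hYd⟩ := hind V X hX C hCne hCI
  haveI : Finite C := hCf
  -- the action on `C`
  letI actC : MulAction G C :=
    { smul := fun g x => ⟨g • x.1, hCG g x.1 x.2⟩
      one_smul := fun x => Subtype.ext (one_smul G x.1)
      mul_smul := fun g h x => Subtype.ext (mul_smul g h x.1) }
  have hsm : ∀ (g : G) (x : C), ((g • x : C) : V) = g • (x : V) := fun _ _ => rfl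
  have hadj : ∀ (g : G) (x y : C), (X.induce C).Adj x y ↔ (X.induce C).Adj (g • x) (g • y) := by
    intro g x y
    show X.Adj x.1 y.1 ↔ X.Adj (g • x.1) (g • y.1)
    exact (adj_smul_iff hG g x.1 y.1).symm
  -- the poset of cells
  let Ω : Type u := {D : Set C // Cell (X.induce C) D}
  letI : PartialOrder Ω := inferInstanceAs (PartialOrder {D : Set C // Cell (X.induce C) D})
  haveI : Finite Ω := inferInstanceAs (Finite {D : Set C // Cell (X.induce C) D})
  have hcell : ∀ (g : G) (D : Set C), Cell (X.induce C) D →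
      Cell (X.induce C) ((fun x : C => g • x) '' D) := by
    intro g D hD
    exact hcinv C (X.induce C) (MulAction.toPerm g) hY.connected (fun x y => hadj g x y) D hD
  letI actO : MulAction G Ω :=
    { smul := fun g D => ⟨(fun x : C => g • x) '' D.1, hcell g D.1 D.2⟩
      one_smul := fun D => Subtype.ext (by
        show (fun x : C => (1 : G) • x) '' D.1 = D.1
        simp)
      mul_smul := fun g h D => Subtype.ext (by
        show (fun x : C => (g * h) • x) '' D.1 = (fun x : C => g • x) '' ((fun x : C => h • x) '' D.1)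
        rw [Set.image_image]
        simp only [mul_smul]) }
  have hsO : ∀ (g : G) (D : Ω), (g • D : Ω).1 = (fun x : C => g • x) '' D.1 := fun _ _ => rfl
  have hmono : ∀ (g : G) (a b : Ω), a < b → g • a < g • b := by
    intro g a b hab
    have h1 : a.1 ⊂ b.1 := hab
    show (fun x : C => g • x) '' a.1 ⊂ (fun x : C => g • x) '' b.1
    exact (MulAction.injective g).image_strictMono h1
  -- exactness
  have hbf : ∀ (x : C) (n : ℕ), {y | (X.induce C).dist x y ≤ n}.Finite := fun _ _ => Set.toFinite _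
  obtain ⟨R, hR⟩ := hcs C (X.induce C) hY hbf
  have hacy := hac C Ω (X.induce C) R hY hR (fun D => D.1) (fun a b => a.1 ⊂ b.1)
    (fun a b h => h.subset) (fun D hD => ⟨⟨D, hD⟩, rfl⟩) (fun D => D.2)
    (hcones C Ω (fun D => D.1) Subtype.val_injective)
  have hex : Ex ℤ (Set.univ : Set Ω) := by
    refine htoz Ω ?_
    have e : (fun n => {τ : Fin n → Ω | StrictMono τ}) =
        Tup (fun D : Ω => D.1) (fun a b => a.1 ⊂ b.1) {D | Cell (X.induce C) D} := by
      funext n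
      ext τ
      constructor
      · intro h
        exact ⟨fun i => (τ i).2, fun i j hij => h hij⟩
      · intro h i j hij
        exact h.2 i j hij
    rw [e]
    exact hacy
  -- the groups
  let ψ : G →* Equiv.Perm Ω := MulAction.toPermHom G Ω
  have hψ : ∀ (g : G) (D : Ω), ψ g D = g • D := fun _ _ => rfl
  obtain ⟨⟨z, hz⟩, hz2⟩ := hcyc.exists_generator
  obtain ⟨h₀, hh₀, rfl⟩ := Subgroup.mem_map.1 hz
  obtain ⟨D, hD⟩ := o_perm hmodp hpgrp hrat hlef hqgrp Ω p q hp hq (P.map ψ) (H.map ψ)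
    ((⊤ : Subgroup G).map ψ)
    (by
      rintro _ ⟨g, -, rfl⟩ a b hab
      exact hmono g a b hab)
    (Subgroup.map_mono hPH) (Subgroup.map_mono le_top)
    (by
      rintro _ ⟨x, hx, rfl⟩ _ ⟨y, hy, rfl⟩
      exact ⟨y * x * y⁻¹, hPn.conj_mem x hx y, by simp⟩)
    (by
      rintro _ ⟨x, hx, rfl⟩ _ ⟨y, hy, rfl⟩
      exact ⟨y * x * y⁻¹, hHn.conj_mem x hx y, by simp⟩)
    (hPp.map ψ) (ψ h₀) ⟨h₀, hh₀, rfl⟩
    (by
      rintro _ ⟨x, hx, rfl⟩
      obtain ⟨k, hk⟩ := Subgroup.mem_zpowers_iff.1 (hz2 ⟨QuotientGroup.mk' P x, ⟨x, hx, rfl⟩⟩)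
      have hk2 : (QuotientGroup.mk' P h₀) ^ k = QuotientGroup.mk' P x := congrArg Subtype.val hk
      refine ⟨-k, x * h₀ ^ (-k), ?_, by simp⟩
      have h3 : QuotientGroup.mk' P (x * h₀ ^ (-k)) = 1 := by
        rw [map_mul, map_zpow, ← hk2, zpow_neg, mul_inv_cancel]
      exact (QuotientGroup.eq_one_iff _).1 h3)
    (by
      rintro _ ⟨y, -, rfl⟩
      obtain ⟨k, hk⟩ := hqG (QuotientGroup.mk' H y)
      refine ⟨k, y ^ q ^ k, ?_, by simp⟩
      rw [← map_pow] at hk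
      exact (QuotientGroup.eq_one_iff _).1 hk)
    hex
  have hDg : ∀ g : G, (fun x : C => g • x) '' D.1 = D.1 := by
    intro g
    have h1 := hD (ψ g) ⟨g, trivial, rfl⟩
    exact congrArg Subtype.val h1
  -- the monolith
  obtain ⟨o, v, T, hT, hhul⟩ := hhull V X hX C hCne hCI D.1 D.2
  refine ⟨GH X (Subtype.val '' D.1), ?_, ?_⟩
  · rw [hhul]
    exact monolith_of hb hgh hmt hsg hsh htr V X η σ co hX hH o v T hT
  · intro g
    rw [← GH_smul hX.connected hG]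
    congr 1
    have h1 : (g • ·) '' (Subtype.val '' D.1 : Set V) =
        Subtype.val '' ((fun x : C => g • x) '' D.1) := by
      rw [Set.image_image, Set.image_image]
      rfl
    rw [h1, hDg]

end Pool.Agent.H341.FM.O
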