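import Pool.Agent.H341.FM.OStm

/-!
# O_HULL: the gated hull of a cell of a convex subset (helper279)
-/

set_option autoImplicit false

namespace Pool.Agent.H341.FM.O

open Pool.Agent.H341.MA Pool.Agent.H341.FM

universe u v

/-- the trace of a gated set on a convex set which it meets is gated -/
private theorem oHull_trace {V : Type u} (X : SimpleGraph V) (C : Set V)
    (hC : ∀ u ∈ C, ∀ v ∈ C, Itv X u v ⊆ C)
    (hd : ∀ u v : C, (X.induce C).dist u v = X.dist (u : V) v) (E : Set V) (hE : Gated X E) (e : C)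
    (he : (e : V) ∈ E) : Gated (X.induce C) {x : C | (x : V) ∈ E} := by
  intro x
  obtain ⟨y, hy, h⟩ := hE x
  have hyC : y ∈ C := hC x x.2 e e.2 (h e he)
  refine ⟨⟨y, hyC⟩, hy, fun y' hy' => ?_⟩
  rw [hd, hd, hd]
  exact h y' hy'

private theorem oHull_GH_sub {V : Type u} (X : SimpleGraph V) (S Z : Set V) (hZ : Gated X Z) (h : S ⊆ Z) :
    GH X S ⊆ Z := Set.sInter_subset_of_mem ⟨hZ, h⟩

private theorem oHull_sub_GH {V : Type u} (X : SimpleGraph V) (S : Set V) : S ⊆ GH X S :=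
  Set.subset_sInter fun _ h => h.2

theorem o_hull (hi : O_IND.{u}) (hp : S_GP.{u}) (hg : S_GHG.{u}) (hs : S_STAR.{u}) : O_HULL.{u} := by
  intro V X hX C hCn hC D hD
  obtain ⟨hY, hd⟩ := hi V X hX C hCn hC
  obtain ⟨hDg, hDp, hDf⟩ := hD
  obtain ⟨c0, hc0⟩ := hCn
  obtain ⟨o, ho, -⟩ := hDg ⟨c0, hc0⟩
  obtain ⟨v, hv, hmax⟩ := Set.exists_max_image D (fun x => (X.induce C).dist o x) hDf ⟨o, ho⟩
  have hcon : (X.induce C).Connected := hY.connected
  set T₀ : Set C := {x | x ∈ D ∧ (X.induce C).Adj v x ∧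
    (X.induce C).dist o x + 1 = (X.induce C).dist o v} with hT₀
  have hE : Gated (X.induce C) (GH (X.induce C) ({v} ∪ T₀)) :=
    hg C (X.induce C) hY _ ⟨v, Or.inl rfl⟩
  have hsub : ({v} ∪ T₀ : Set C) ⊆ GH (X.induce C) ({v} ∪ T₀) := oHull_sub_GH _ _
  obtain ⟨-, hEt, -⟩ := hp C (X.induce C) hcon _ hE
  obtain ⟨hDc, -, -⟩ := hp C (X.induce C) hcon _ hDg
  have hDE : D ⊆ GH (X.induce C) ({v} ∪ T₀) := by
    refine hs C (X.induce C) hY D _ hDg hDp hE v hv (hsub (Or.inl rfl)) ?_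
    intro x hx hvx
    have h1 : (X.induce C).dist o x ≤ (X.induce C).dist o v := hmax x hx
    have h2 : (X.induce C).dist o v ≤ (X.induce C).dist o x + (X.induce C).dist x v :=
      hcon.dist_triangle
    have h3 : (X.induce C).dist x v = 1 := SimpleGraph.dist_eq_one_iff_adj.2 hvx.symm
    rw [h3] at h2
    rcases Nat.lt_or_ge ((X.induce C).dist o x) ((X.induce C).dist o v) with h4 | h4
    · exact hsub (Or.inr ⟨hx, hvx, by omega⟩)
    · have h5 : (X.induce C).dist o v = (X.induce C).dist o x := le_antisymm h4 h1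
      obtain ⟨z, hzv, hzx, hz1, -⟩ := hY.triangle o v x h5 hvx
      have hzD : z ∈ D := hDc o ho v hv hz1
      have h6 : (X.induce C).dist z v = 1 := SimpleGraph.dist_eq_one_iff_adj.2 hzv
      have h7 : (X.induce C).dist o v = (X.induce C).dist o z + (X.induce C).dist z v := hz1
      have hzT : z ∈ T₀ := ⟨hzD, hzv.symm, by omega⟩
      exact hEt z (hsub (Or.inr hzT)) v (hsub (Or.inl rfl)) x hzv hzx.symm hvx.symm
  refine ⟨o, v, Subtype.val '' T₀, ?_, ?_⟩
  · rintro _ ⟨x, hx, rfl⟩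
    refine ⟨hx.2.1, ?_⟩
    have h1 := hx.2.2
    rw [hd, hd] at h1
    exact h1
  · refine Set.Subset.antisymm ?_ ?_
    · refine Set.subset_sInter fun Z hZ => ?_
      refine oHull_GH_sub X _ Z hZ.1 ?_
      have h1 : Gated (X.induce C) {x : C | (x : V) ∈ Z} :=
        oHull_trace X C hC hd Z hZ.1 v (hZ.2 (Or.inl rfl))
      have h2 : GH (X.induce C) ({v} ∪ T₀) ⊆ {x : C | (x : V) ∈ Z} := by
        refine oHull_GH_sub _ _ _ h1 ?_
        rintro x (hx | hx)
        · rw [Set.mem_singleton_iff] at hx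
          rw [hx]
          exact hZ.2 (Or.inl rfl)
        · exact hZ.2 (Or.inr ⟨x, hx, rfl⟩)
      rintro _ ⟨x, hx, rfl⟩
      exact h2 (hDE hx)
    · refine Set.subset_sInter fun Z hZ => ?_
      refine oHull_GH_sub X _ Z hZ.1 ?_
      rintro x (hx | ⟨y, hy, rfl⟩)
      · rw [Set.mem_singleton_iff] at hx
        rw [hx]
        exact hZ.2 ⟨v, hv, rfl⟩
      · exact hZ.2 ⟨y, hy.1, rfl⟩

end Pool.Agent.H341.FM.O
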