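import Pool.Agent.H341.FM.OStm

/-!
IND: convex subsets induce mediangle graphs (subtask of helper341, proved by helper349).
-/

set_option autoImplicit false

namespace Pool.Agent.H341.FM.O

open Pool.Agent.H341.MA Pool.Agent.H341.FM

universe u v

section OInd

variable {V : Type u} {X : SimpleGraph V} {C : Set V}

private theorem oInd_geod (hX : X.Connected) {x y : V} {n : ℕ}
    (h : X.dist x y = n + 1) : ∃ w, X.Adj w y ∧ X.dist x w = n := by
  rw [SimpleGraph.dist_comm] at h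
  obtain ⟨p, hp⟩ := hX.exists_walk_length_eq_dist y x
  cases p with
  | nil =>
    rw [SimpleGraph.Walk.length_nil] at hp
    omega
  | @cons _ w _ hadj q =>
    rw [SimpleGraph.Walk.length_cons] at hp
    refine ⟨w, hadj.symm, ?_⟩
    have h1 : X.dist w x ≤ q.length := SimpleGraph.dist_le q
    have h2 : X.dist y x ≤ X.dist y w + X.dist w x := hX.dist_triangle
    have h3 : X.dist y w = 1 := SimpleGraph.dist_eq_one_iff_adj.mpr hadj
    rw [SimpleGraph.dist_comm]
    omega

private theorem oInd_walk (hX : X.Connected) (hC : ∀ u ∈ C, ∀ v ∈ C, Itv X u v ⊆ C) (n : ℕ) :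
    ∀ u v : C, X.dist (u : V) v = n → ∃ p : (X.induce C).Walk u v, p.length = n := by
  induction n with
  | zero =>
    intro u v huv
    have h : (u : V) = v := (hX.dist_eq_zero_iff).1 huv
    obtain rfl : u = v := Subtype.ext h
    exact ⟨SimpleGraph.Walk.nil, rfl⟩
  | succ n ih =>
    intro u v huv
    obtain ⟨w, hw1, hw2⟩ := oInd_geod hX huv
    have h3 : X.dist w (v : V) = 1 := SimpleGraph.dist_eq_one_iff_adj.mpr hw1
    have hwC : w ∈ C := by
      apply hC u u.2 v v.2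
      show X.dist (u : V) v = X.dist (u : V) w + X.dist w v
      omega
    obtain ⟨p, hp⟩ := ih u ⟨w, hwC⟩ hw2
    have hadj : (X.induce C).Adj ⟨w, hwC⟩ v := by
      rw [SimpleGraph.induce_adj]
      exact hw1
    refine ⟨p.concat hadj, ?_⟩
    rw [SimpleGraph.Walk.length_concat, hp]

private theorem oInd_conn (hX : X.Connected) (hne : C.Nonempty)
    (hC : ∀ u ∈ C, ∀ v ∈ C, Itv X u v ⊆ C) : (X.induce C).Connected := by
  haveI : Nonempty C := hne.to_subtype
  refine SimpleGraph.Connected.mk fun u v => ?_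
  obtain ⟨p, _⟩ := oInd_walk hX hC _ u v rfl
  exact p.reachable

private theorem oInd_dist (hX : X.Connected) (hne : C.Nonempty)
    (hC : ∀ u ∈ C, ∀ v ∈ C, Itv X u v ⊆ C) (u v : C) :
    (X.induce C).dist u v = X.dist (u : V) v := by
  apply le_antisymm
  · obtain ⟨p, hp⟩ := oInd_walk hX hC _ u v rfl
    rw [← hp]
    exact SimpleGraph.dist_le p
  · obtain ⟨p, hp⟩ := (oInd_conn hX hne hC).exists_walk_length_eq_dist u v
    rw [← hp]
    have h1 := SimpleGraph.dist_le (p.map (SimpleGraph.Embedding.induce C).toHom)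
    rw [SimpleGraph.Walk.length_map] at h1
    exact h1

private theorem oInd_itv (hX : X.Connected) (hne : C.Nonempty)
    (hC : ∀ u ∈ C, ∀ v ∈ C, Itv X u v ⊆ C) (u v w : C) :
    w ∈ Itv (X.induce C) u v ↔ (w : V) ∈ Itv X (u : V) v := by
  show (X.induce C).dist u v = (X.induce C).dist u w + (X.induce C).dist w v ↔
    X.dist (u : V) v = X.dist (u : V) w + X.dist (w : V) v
  rw [oInd_dist hX hne hC, oInd_dist hX hne hC, oInd_dist hX hne hC]

private theorem oInd_up (hX : X.Connected) (hne : C.Nonempty)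
    (hC : ∀ u ∈ C, ∀ v ∈ C, Itv X u v ⊆ C) {l : ℕ} {c : ℤ → C}
    (h : EvenConvexCycle (X.induce C) l c) : EvenConvexCycle X l (fun i => (c i : V)) := by
  refine ⟨h.two_le, fun i j => ?_, fun i => ?_, fun i j hij => ?_, fun i j x hx => ?_⟩
  · rw [← h.eq_iff, Subtype.ext_iff]
  · have := h.adj i
    rw [SimpleGraph.induce_adj] at this
    exact this
  · apply h.induced
    rw [SimpleGraph.induce_adj]
    exact hij
  · have hxC : x ∈ C := hC _ (c i).2 _ (c j).2 hx
    obtain ⟨k, hk⟩ := h.convex i j ((oInd_itv hX hne hC (c i) (c j) ⟨x, hxC⟩).2 hx)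
    exact ⟨k, by show (c k : V) = x; rw [hk]⟩

private theorem oInd_sym {a b a' b' : C} (h : s((a : V), (b : V)) = s((a' : V), (b' : V))) :
    s(a, b) = s(a', b') := by
  rw [Sym2.eq_iff] at h ⊢
  rcases h with ⟨h1, h2⟩ | ⟨h1, h2⟩
  · exact Or.inl ⟨Subtype.ext h1, Subtype.ext h2⟩
  · exact Or.inr ⟨Subtype.ext h1, Subtype.ext h2⟩

private theorem oInd_sym' {a b a' b' : C} (h : s(a, b) = s(a', b')) :
    s((a : V), (b : V)) = s((a' : V), (b' : V)) := by
  rw [Sym2.eq_iff] at h ⊢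
  rcases h with ⟨h1, h2⟩ | ⟨h1, h2⟩
  · exact Or.inl ⟨congrArg _ h1, congrArg _ h2⟩
  · exact Or.inr ⟨congrArg _ h1, congrArg _ h2⟩

end OInd

/-- **O_IND**. -/
theorem o_ind (h1 : S_E1.{u}) (h2 : S_E2.{u}) (h3 : S_E3.{u}) : O_IND.{u} := by
  have _ := h1
  have _ := h3
  intro V X hM C hne hC
  have hX := hM.connected
  have hd := oInd_dist hX hne hC
  have hi := oInd_itv hX hne hC
  refine ⟨⟨oInd_conn hX hne hC, ?_, ?_, ?_, ?_⟩, hd⟩
  · intro o x y hxy hadj
    rw [hd, hd] at hxy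
    rw [SimpleGraph.induce_adj] at hadj
    obtain ⟨z, hz1, hz2, hz3, hz4⟩ := hM.triangle o x y hxy hadj
    have hzC : z ∈ C := hC _ o.2 _ x.2 hz3
    exact ⟨⟨z, hzC⟩, by rw [SimpleGraph.induce_adj]; exact hz1,
      by rw [SimpleGraph.induce_adj]; exact hz2, (hi _ _ _).2 hz3, (hi _ _ _).2 hz4⟩
  · intro x y z w hxy hxz hyz hxw hyw hzw
    rw [SimpleGraph.induce_adj] at *
    exact hM.no_k4minus x y z w hxy hxz hyz hxw hyw (fun h => hzw (Subtype.ext h))
  · intro o x y z hxy hzx hzy hox hoy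
    rw [SimpleGraph.induce_adj] at hzx hzy
    rw [hd, hd] at hox hoy
    obtain ⟨l, c, hc, hc0, hc1, hcm, hcx, hcy⟩ := hM.cycle o x y z
      (fun h => hxy (Subtype.ext h)) hzx hzy hox hoy
    have hr : ∀ i, c i ∈ C := by
      intro i
      have h5 := h2 V X hX l c hc 0
      rw [zero_add] at h5
      have h6 : c i ∈ Itv X (c 0) (c l) := by
        rw [h5]
        exact ⟨i, rfl⟩
      exact hC _ (by rw [hc0]; exact z.2) _ (hC _ o.2 _ x.2 hcx) h6
    refine ⟨l, fun i => ⟨c i, hr i⟩, ⟨hc.two_le, fun i j => ?_, fun i => ?_, fun i j hij => ?_,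
      fun i j w hw => ?_⟩, Subtype.ext hc0, Subtype.ext hc1, Subtype.ext hcm,
      (hi _ _ _).2 hcx, (hi _ _ _).2 hcy⟩
    · rw [← hc.eq_iff, Subtype.ext_iff]
    · rw [SimpleGraph.induce_adj]
      exact hc.adj i
    · rw [SimpleGraph.induce_adj] at hij
      exact hc.induced i j hij
    · obtain ⟨k, hk⟩ := hc.convex i j ((hi _ _ _).1 hw)
      exact ⟨k, Subtype.ext hk⟩
  · intro l l' c c' hc hc' i j i' j' he1 he2 hne'
    have h7 := hM.share l l' _ _ (oInd_up hX hne hC hc) (oInd_up hX hne hC hc') i j i' j'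
      (oInd_sym' he1) (oInd_sym' he2) (fun h => hne' (oInd_sym h))
    ext w
    constructor
    · rintro ⟨k, rfl⟩
      have h8 : (c k : V) ∈ Set.range (fun i => (c' i : V)) := by
        rw [← h7]
        exact ⟨k, rfl⟩
      obtain ⟨k', hk'⟩ := h8
      exact ⟨k', Subtype.ext hk'⟩
    · rintro ⟨k, rfl⟩
      have h8 : (c' k : V) ∈ Set.range (fun i => (c i : V)) := by
        rw [h7]
        exact ⟨k, rfl⟩
      obtain ⟨k', hk'⟩ := h8
      exact ⟨k', Subtype.ext hk'⟩

end Pool.Agent.H341.FM.O
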