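import Pool.Agent.H341.FM.Stm
import Pool.Agent.H341.MA.St3

/-!
# Fixed monoliths for groups in Oliver's class: statements (proofs: see the doc comments)

Chain complexes of finite posets with coefficients in a ring `R`, Smith theory, Lefschetz numbers.
-/

set_option autoImplicit false

namespace Pool.Agent.H341.FM.O

open Pool.Agent.H341.MA Pool.Agent.H341.FM

universe u v

/-- strictly increasing chains of length `n` with entries in the set `S` -/
def Ch {Ω : Type u} [PartialOrder Ω] (S : Set Ω) (n : ℕ) : Type u :=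
  {τ : Fin n → Ω // StrictMono τ ∧ ∀ i, τ i ∈ S}

/-- omit the entry number `i` -/
def face {Ω : Type u} [PartialOrder Ω] {S : Set Ω} {n : ℕ} (τ : Ch S (n + 1)) (i : Fin (n + 1)) : Ch S n :=
  ⟨fun j => τ.1 (i.succAbove j), τ.2.1.comp (Fin.strictMono_succAbove i), fun _ => τ.2.2 _⟩

/-- the boundary operator with coefficients in `R` (`n = 0` is the augmentation) -/
noncomputable def dl (R : Type) [CommRing R] {Ω : Type u} [PartialOrder Ω] (S : Set Ω) (n : ℕ) :
    (Ch S (n + 1) →₀ R) →ₗ[R] (Ch S n →₀ R) :=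
  Finsupp.linearCombination R fun τ =>
    ∑ i : Fin (n + 1), (-1 : R) ^ (i : ℕ) • Finsupp.single (face τ i) (1 : R)

/-- the augmented chain complex of `S` with coefficients in `R` is exact -/
def Ex (R : Type) [CommRing R] {Ω : Type u} [PartialOrder Ω] (S : Set Ω) : Prop :=
  (∀ c : Ch S 0 →₀ R, ∃ b, dl R S 0 b = c) ∧
  ∀ (n : ℕ) (c : Ch S (n + 1) →₀ R), dl R S n c = 0 → ∃ b, dl R S (n + 1) b = c

theorem ch_finite {Ω : Type u} [PartialOrder Ω] [Finite Ω] (S : Set Ω) (n : ℕ) : Finite (Ch S n) :=
  inferInstanceAs (Finite {τ : Fin n → Ω // StrictMono τ ∧ ∀ i, τ i ∈ S})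

/-- **O_DD**. Boundary of boundary is zero (see `s_bb` in `MA/BB.lean` for the same computation over `ℤ` with all tuples). -/
def O_DD : Prop := ∀ (Ω : Type u) [PartialOrder Ω] (R : Type) [CommRing R] (S : Set Ω) (n : ℕ)
  (c : Ch S (n + 2) →₀ R), dl R S n (dl R S (n + 1) c) = 0

/-- **O_TOZ**. Translation of `Acyclic` (all tuples, supports) to `Ex ℤ univ`: extend a finitely supported function on the subtype of chains by zero to
all tuples (`Finsupp.embDomain` or `mapDomain` along the injection), restrict back with `Finsupp.comapDomain`; both are compatible with the boundaries. -/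
def O_TOZ : Prop := ∀ (Ω : Type u) [PartialOrder Ω],
  Acyclic (fun n => {τ : Fin n → Ω | StrictMono τ}) → Ex ℤ (Set.univ : Set Ω)

/-- **O_MODP** (take O_DD as hypothesis). Lift the chain `c` mod `p` to an integral chain `c'`; `d c' = p e`; `p (d e) = d d c' = 0`, so `d e = 0`, `e = d f`,
`d (c' - p f) = 0`, `c' - p f = d h`, so `c = d h` mod `p`. (Reduction mod `p` is `Finsupp.mapRange`, it commutes with `dl`.) For surjectivity of `dl 0` lift and reduce. -/
def O_MODP : Prop := ∀ (Ω : Type u) [PartialOrder Ω] (p : ℕ), p.Prime → ∀ S : Set Ω, Ex ℤ S → Ex (ZMod p) S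

/-- **O_RAT** (take O_DD as hypothesis). `Ω` finite. Let `c` be a rational chain, `d c = 0`. Multiply by a denominator: `c` integral. Let `Z` be the group of the integral
cycles in degree `n+1`, `B` the group of the boundaries of integral chains. `Z = B + p Z`: for `z ∈ Z`, `z` mod `p` is a boundary, so `z = d h + p z'` with `d z' = 0`. `Z` is finitely generated (a
subgroup of a finitely generated free group; `Z / B` is), so by Nakayama (`Submodule.exists_sub_one_mem_and_smul_eq_zero_of_fg_of_le_smul` for `Z/B`, or argue with the finitely generated group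
`Z/B` which equals `p (Z/B)`, so it is finite) some `m ≠ 0` has `m Z ⊆ B`. So `c = d (h/m)`. In degree `0` (`Ch S 0` has one element): `p ∤` some value of the integral `dl 0` since it is onto mod `p`, so it is nonzero and the rational `dl 0` is onto. -/
def O_RAT : Prop := ∀ (Ω : Type u) [PartialOrder Ω] [Finite Ω] (p : ℕ), p.Prime → ∀ S : Set Ω, Ex (ZMod p) S → Ex ℚ S

/-- **O_SMITH** (take O_DD as hypothesis). Smith theory for an automorphism `g` of order `p` of the poset `S`.

Proof. `g` acts on the chains of `S`, `g ^ p = 1`, on the chain groups `C n = Ch S n →₀ ZMod p` by a linear map `g` commuting with `d`. Let `T = 1 - g`, `N = 1 + g + ... + g ^ (p-1)`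
on `C n`; `N T = T N = 0`. `F n` = chains supported on the `g`-fixed chains (a tuple is fixed iff all its entries are fixed), which is `Ch {a ∈ S | g a = a} n →₀ ZMod p`; `d` maps `F (n+1)` to `F n`.
(1) `ker T = F + N C`, `ker N = F + T C` and `F ∩ N C = 0 = F ∩ T C` in every degree [split `c = f + a`, `f` = the part on the fixed chains, `a` = the part on the orbits of length `p`; if `T c = 0` then
`a` is constant on orbits: `a = N b`, `b` = `a` on one representative of each orbit; if `N c = 0` the sum of `a` on each orbit is `0`: `a = T b` with `b (g^k r) = a(r) + a (g r) + ... + a (g^k r)`, `0 ≤ k < p`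
(or dimension count). Elements of `N C`, `T C` vanish on the fixed chains, `N` being multiplication by `p = 0` there.]
(2) Claim for all `n`, for `(A, B) = (N, T)` and for `(T, N)`: if `a ∈ A C n`, `f ∈ F n` and `d (a + f) = 0` [no condition if `n = 0`] then `a ∈ d (A C (n+1))` and `f ∈ d (F (n+1))`. Descending induction on `n`: for
`n > card Ω` all is zero. Step: `B (a + f) = 0`. By exactness `a + f = d c`. `B c ∈ B C (n+1)` and `d (B c) = B (d c) = 0`, so by the claim for `n+1` (for the pair `(B, A)`, `f = 0`) `B c = d (B e)`.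
`c' = c - d e` has `B c' = 0` and `d c' = a + f`. By (1) `c' = f' + a'`, `f' ∈ F`, `a' ∈ A C (n+1)`; `d f' ∈ F`, `d a' ∈ A C n`, and by directness `d a' = a`, `d f' = f`.
The claim with `a = 0` gives the theorem. -/
def O_SMITH : Prop := ∀ (Ω : Type u) [PartialOrder Ω] [Finite Ω] (p : ℕ), p.Prime → ∀ (S : Set Ω) (g : Equiv.Perm Ω),
  (∀ a b, a < b → g a < g b) → (∀ a ∈ S, g a ∈ S) → (∀ a ∈ S, (g ^ p) a = a) →
  Ex (ZMod p) S → Ex (ZMod p) {a : Ω | a ∈ S ∧ g a = a}

/-- **O_PGRP** (take O_SMITH as hypothesis). For a finite `p`-group `P` of automorphisms.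

Proof. Strong induction on the order of the subgroup `P`. `P = 1`: trivial. Otherwise `P` has a normal subgroup `Q` of index `p` (a maximal subgroup). `S = Fix Q` has exact chain complex by induction; for `g ∈ P`, `g ∉ Q`:
`g` maps `S` to itself (normality), `g ^ p ∈ Q` fixes `S` pointwise, and `Fix P = {a ∈ S | g a = a}` since `Q` and `g` generate `P`. Use O_SMITH. -/
def O_PGRP : Prop := ∀ (Ω : Type u) [PartialOrder Ω] [Finite Ω] (p : ℕ), p.Prime → ∀ P : Subgroup (Equiv.Perm Ω),
  (∀ g ∈ P, ∀ a b : Ω, a < b → g a < g b) → IsPGroup p P →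
  Ex (ZMod p) (Set.univ : Set Ω) → Ex (ZMod p) {a : Ω | ∀ g ∈ P, g a = a}

/-- **O_LEFALG**. The alternating sum of the traces of an endomorphism of a bounded exact complex of finite dimensional vector spaces is zero.

Proof. For each `n` choose `s n : W n → W (n+1)` linear with `d n ∘ s n ∘ d n = d n`. Let `h 0 = s 0`, `h (n+1) = s (n+1) ∘ (1 - s n ∘ d n)`. Then `d 0 ∘ h 0 = 1`, `d (n+1) ∘ h (n+1) + h n ∘ d n = 1` on `W (n+1)`
[`x - s (d x)` is a cycle, so a boundary, and `d s` is the identity on boundaries; `h n (d n x) = s n (d n x)`]. So `tr (φ 0) = tr (φ 0 d h) = tr (h φ d) = ...`: with `t n = tr (φ (n+1) ∘ h n ∘ d n)` on `W (n+1)`, which equals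
`tr (d n ∘ φ (n+1) ∘ h n) = tr (φ n ∘ d n ∘ h n)` on `W n` (`LinearMap.trace_comp_comm'`): `tr (φ 0) = t 0`, `tr (φ (n+1)) = t (n+1) + t n`, `t n = 0` for `n + 1 ≥ N`; the alternating sum telescopes. -/
def O_LEFALG : Prop := ∀ (W : ℕ → Type u) [∀ n, AddCommGroup (W n)] [∀ n, Module ℚ (W n)] [∀ n, FiniteDimensional ℚ (W n)]
  (d : ∀ n, W (n + 1) →ₗ[ℚ] W n) (φ : ∀ n, W n →ₗ[ℚ] W n) (N : ℕ), (∀ n, N ≤ n → Subsingleton (W n)) →
  Function.Surjective (d 0) → (∀ n (c : W (n + 1)), d n c = 0 ↔ ∃ b, d (n + 1) b = c) →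
  (∀ n (c : W (n + 1)), φ n (d n c) = d n (φ (n + 1) c)) →
  ∑ n ∈ Finset.range N, (-1 : ℚ) ^ n * LinearMap.trace ℚ (W n) (φ n) = 0

/-- **O_LEF** (take O_DD, O_LEFALG as hypotheses). Lefschetz: the Euler characteristic of the fixed poset is `1`.

Proof. `W n = Ch S n →₀ ℚ`, `φ n` = the linear map induced by the permutation `τ ↦ g ∘ τ` of `Ch S n` (`Finsupp.lmapDomain` or `Finsupp.domLCongr`); its trace is the number of the fixed chains (basis `Finsupp.basisSingleOne`), which are the
elements of `Ch {a ∈ S | g a = a} n`. `Ch S n` is empty for `n > card Ω`; take `N = card Ω + 2`. Use O_LEFALG. -/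
def O_LEF : Prop := ∀ (Ω : Type u) [PartialOrder Ω] [Finite Ω] (S : Set Ω) (g : Equiv.Perm Ω),
  (∀ a b, a < b → g a < g b) → (∀ a ∈ S, g a ∈ S) → Ex ℚ S →
  ∑ n ∈ Finset.range (Nat.card Ω + 2), (-1 : ℤ) ^ n * (Nat.card (Ch {a : Ω | a ∈ S ∧ g a = a} n) : ℤ) = 0

/-- **O_QGRP**. A `q`-group acting on a finite poset of Euler characteristic `1` has a fixed point.

Proof. `K` acts on the finite set `Ch S n` by `τ ↦ g ∘ τ`, and the image of `K` in the permutations of `Ch S n` is a `q`-group, so `card (Ch S n)` is congruent mod `q` to the number of the chains fixed by `K`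
(`IsPGroup.card_modEq_card_fixedPoints` for the image of `K`). If no element of `S` is fixed by `K`, this number is `1` for `n = 0` and `0` for `n > 0`, and `0 = sum ≡ 1` mod `q`, a contradiction. -/
def O_QGRP : Prop := ∀ (Ω : Type u) [PartialOrder Ω] [Finite Ω] (q : ℕ), q.Prime → ∀ (S : Set Ω) (K : Subgroup (Equiv.Perm Ω)),
  (∀ g ∈ K, ∀ a b : Ω, a < b → g a < g b) → (∀ g ∈ K, ∀ a ∈ S, g a ∈ S) →
  (∀ g ∈ K, ∃ k : ℕ, ∀ a ∈ S, (g ^ q ^ k) a = a) →
  ∑ n ∈ Finset.range (Nat.card Ω + 2), (-1 : ℤ) ^ n * (Nat.card (Ch S n) : ℤ) = 0 →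
  ∃ a ∈ S, ∀ g ∈ K, g a = a

/-- **O_IND** (take S_E1, S_E2 as hypotheses if wanted). A convex subset of a mediangle graph induces a mediangle graph with the same distances.

Proof. Distances: a shortest path of `X` between vertices of `C` runs in intervals, so in `C`. Intervals of the induced graph are the traces of the intervals. The triangle and the cycle condition: the vertices found in `X` lie in intervals
between vertices of `C`; the even convex cycle through `z` and opposite vertex `p ∈ I(o,x)` is `I(z,p)` (`S_E2`) and so inside `C`; lift `c` to the subtype. Even convex cycles of the induced graph are even convex cycles of `X`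
(compose with `Subtype.val`; convexity: `I(c i, c j) ⊆ C`), which gives `share`. -/
def O_IND : Prop := ∀ (V : Type u) (X : SimpleGraph V), Mediangle X → ∀ C : Set V, C.Nonempty →
  (∀ u ∈ C, ∀ v ∈ C, Itv X u v ⊆ C) →
  Mediangle (X.induce C) ∧ ∀ u v : C, (X.induce C).dist u v = X.dist (u : V) v

/-- **O_HULL** (take O_IND, S_GP, S_GHG, S_STAR as hypotheses). `C` convex, `D` a cell of the induced graph on `C`: the gated hull of `D` in `X` is the gated hull of a vertex `v` and some of its lower neighbours with respect to a vertex `o`.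

Proof. Write `Y = X.induce C`. `D` is nonempty (gated) and finite. Let `o ∈ D`, `v ∈ D` with `Y.dist o v` maximal, `T` the set of `x ∈ D` with `Y.Adj v x`, `dist o x + 1 = dist o v`. (a) `D ⊆ GH Y ({v} ∪ T)` by S_STAR for `Y` (`E = GH Y ({v} ∪ T)` is gated by S_GHG):
a neighbour `x ∈ D` of `v` is in `T`, or `dist o x = dist o v` and then the triangle condition gives `z ∈ I(o,x)` (so `z ∈ D`, S_GP) adjacent to `x` and `v`, `z ∈ T`, and `x ∈ E` as gated sets are closed under triangles (S_GP).
(b) If `E` is gated in `X` and meets `C`, then `{x : C | ↑x ∈ E}` is gated in `Y` (the gate of `x ∈ C` in `E` lies in `I(x,e) ⊆ C` for `e ∈ E ∩ C`; distances agree). So `GH Y ({v} ∪ T)` is contained in the preimage of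
`GH X ({v} ∪ T')`, `T'` the image of `T`. So `GH X (image of D) = GH X ({v} ∪ T')`. -/
def O_HULL : Prop := ∀ (V : Type u) (X : SimpleGraph V), Mediangle X → ∀ C : Set V, C.Nonempty →
  (∀ u ∈ C, ∀ v ∈ C, Itv X u v ⊆ C) → ∀ D : Set C, Cell (X.induce C) D →
  ∃ (o v : V) (T : Set V), (∀ x ∈ T, X.Adj v x ∧ X.dist o x + 1 = X.dist o v) ∧
    GH X (Subtype.val '' D) = GH X ({v} ∪ T)

end Pool.Agent.H341.FM.O
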