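import Pool.Agent.H341.FM.PStm
import Pool.Agent.H341.FM.Asm

/-!
# Fixed monoliths for solvable groups: assembly
-/

set_option autoImplicit false

namespace Pool.Agent.H341.FM.P

open Pool.Agent.H341.MA Pool.Agent.H341.FM Pool.Agent.H341.FM.O

universe u v

theorem p_main (hb : S_BOX.{u}) (hham : S_HAM.{u}) (hgh : S_GHG.{u})
    (hmt : S_MT.{u}) (hsg : S_SG.{u}) (hsh : S_SH.{u}) (htr : S_TR.{u}) (hfin : S_FINC.{u, v})
    (hind : O_IND.{u}) (hhull : O_HULL.{u}) (hsolv : P_SOLV.{u})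
    (V : Type u) (X : SimpleGraph V) (G : Type v) [Group G]
    [MulAction G V] (hX : Mediangle X) (hG : ∀ (g : G) (x y : V), X.Adj x y → X.Adj (g • x) (g • y))
    (hGs : ∀ (N : Subgroup G) [N.Normal], Finite (G ⧸ N) → Group.IsSolvable (G ⧸ N)) (horb : ∃ x : V, (MulAction.orbit G x).Finite) :
    ∃ M : Set V, Monolith X M ∧ ∀ g : G, (g • ·) '' M = M := by
  classical
  obtain ⟨x₀, hx₀⟩ := horb
  obtain ⟨η, σ, co, hH⟩ := hham V X hX
  obtain ⟨C, hCf, hxC, hCI, hCG⟩ := hfin V X η σ co G hX.connected hH hG x₀ hx₀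
  have hCne : C.Nonempty := ⟨x₀, hxC⟩
  obtain ⟨hY, hYd⟩ := hind V X hX C hCne hCI
  have hCfin : Finite C := hCf
  -- the action on `C`
  let actC : MulAction G C :=
    { smul := fun g x => ⟨g • x.1, hCG g x.1 x.2⟩
      one_smul := fun x => Subtype.ext (one_smul G x.1)
      mul_smul := fun g h x => Subtype.ext (mul_smul g h x.1) }
  let ψ : G →* Equiv.Perm C := MulAction.toPermHom G C
  have hψ : ∀ (g : G) (x : C), ((ψ g x : C) : V) = g • (x : V) := fun _ _ => rfl
  have hsol : Group.IsSolvable ψ.range := by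
    have hfr : Finite ψ.range := inferInstance
    have hfq : Finite (G ⧸ ψ.ker) :=
      Finite.of_equiv ψ.range (QuotientGroup.quotientKerEquivRange ψ).symm.toEquiv
    have hs := hGs ψ.ker hfq
    exact Group.isSolvable_of_surjective (QuotientGroup.quotientKerEquivRange ψ).surjective
  obtain ⟨D, hDc, hD⟩ := hsolv C (X.induce C) hY ψ.range hsol
    (by
      rintro _ ⟨g, rfl⟩ x y hxy
      exact hG g x.1 y.1 hxy)
  -- the monolith
  obtain ⟨o, v, T, hT, hhul⟩ := hhull V X hX C hCne hCI D hDc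
  refine ⟨GH X (Subtype.val '' D), ?_, ?_⟩
  · rw [hhul]
    exact monolith_of hb hgh hmt hsg hsh htr V X η σ co hX hH o v T hT
  · intro g
    rw [← GH_smul hX.connected hG]
    congr 1
    have h1 : (g • ·) '' (Subtype.val '' D : Set V) = Subtype.val '' ((ψ g) '' D) := by
      rw [Set.image_image, Set.image_image]
      rfl
    rw [h1, hD (ψ g) ⟨g, rfl⟩]

end Pool.Agent.H341.FM.P
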