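import Pool.Agent.H341.FM.PStm

/-!
# P_CELL: a set parallel to a cell is a cell
-/

set_option autoImplicit false

namespace Pool.Agent.H341.FM.P

open Pool.Agent.H341.MA Pool.Agent.H341.FM

universe u v

/-- **P_CELL.** A set parallel to a cell is a cell. -/
theorem p_cell (hp : P_PRL.{u}) (hg : S_GP.{u}) : P_CELL.{u} := by
  intro V X hX o v hprl hcell
  have hconn := hX.connected
  obtain ⟨hog, hvg, -, him⟩ := id hprl
  obtain ⟨-, hpolg, hfin⟩ := hcell
  have key : ∀ x ∈ v, ∀ x' ∈ v, ∀ a a' : V, Gt X o x a → Gt X o x' a' →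
      X.dist x x' = X.dist a a' :=
    fun x hx x' hx' a a' h h' => (hp V X hconn o v hprl x hx x' hx' a a' h h').2.2
  have same : ∀ x ∈ v, ∀ x' ∈ v, ∀ a : V, Gt X o x a → Gt X o x' a → x = x' := by
    intro x hx x' hx' a h h'
    have h1 := key x hx x' hx' a a h h'
    rw [SimpleGraph.dist_self] at h1
    exact hconn.dist_eq_zero_iff.1 h1
  have gate : ∀ x : V, ∃ a, Gt X o x a := fun x => by
    obtain ⟨a, ha, h⟩ := hog x
    exact ⟨a, ha, h⟩
  choose γ hγ using gate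
  have back : ∀ a ∈ o, ∃ x ∈ v, Gt X o x a := by
    intro a ha
    rw [← him] at ha
    obtain ⟨x, hx, h⟩ := ha
    refine ⟨x, hx, ?_⟩
    exact h
  refine ⟨hvg, ?_, ?_⟩
  · intro x hx x1 hx1 x2 hx2 h1 h2 h12 hn
    have e1 := key x hx x1 hx1 _ _ (hγ x) (hγ x1)
    have e2 := key x hx x2 hx2 _ _ (hγ x) (hγ x2)
    have e12 := key x1 hx1 x2 hx2 _ _ (hγ x1) (hγ x2)
    obtain ⟨l, c, hc, c0, c1, cm1⟩ := hpolg (γ x) (hγ x).1 (γ x1) (hγ x1).1 (γ x2) (hγ x2).1
      (by rw [← SimpleGraph.dist_eq_one_iff_adj, ← e1]; exact SimpleGraph.dist_eq_one_iff_adj.2 h1)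
      (by rw [← SimpleGraph.dist_eq_one_iff_adj, ← e2]; exact SimpleGraph.dist_eq_one_iff_adj.2 h2)
      (fun h => h12 (hconn.dist_eq_zero_iff.1 (by rw [e12, h, SimpleGraph.dist_self])))
      (fun h => hn (by
        rw [← SimpleGraph.dist_eq_one_iff_adj, e12]; exact SimpleGraph.dist_eq_one_iff_adj.2 h))
    have hrange : Set.range c ⊆ o := (hg V X hconn o hog).2.2 l c hc
      (by rw [cm1]; exact (hγ x2).1) (by rw [c0]; exact (hγ x).1) (by rw [c1]; exact (hγ x1).1)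
    have hback : ∀ i : ℤ, ∃ z ∈ v, Gt X o z (c i) := fun i => back _ (hrange ⟨i, rfl⟩)
    choose c' hc'v hc'g using hback
    have hd : ∀ i j : ℤ, X.dist (c' i) (c' j) = X.dist (c i) (c j) := fun i j =>
      key _ (hc'v i) _ (hc'v j) _ _ (hc'g i) (hc'g j)
    refine ⟨l, c', ⟨hc.two_le, ?_, ?_, ?_, ?_⟩, ?_, ?_, ?_⟩
    · intro i j
      rw [← hc.eq_iff, ← hconn.dist_eq_zero_iff, hd, hconn.dist_eq_zero_iff]
    · intro i
      rw [← SimpleGraph.dist_eq_one_iff_adj, hd, SimpleGraph.dist_eq_one_iff_adj]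
      exact hc.adj i
    · intro i j h
      rw [← SimpleGraph.dist_eq_one_iff_adj, hd, SimpleGraph.dist_eq_one_iff_adj] at h
      exact hc.induced i j h
    · intro i j z hz
      have hzv : z ∈ v := (hg V X hconn v hvg).1 _ (hc'v i) _ (hc'v j) hz
      have hz' : X.dist (c' i) (c' j) = X.dist (c' i) z + X.dist z (c' j) := hz
      have hb : γ z ∈ Itv X (c i) (c j) := by
        change X.dist (c i) (c j) = X.dist (c i) (γ z) + X.dist (γ z) (c j)
        rw [← hd, hz', key _ (hc'v i) _ hzv _ _ (hc'g i) (hγ z),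
          key _ hzv _ (hc'v j) _ _ (hγ z) (hc'g j)]
      obtain ⟨k, hk⟩ := hc.convex i j hb
      refine ⟨k, ?_⟩
      exact same _ (hc'v k) _ hzv (c k) (hc'g k) (by rw [hk]; exact hγ z)
    · exact same _ (hc'v 0) _ hx (c 0) (hc'g 0) (by rw [c0]; exact hγ x)
    · exact same _ (hc'v 1) _ hx1 (c 1) (hc'g 1) (by rw [c1]; exact hγ x1)
    · exact same _ (hc'v (-1)) _ hx2 (c (-1)) (hc'g (-1)) (by rw [cm1]; exact hγ x2)
  · refine Set.Finite.of_injOn (f := γ) (t := o) ?_ ?_ hfin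
    · intro x _
      exact (hγ x).1
    · intro x hx x' hx' h
      exact same x hx x' hx' (γ x) (hγ x) (by rw [h]; exact hγ x')

end Pool.Agent.H341.FM.P
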