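import Pool.Agent.H341.FM.PStm
import Pool.Agent.H341.FM.Comb

/-!
# The counting argument (`P_COMB`)
-/

set_option autoImplicit false

namespace Pool.Agent.H341.FM.P

open Pool.Agent.H341.MA Pool.Agent.H341.FM Pool.Agent.H341.FM.O
open Finset MulAction

universe u v

section
variable {α : Type u} [Fintype α] [PartialOrder α]

open Classical in
/-- the sum over the smaller elements -/
noncomputable def pcZt (w : α → ℤ) (R : α) : ℤ := ∑ R' : α, if R' ≤ R then w R' else 0

open Classical in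
theorem pcZt_eq (w : α → ℤ) (R : α) :
    pcZt w R = w R + ∑ R' : α, if R' < R then w R' else 0 := by
  unfold pcZt
  have h : ∀ R' : α, (if R' ≤ R then w R' else 0) =
      (if R' = R then w R' else 0) + (if R' < R then w R' else 0) := by
    intro R'
    by_cases h1 : R' = R
    · subst h1
      simp
    · by_cases h2 : R' ≤ R
      · have h3 : R' < R := lt_of_le_of_ne h2 h1
        rw [if_pos h2, if_neg h1, if_pos h3, zero_add]
      · have h3 : ¬ R' < R := fun h => h2 h.le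
        rw [if_neg h2, if_neg h1, if_neg h3, zero_add]
  rw [sum_congr rfl fun R' _ => h R', sum_add_distrib, sum_ite_eq' univ R w, if_pos (mem_univ R)]

theorem pcEx (f : α → ℤ) : ∃ w : α → ℤ, ∀ R, pcZt w R = f R := by
  classical
  obtain ⟨w, hw⟩ : ∃ w : α → ℤ, ∀ R, w R = f R - ∑ R' : α, if R' < R then w R' else 0 := by
    refine ⟨(wellFounded_lt (α := α)).fix
      (fun R ih => f R - ∑ R' : α, if h : R' < R then ih R' h else 0), fun R => ?_⟩
    rw [WellFounded.fix_eq]
    congr 1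
  refine ⟨w, fun R => ?_⟩
  rw [pcZt_eq, hw R]
  ring

theorem pcUniq {w w' : α → ℤ} (h : ∀ R, pcZt w R = pcZt w' R) : w = w' := by
  classical
  funext R
  induction R using WellFoundedLT.induction with
  | ind R ih =>
    have h1 := h R
    rw [pcZt_eq, pcZt_eq] at h1
    have h2 : (∑ R' : α, if R' < R then w R' else 0) = ∑ R' : α, if R' < R then w' R' else 0 := by
      refine sum_congr rfl fun R' _ => ?_
      by_cases h3 : R' < R
      · rw [if_pos h3, if_pos h3, ih R' h3]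
      · rw [if_neg h3, if_neg h3]
    rw [h2] at h1
    exact add_right_cancel h1

theorem pcZt_sum {ι : Type u} (s : Finset ι) (w : ι → α → ℤ) (R : α) :
    pcZt (fun R => ∑ v ∈ s, w v R) R = ∑ v ∈ s, pcZt (w v) R := by
  classical
  unfold pcZt
  rw [sum_comm]
  refine sum_congr rfl fun R' _ => ?_
  by_cases h : R' ≤ R
  · simp only [if_pos h]
  · simp only [if_neg h, sum_const_zero]

end

section
variable {W : Type u} {𝒢 : Set (Set W)} [Fintype 𝒢]

open Classical in
/-- the support of the weights -/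
theorem pcSupp (hne : ∀ R ∈ 𝒢, R.Nonempty)
    (hint : ∀ R ∈ 𝒢, ∀ R' ∈ 𝒢, (R ∩ R').Nonempty → R ∩ R' ∈ 𝒢) {v D : Set W} (hv : v ∈ 𝒢)
    (hvD : v ⊆ D) (hD : D ∈ 𝒢) {w : 𝒢 → ℤ}
    (hw : ∀ R : 𝒢, pcZt w R = if v ⊆ (R : Set W) ∧ (R : Set W) ∩ D = v then 1 else 0) :
    ∀ R : 𝒢, ¬ (R : Set W) ⊆ D → w R = 0 := by
  intro R
  induction R using WellFoundedLT.induction with
  | ind R ih =>
    intro hR
    have h1 := hw R
    rw [pcZt_eq] at h1
    -- the terms which remain
    have h2 : (∑ R' : 𝒢, if R' < R then w R' else 0) =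
        ∑ R' : 𝒢, if (R' : Set W) ⊆ (R : Set W) ∩ D then w R' else 0 := by
      refine sum_congr rfl fun R' _ => ?_
      by_cases h3 : (R' : Set W) ⊆ (R : Set W) ∩ D
      · have h4 : R' < R := by
          refine lt_of_le_of_ne (fun x hx => (h3 hx).1) fun e => hR ?_
          rw [← e]
          exact fun x hx => (h3 hx).2
        rw [if_pos h3, if_pos h4]
      · rw [if_neg h3]
        by_cases h4 : R' < R
        · rw [if_pos h4]
          refine ih R' h4 fun h5 => h3 fun x hx => ⟨h4.le hx, h5 hx⟩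
        · rw [if_neg h4]
    rw [h2] at h1
    rcases Set.eq_empty_or_nonempty ((R : Set W) ∩ D) with h3 | h3
    · have h4 : (∑ R' : 𝒢, if (R' : Set W) ⊆ (R : Set W) ∩ D then w R' else 0) = 0 := by
        refine sum_eq_zero fun R' _ => ?_
        rw [if_neg]
        intro h5
        rw [h3] at h5
        obtain ⟨x, hx⟩ := hne R' R'.2
        exact h5 hx
      rw [h4, add_zero, if_neg] at h1
      · exact h1
      · rintro ⟨h5, -⟩
        obtain ⟨x, hx⟩ := hne v hv
        have h6 : x ∈ (R : Set W) ∩ D := ⟨h5 hx, hvD hx⟩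
        rw [h3] at h6
        exact h6
    · have h4 := hw ⟨(R : Set W) ∩ D, hint R R.2 D hD h3⟩
      have h5 : pcZt w ⟨(R : Set W) ∩ D, hint R R.2 D hD h3⟩ =
          ∑ R' : 𝒢, if (R' : Set W) ⊆ (R : Set W) ∩ D then w R' else 0 := by
        unfold pcZt
        exact sum_congr rfl fun R' _ => rfl
      rw [h5] at h4
      rw [h4] at h1
      have h6 : (v ⊆ (R : Set W) ∩ D ∧ (R : Set W) ∩ D ∩ D = v) ↔
          (v ⊆ (R : Set W) ∧ (R : Set W) ∩ D = v) := by
        rw [Set.inter_assoc, Set.inter_self]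
        exact ⟨fun h => ⟨fun x hx => (h.1 hx).1, h.2⟩, fun h => ⟨fun x hx => ⟨h.1 hx, hvD hx⟩, h.2⟩⟩
      have h7 : (if v ⊆ (R : Set W) ∩ D ∧ (R : Set W) ∩ D ∩ D = v then (1 : ℤ) else 0) =
          if v ⊆ (R : Set W) ∧ (R : Set W) ∩ D = v then 1 else 0 := by
        by_cases h8 : v ⊆ (R : Set W) ∧ (R : Set W) ∩ D = v
        · rw [if_pos h8, if_pos (h6.2 h8)]
        · rw [if_neg h8, if_neg fun h => h8 (h6.1 h)]
      have h8 : (w R + if v ⊆ (R : Set W) ∩ D ∧ (R : Set W) ∩ D ∩ D = v then (1 : ℤ) else 0) =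
          if v ⊆ (R : Set W) ∧ (R : Set W) ∩ D = v then 1 else 0 := h1
      rw [h7] at h8
      exact add_eq_right.1 h8

end

/-- the action on the family -/
@[reducible] def pcAct {W : Type u} (K : Subgroup (Equiv.Perm W)) (𝒢 : Set (Set W))
    (hK : ∀ g ∈ K, ∀ R ∈ 𝒢, g '' R ∈ 𝒢) : MulAction K 𝒢 where
  smul g R := ⟨(g : Equiv.Perm W) '' (R : Set W), hK g g.2 R R.2⟩
  one_smul R := Subtype.ext (by
    show ((1 : Equiv.Perm W) : W → W) '' (R : Set W) = R
    rw [Equiv.Perm.coe_one, Set.image_id])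
  mul_smul g h R := Subtype.ext (by
    show (((g : Equiv.Perm W) * (h : Equiv.Perm W) : Equiv.Perm W) : W → W) '' (R : Set W) =
      (g : Equiv.Perm W) '' ((h : Equiv.Perm W) '' (R : Set W))
    rw [Equiv.Perm.coe_mul, Set.image_comp])

theorem p_comb : P_COMB.{u} := by
  classical
  intro W _ K p hp 𝒢 huniv hne hint hK hpow 𝒱 E h𝒱 hex
  have : Fact p.Prime := ⟨hp⟩
  have : Fintype 𝒢 := Fintype.ofFinite _
  have : Fintype 𝒱 := Fintype.ofFinite _
  let act : MulAction K 𝒢 := pcAct K 𝒢 hK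
  have hsm : ∀ (g : K) (R : 𝒢), ((g • R : 𝒢) : Set W) = (g : Equiv.Perm W) '' (R : Set W) :=
    fun g R => rfl
  -- the weights
  obtain ⟨w, hw⟩ := pcEx (α := 𝒢) fun _ => 1
  have hinv : ∀ (g : K) (R : 𝒢), w (g • R) = w R := by
    intro g R
    have h1 : (fun R : 𝒢 => w (g • R)) = w := by
      refine pcUniq fun R => ?_
      rw [hw R, ← hw (g • R)]
      unfold pcZt
      rw [← Equiv.sum_comp (MulAction.toPerm g : Equiv.Perm 𝒢)
        (fun R' => if R' ≤ g • R then w R' else 0)]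
      refine sum_congr rfl fun R' _ => ?_
      rw [MulAction.toPerm_apply]
      have h2 : g • R' ≤ g • R ↔ R' ≤ R := by
        rw [← Subtype.coe_le_coe, ← Subtype.coe_le_coe, hsm, hsm]
        exact Set.image_subset_image_iff (Equiv.injective _)
      by_cases h3 : R' ≤ R
      · rw [if_pos h3, if_pos (h2.2 h3)]
      · rw [if_neg h3, if_neg fun h => h3 (h2.1 h)]
    exact congrFun h1 R
  have hsum : ∑ R : 𝒢, w R = 1 := by
    have h1 := hw ⟨Set.univ, huniv⟩
    unfold pcZt at h1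
    rw [← h1]
    refine sum_congr rfl fun R _ => ?_
    rw [if_pos]
    exact Set.subset_univ _
  -- the group
  have hG : IsPGroup p (MulAction.toPermHom K 𝒢).range := by
    rintro ⟨_, g, rfl⟩
    obtain ⟨k, hk⟩ := hpow g g.2
    refine ⟨k, Subtype.ext ?_⟩
    show (MulAction.toPermHom K 𝒢 g) ^ p ^ k = 1
    rw [← map_pow]
    refine Equiv.ext fun R => ?_
    rw [MulAction.toPermHom_apply, MulAction.toPerm_apply, Equiv.Perm.coe_one, id]
    refine Subtype.ext ?_
    rw [hsm]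
    exact hk R R.2
  obtain ⟨R, hR, hwR⟩ : ∃ R : 𝒢, (∀ g : K, g • R = R) ∧ w R ≠ 0 := by
    by_contra hc
    push Not at hc
    have h1 := comb_pgroup hG (α := 𝒢) w
      (by
        rintro ⟨_, g, rfl⟩ R
        exact hinv g R)
      (by
        intro R hR
        exact hc R fun g => hR ⟨_, g, rfl⟩)
    rw [hsum] at h1
    have h2 : p ∣ 1 := by exact_mod_cast h1
    exact hp.one_lt.ne' (Nat.dvd_one.1 h2)
  -- the decomposition of the weights
  have hwv : ∀ v : Set W, ∃ w' : 𝒢 → ℤ, ∀ R : 𝒢,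
      pcZt w' R = if v ⊆ (R : Set W) ∧ (R : Set W) ∩ E v = v then 1 else 0 := fun v => pcEx _
  choose wv hwv using hwv
  have hdec : w = fun R => ∑ v ∈ (Set.toFinite 𝒱).toFinset, wv v R := by
    refine pcUniq fun R => ?_
    rw [hw R, pcZt_sum, sum_congr rfl fun v _ => hwv v R]
    obtain ⟨v₀, ⟨h1, h2⟩, h3⟩ := hex R R.2
    rw [sum_eq_single v₀]
    · rw [if_pos h2]
    · intro v hv hne'
      rw [if_neg]
      intro h
      exact hne' (h3 v ⟨(Set.toFinite 𝒱).mem_toFinset.1 hv, h⟩)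
    · intro h
      exact absurd ((Set.toFinite 𝒱).mem_toFinset.2 h1) h
  rw [hdec] at hwR
  obtain ⟨v, hv, hvR⟩ := exists_ne_zero_of_sum_ne_zero hwR
  rw [Set.Finite.mem_toFinset] at hv
  refine ⟨R, R.2, fun g hg => ?_, v, hv, ?_⟩
  · exact congrArg Subtype.val (hR ⟨g, hg⟩)
  · by_contra hc
    obtain ⟨h1, h2, h3⟩ := h𝒱 v hv
    exact hvR (pcSupp hne hint h1 h2 h3 (hwv v) R hc)

end Pool.Agent.H341.FM.P
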