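import Pool.Agent.H341.FM.PStm

/-!
# The cell of a parallel pair
-/

set_option autoImplicit false

namespace Pool.Agent.H341.FM.P

open Pool.Agent.H341.MA Pool.Agent.H341.FM

universe u v

theorem PE_uniq {V : Type u} {X : SimpleGraph V} (hX : X.Connected) {R : Set V} {a y y' : V} (h : Gt X R a y)
    (h' : Gt X R a y') : y = y' := by
  have h1 := h.2 y' h'.1
  have h2 := h'.2 y h.1
  have h3 : X.dist y y' = 0 := by omega
  exact (hX.dist_eq_zero_iff).1 h3

theorem PE_mono {V : Type u} {X : SimpleGraph V} {R v : Set V} {a y : V} (h : Gt X R a y) (hv : v ⊆ R)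
    (hy : y ∈ v) : Gt X v a y := ⟨hy, fun y' hy' => h.2 y' (hv hy')⟩

theorem PE_symm {V : Type u} {X : SimpleGraph V} {o v : Set V} (h : Prl X o v) : Prl X v o :=
  ⟨h.2.1, h.1, h.2.2.2, h.2.2.1⟩

theorem p_e (hp : P_PRL.{u}) (hev : P_EV.{u}) (hsub : P_SUB.{u}) (hh : S_HAM.{u}) (hb : S_BOX.{u}) (hg : S_GP.{u})
    (hgh : S_GHG.{u}) : P_E.{u} := by
  intro V _ X hM o v hpr hcv
  have hX := hM.connected
  obtain ⟨η, σ, co, hco⟩ := hh V X hM
  obtain ⟨B1, B2, B3, B4, B5⟩ := hb V X η σ co hX hco
  have hpr' := PE_symm hpr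
  obtain ⟨hgo, hgv, hio, hiv⟩ := hpr
  have hne : Nonempty V := hX.nonempty
  obtain ⟨b, hbo, -⟩ := hgo (Classical.arbitrary V)
  obtain ⟨z, hzv, hz⟩ := hgv b
  have hgz : Gt X v b z := ⟨hzv, hz⟩
  obtain ⟨x, hxv, hx⟩ := Set.exists_max_image v (fun x => X.dist z x) hcv.2.2 ⟨z, hzv⟩
  have hpr : Prl X o v := ⟨hgo, hgv, hio, hiv⟩
  have hE := hev V X hM o v hpr hcv b hbo z x hgz hxv hx
  obtain ⟨hS1, hS2⟩ := hsub V X η σ co hM hco b x
  rw [hE] at hS1 hS2
  refine ⟨hS1, ?_⟩
  intro R hgR hvR
  set E := GH X (v ∪ LowS X o v) with hEdef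
  have hsubE : v ∪ LowS X o v ⊆ E := by
    intro t ht
    rw [hEdef, GH, Set.mem_sInter]
    intro Y hY
    exact hY.2 ht
  obtain ⟨R1, R2, -⟩ := hg V X hX R hgR
  obtain ⟨E1, E2, -⟩ := hg V X hX E hS1.1
  obtain ⟨V1, V2, -⟩ := hg V X hX v hgv
  constructor
  · intro hRE
    have claim : ∀ x' ∈ v, ∀ a' : V, Gt X o x' a' → Gt X R a' x' := by
      intro x' hx' a' ha'
      obtain ⟨r, hr, hr2⟩ := hgR a'
      by_cases hrx : x' = r
      · rw [hrx]
        exact ⟨hr, hr2⟩
      · exfalso
        obtain ⟨y', hy1, hy2, hy3⟩ := B5 x' r hrx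
        have hyR : y' ∈ R := R1 x' (hvR hx') r hr hy2
        have h1 := hr2 x' (hvR hx')
        have h2 : X.dist y' a' ≤ X.dist y' r + X.dist r a' := hX.dist_triangle
        have h3 : X.dist x' a' ≤ X.dist x' y' + X.dist y' a' := hX.dist_triangle
        have h4 : X.dist x' y' = 1 := SimpleGraph.dist_eq_one_iff_adj.2 hy1
        have e1 : X.dist a' x' = X.dist x' a' := SimpleGraph.dist_comm
        have e2 : X.dist a' r = X.dist r a' := SimpleGraph.dist_comm
        have e3 : X.dist r x' = X.dist x' r := SimpleGraph.dist_comm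
        have h5 : X.dist y' a' + 1 = X.dist x' a' := by omega
        have hyE : y' ∈ E := hsubE (Or.inr ⟨x', hx', a', ha', hy1, h5⟩)
        have hyv : y' ∈ v := by
          rw [← hRE]
          exact ⟨hyR, hyE⟩
        obtain ⟨a2, ha2, ha3⟩ := hgo y'
        have h6 := (hp V X hX o v hpr x' hx' y' hyv a' a2 ha' ⟨ha2, ha3⟩).2.1
        have h7 := ha3 a' ha'.1
        omega
    apply Set.Subset.antisymm
    · rintro y ⟨a, hao, hay⟩
      have h1 : a ∈ Im X o v := by
        rw [hiv]
        exact hao
      obtain ⟨x', hx', hax'⟩ := h1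
      have h2 := claim x' hx' a hax'
      rw [PE_uniq hX hay h2]
      exact hx'
    · intro x' hx'
      obtain ⟨a', ha', ha2⟩ := hgo x'
      exact ⟨a', ha', claim x' hx' a' ⟨ha', ha2⟩⟩
  · intro hIm
    apply Set.Subset.antisymm
    · rintro f ⟨hfR, hfE⟩
      by_contra hfv
      obtain ⟨x', hx', hx2⟩ := hgv f
      have hne' : x' ≠ f := by
        rintro rfl
        exact hfv hx'
      obtain ⟨y, hy1, hy2, hy3⟩ := B5 x' f hne'
      have hx'E : x' ∈ E := hsubE (Or.inl hx')
      have hyR : y ∈ R := R1 x' (hvR hx') f hfR hy2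
      have hyE : y ∈ E := E1 x' hx'E f hfE hy2
      have hyv : y ∉ v := by
        intro h
        have h1 := hx2 y h
        have e1 : X.dist f y = X.dist y f := SimpleGraph.dist_comm
        have e2 : X.dist f x' = X.dist x' f := SimpleGraph.dist_comm
        omega
      obtain ⟨h, hh1, hh2⟩ := (B3 x' y).1 hy1
      -- the coordinate is constant on `v`
      have hconst : ∀ t ∈ v, co t h = co x' h := by
        intro t ht
        by_contra hc
        obtain ⟨w, hw1, hw2⟩ := hco.proj x' y t hy1 h hh1
        have hwbox : w ∈ Itv X x' t := by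
          rw [B2]
          intro h'
          by_cases he : h' = h
          · right
            rw [he, hw1]
          · left
            exact hw2 h' he
        have hwv : w ∈ v := V1 x' hx' t ht hwbox
        have hxw : X.Adj x' w := by
          rw [B3]
          exact ⟨h, by rw [hw1]; exact fun e => hc e.symm, fun h' he => (hw2 h' he).symm⟩
        by_cases hyw : co y h = co w h
        · have : y = w := B1 y w (fun h' => by
            by_cases he : h' = h
            · rw [he, hyw]
            · rw [← hh2 h' he, hw2 h' he])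
          exact hyv (this ▸ hwv)
        · have hyw' : X.Adj y w := by
            rw [B3]
            exact ⟨h, hyw, fun h' he => by rw [← hh2 h' he, hw2 h' he]⟩
          exact hyv (V2 x' hx' w hwv y hxw hy1.symm hyw')
      have hcx := hconst x hxv
      have hcz := hconst z hzv
      have hbx : co b h ≠ co x h := hS2 y hyE h (by
        rw [hcx]
        exact fun e => hh1 e.symm)
      -- the gate of `x'` in `o`
      obtain ⟨a, hao, ha2⟩ := hgo x'
      have hzb : Gt X o z b := (hp V X hX v o hpr' b hbo b hbo z z hgz hgz).1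
      have hbI : b ∈ Itv X z a := hzb.2 a hao
      rw [B2] at hbI
      have hab : co b h = co a h := by
        rcases hbI h with h1 | h1
        · exfalso
          apply hbx
          rw [h1, hcz, hcx]
        · exact h1
      have hax : co a h ≠ co x' h := by
        rw [← hab, ← hcx]
        exact hbx
      obtain ⟨w, hw1, hw2⟩ := hco.proj x' y a hy1 h hh1
      have hxw : X.Adj x' w := by
        rw [B3]
        exact ⟨h, by rw [hw1]; exact fun e => hax e.symm, fun h' he => (hw2 h' he).symm⟩
      have hwR : w ∈ R := by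
        by_cases hyw : co y h = co w h
        · have : y = w := B1 y w (fun h' => by
            by_cases he : h' = h
            · rw [he, hyw]
            · rw [← hh2 h' he, hw2 h' he])
          rw [← this]
          exact hyR
        · have hyw' : X.Adj w y := by
            rw [B3]
            exact ⟨h, fun e => hyw e.symm, fun h' he => by rw [← hh2 h' he, hw2 h' he]⟩
          exact R2 x' (hvR hx') y hyR w hy1 hxw.symm hyw'
      have hwI : w ∈ Itv X x' a := by
        rw [B2]
        intro h'
        by_cases he : h' = h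
        · right
          rw [he, hw1]
        · left
          exact hw2 h' he
      have hwI' : X.dist x' a = X.dist x' w + X.dist w a := hwI
      have h4 : X.dist x' w = 1 := SimpleGraph.dist_eq_one_iff_adj.2 hxw
      -- the gate of `a` in `R`
      obtain ⟨r, hr, hr2⟩ := hgR a
      have hrv : r ∈ v := by
        rw [← hIm]
        exact ⟨a, hao, hr, hr2⟩
      have hG1 : Gt X v a r := PE_mono ⟨hr, hr2⟩ hvR hrv
      have hG2 : Gt X v a x' := (hp V X hX o v hpr x' hx' x' hx' a a ⟨hao, ha2⟩ ⟨hao, ha2⟩).1
      have hrx : r = x' := PE_uniq hX hG1 hG2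
      subst hrx
      have h5 := hr2 w hwR
      have e1 : X.dist a w = X.dist w a := SimpleGraph.dist_comm
      have e2 : X.dist a r = X.dist r a := SimpleGraph.dist_comm
      omega
    · intro t ht
      exact ⟨hvR ht, hsubE (Or.inl ht)⟩

end Pool.Agent.H341.FM.P
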