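import Pool.Agent.H341.FM.PStm

/-!
# P_EV: the gated hull of `v` and `LowS o v` is the hull of one vertex and its lower neighbours
-/

set_option autoImplicit false

namespace Pool.Agent.H341.FM.P

open Pool.Agent.H341.MA Pool.Agent.H341.FM

universe u v

/-- distances to adjacent vertices differ by at most one -/
theorem PEv_adj {V : Type u} {X : SimpleGraph V} (hX : X.Connected) (b x y : V)
    (h : X.Adj x y) : X.dist b x ≤ X.dist b y + 1 := by
  have h1 : X.dist y x = 1 := SimpleGraph.dist_eq_one_iff_adj.2 h.symm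
  have h2 := hX.dist_triangle (u := b) (v := y) (w := x)
  omega

/-- uniqueness of gates -/
theorem PEv_uniq {V : Type u} {X : SimpleGraph V} (hX : X.Connected) (R : Set V) (b z r : V)
    (h1 : Gt X R b z) (h2 : Gt X R b r) : z = r := by
  have e1 := h1.2 r h2.1
  have e2 := h2.2 z h1.1
  have e3 : X.dist z r = 0 := by omega
  exact hX.dist_eq_zero_iff.1 e3

/-- the gate of `z` in `o` is `b` -/
theorem PEv_zb (hp : P_PRL.{u}) {V : Type u} {X : SimpleGraph V} (hX : X.Connected)
    {o v : Set V} (hP : Prl X o v) {b z : V} (hbo : b ∈ o) (hz : Gt X v b z) : Gt X o z b := by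
  have h1 : b ∈ Im X o v := by rw [hP.2.2.2]; exact hbo
  obtain ⟨r, hr, hrb⟩ := h1
  have h2 := (hp V X hX o v hP r hr r hr b b hrb hrb).1
  have h3 := PEv_uniq hX v b z r hz h2
  rw [h3]
  exact hrb

/-- (a) lower neighbours are in `v` or in `LowS` -/
theorem PEv_low (hp : P_PRL.{u}) (hg : S_GP.{u}) (hh : S_HAM.{u}) (hb : S_BOX.{u})
    {V : Type u} {X : SimpleGraph V} (hM : Mediangle X) {o v : Set V} (hP : Prl X o v) {b : V}
    (hbo : b ∈ o) {z x : V} (hz : Gt X v b z) (hx : x ∈ v) :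
    {y | X.Adj x y ∧ X.dist b y + 1 = X.dist b x} ⊆ v ∪ LowS X o v := by
  have hX := hM.connected
  obtain ⟨η, σ, co, hco⟩ := hh V X hM
  obtain ⟨-, hbox, hadj, -, -⟩ := hb V X η σ co hX hco
  have hzb := PEv_zb hp hX hP hbo hz
  rintro y ⟨hxy, hyd⟩
  obtain ⟨a, hao, ha⟩ := hP.1 x
  have hGa : Gt X o x a := ⟨hao, ha⟩
  obtain ⟨hGx, hd1, hd2⟩ := hp V X hX o v hP x hx z hz.1 a b hGa hzb
  obtain ⟨h, hne, heq⟩ := (hadj x y).1 hxy
  have hd3 : X.dist x y = 1 := SimpleGraph.dist_eq_one_iff_adj.2 hxy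
  -- y in the interval from b to x
  have hy1 : y ∈ Box co b x := by
    rw [← hbox]
    show X.dist b x = X.dist b y + X.dist y x
    rw [SimpleGraph.dist_comm (u := y) (v := x)]
    omega
  have hyh : co y h = co b h := by
    rcases hy1 h with h1 | h1
    · exact h1
    · exact absurd h1.symm hne
  have ha1 : a ∈ Box co b x := by
    rw [← hbox]
    show X.dist b x = X.dist b a + X.dist a x
    have := ha b hbo
    rw [SimpleGraph.dist_comm (u := b) (v := x), SimpleGraph.dist_comm (u := b) (v := a),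
      SimpleGraph.dist_comm (u := a) (v := x)]
    omega
  rcases ha1 h with h1 | h1
  · -- y is in LowS
    right
    refine ⟨x, hx, a, hGa, hxy, ?_⟩
    have hy2 : y ∈ Itv X x a := by
      rw [hbox]
      intro g
      by_cases hgh : g = h
      · right
        rw [hgh, hyh, h1]
      · left
        exact (heq g hgh).symm
    have hy3 : X.dist x a = X.dist x y + X.dist y a := hy2
    omega
  · left
    have hx2 : x ∈ v := hx
    have hb2 : b ∈ Box co z a := by
      rw [← hbox]
      show X.dist z a = X.dist z b + X.dist b a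
      exact hzb.2 a hao
    have hbx : co b h ≠ co x h := by
      rw [← hyh]
      exact fun e => hne e.symm
    have hbz : co b h = co z h := by
      rcases hb2 h with h2 | h2
      · exact h2
      · exact absurd (h2.trans h1) hbx
    have hy2 : y ∈ Itv X z x := by
      rw [hbox]
      intro g
      by_cases hgh : g = h
      · left
        rw [hgh, hyh, hbz]
      · right
        exact (heq g hgh).symm
    exact (hg V X hX v hP.2.1).1 z hz.1 x hx hy2

/-- (b) `v` is contained in every gated set containing `x` and its lower neighbours -/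
theorem PEv_v (hg : S_GP.{u}) (hs : S_STAR.{u})
    {V : Type u} {X : SimpleGraph V} (hM : Mediangle X) {v : Set V} (hC : Cell X v) {b : V}
    {z x : V} (hz : Gt X v b z) (hx : x ∈ v) (hmax : ∀ x' ∈ v, X.dist z x' ≤ X.dist z x)
    {E : Set V} (hE : Gated X E) (hxE : x ∈ E)
    (hL : {y | X.Adj x y ∧ X.dist b y + 1 = X.dist b x} ⊆ E) : v ⊆ E := by
  have hX := hM.connected
  refine hs V X hM v E hC.1 hC.2.1 hE x hx hxE ?_
  intro x' hx' hadj
  have h1 := hmax x' hx'
  have h2 := PEv_adj hX z x x' hadj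
  have h3 := hz.2 x hx
  have h4 := hz.2 x' hx'
  rcases Nat.lt_or_ge (X.dist z x') (X.dist z x) with h5 | h5
  · exact hL ⟨hadj, by omega⟩
  · have h6 : X.dist z x = X.dist z x' := by omega
    obtain ⟨w, hwx, hwx', hw1, hw2⟩ := hM.triangle z x x' h6 hadj
    have hwv : w ∈ v := (hg V X hX v hC.1).1 z hz.1 x hx hw1
    have h7 := hz.2 w hwv
    have h8 : X.dist z x = X.dist z w + X.dist w x := hw1
    have h9 : X.dist w x = 1 := SimpleGraph.dist_eq_one_iff_adj.2 hwx
    have hwE : w ∈ E := hL ⟨hwx.symm, by omega⟩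
    exact (hg V X hX E hE).2.1 x hxE w hwE x' hwx.symm hadj.symm hwx'.symm

/-- the step in (c) -/
theorem PEv_step (hp : P_PRL.{u}) (hg : S_GP.{u}) (h1 : S_E1.{u}) (h3 : S_E3.{u})
    {V : Type u} {X : SimpleGraph V} (hM : Mediangle X) {o v : Set V} (hP : Prl X o v)
    {E : Set V} (hE : Gated X E) (hvE : v ⊆ E) {x' x'' : V} (hx' : x' ∈ v) (hx'' : x'' ∈ v)
    (hadj : X.Adj x' x'')
    (hPx : ∀ a'', Gt X o x'' a'' → ∀ y, X.Adj x'' y → X.dist y a'' + 1 = X.dist x'' a'' → y ∈ E) :
    ∀ a', Gt X o x' a' → ∀ y, X.Adj x' y → X.dist y a' + 1 = X.dist x' a' → y ∈ E := by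
  intro a' ha' y' hy' hyd
  have hX := hM.connected
  obtain ⟨a'', ha''o, ha''g⟩ := hP.1 x''
  have ha'' : Gt X o x'' a'' := ⟨ha''o, ha''g⟩
  obtain ⟨-, e1, e2⟩ := hp V X hX o v hP x' hx' x'' hx'' a' a'' ha' ha''
  have e3 : X.dist x' x'' = 1 := SimpleGraph.dist_eq_one_iff_adj.2 hadj
  have e4 := ha'.2 a'' ha''o
  have e5 := ha''.2 a' ha'.1
  have e6 := hX.dist_triangle (u := y') (v := a') (w := a'')
  have e7 := PEv_adj hX a'' x' y' hy'
  have e8 : X.dist a'' x' = X.dist x' a'' := SimpleGraph.dist_comm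
  have e9 : X.dist a'' y' = X.dist y' a'' := SimpleGraph.dist_comm
  have e10 : X.dist a'' x'' = X.dist x'' a'' := SimpleGraph.dist_comm
  have e11 : X.dist a'' a' = X.dist a' a'' := SimpleGraph.dist_comm
  have hne : x'' ≠ y' := by
    intro he
    rw [← he] at hyd
    omega
  obtain ⟨l, c, hc, hc0, hc1, hcm, hcl, -⟩ :=
    hM.cycle a'' x'' y' x' hne hadj hy' (by omega) (by omega)
  have hl := hc.two_le
  have d1 : X.dist (c 1) (c l) = l - 1 := by
    have := h1 V X hX l c hc 1 (l - 1) (by omega)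
    have e : (1 : ℤ) + ((l - 1 : ℕ) : ℤ) = l := by omega
    rw [e] at this
    exact this
  have d2 : X.dist (c 2) (c l) = l - 2 := by
    have := h1 V X hX l c hc 2 (l - 2) (by omega)
    have e : (2 : ℤ) + ((l - 2 : ℕ) : ℤ) = l := by omega
    rw [e] at this
    exact this
  have hadj2 : X.Adj x'' (c 2) := by
    have := hc.adj 1
    rw [hc1] at this
    exact this
  have d3 : X.dist a'' x'' = X.dist a'' (c l) + X.dist (c l) x'' := hcl
  have d4 : X.dist (c l) x'' = l - 1 := by
    rw [SimpleGraph.dist_comm, ← hc1]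
    exact d1
  have d5 := hX.dist_triangle (u := a'') (v := c l) (w := c 2)
  have d6 : X.dist (c l) (c 2) = l - 2 := by
    rw [SimpleGraph.dist_comm]
    exact d2
  have d7 := PEv_adj hX a'' x'' (c 2) hadj2
  have d8 : X.dist a'' (c 2) = X.dist (c 2) a'' := SimpleGraph.dist_comm
  have hc2 : c 2 ∈ E := hPx a'' ha'' (c 2) hadj2 (by omega)
  have hshift := (h3 V X l c hc 1).1
  have hr := (hg V X hX E hE).2.2 l (fun i => c (i + 1)) hshift
    (by
      show c (-1 + 1) ∈ E
      norm_num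
      rw [hc0]
      exact hvE hx')
    (by
      show c (0 + 1) ∈ E
      norm_num
      rw [hc1]
      exact hvE hx'')
    (by
      show c (1 + 1) ∈ E
      norm_num
      exact hc2)
  apply hr
  refine ⟨-2, ?_⟩
  show c (-2 + 1) = y'
  norm_num
  exact hcm

/-- (c) `LowS o v` is contained in every gated set containing `v` and the lower neighbours of `x` -/
theorem PEv_lowS (hp : P_PRL.{u}) (hg : S_GP.{u}) (h1 : S_E1.{u}) (h3 : S_E3.{u})
    (hh : S_HAM.{u}) (hb : S_BOX.{u})
    {V : Type u} {X : SimpleGraph V} (hM : Mediangle X) {o v : Set V} (hP : Prl X o v) {b : V}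
    (hbo : b ∈ o) {x : V} (hx : x ∈ v) {E : Set V} (hE : Gated X E) (hvE : v ⊆ E)
    (hL : {y | X.Adj x y ∧ X.dist b y + 1 = X.dist b x} ⊆ E) : LowS X o v ⊆ E := by
  have hX := hM.connected
  obtain ⟨η, σ, co, hco⟩ := hh V X hM
  obtain ⟨-, -, -, -, hmove⟩ := hb V X η σ co hX hco
  have hall : ∀ (n : ℕ) (x' : V), x' ∈ v → X.dist x' x = n →
      ∀ a', Gt X o x' a' → ∀ y, X.Adj x' y → X.dist y a' + 1 = X.dist x' a' → y ∈ E := by
    intro n
    induction n with
    | zero =>
      intro x' hx' hd a' ha' y hxy hyd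
      have he : x' = x := hX.dist_eq_zero_iff.1 hd
      subst he
      have e1 := ha'.2 b hbo
      have e2 := hX.dist_triangle (u := y) (v := a') (w := b)
      have e3 := PEv_adj hX b x' y hxy
      have e4 : X.dist b x' = X.dist x' b := SimpleGraph.dist_comm
      have e5 : X.dist b y = X.dist y b := SimpleGraph.dist_comm
      exact hL ⟨hxy, by omega⟩
    | succ n ih =>
      intro x' hx' hd
      have hne : x' ≠ x := by
        intro he
        rw [he, SimpleGraph.dist_self] at hd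
        omega
      obtain ⟨w, hw1, hw2, hw3⟩ := hmove x' x hne
      have hwv : w ∈ v := (hg V X hX v hP.2.1).1 x' hx' x hx hw2
      exact PEv_step hp hg h1 h3 hM hP hE hvE hx' hwv hw1 (ih w hwv (by omega))
  rintro y ⟨x', hx', a', ha', hxy, hyd⟩
  exact hall _ x' hx' rfl a' ha' y hxy hyd

theorem p_ev (hp : P_PRL.{u}) (hg : S_GP.{u}) (hgh : S_GHG.{u}) (hs : S_STAR.{u}) (h1 : S_E1.{u})
    (h3 : S_E3.{u}) (hh : S_HAM.{u}) (hb : S_BOX.{u}) : P_EV.{u} := by
  intro V X hM o v hP hC b hbo z x hz hx hmax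
  have _ := hgh
  apply Set.Subset.antisymm
  · -- monotone
    intro t ht Y hY
    refine ht Y ⟨hY.1, ?_⟩
    refine Set.Subset.trans ?_ hY.2
    rintro y (hy | hy)
    · rw [Set.mem_singleton_iff] at hy
      rw [hy]
      exact Or.inl hx
    · exact PEv_low hp hg hh hb hM hP hbo hz hx hy
  · intro t ht Y hY
    refine ht Y ⟨hY.1, ?_⟩
    have hxY : x ∈ Y := hY.2 (Or.inl rfl)
    have hLY : {y | X.Adj x y ∧ X.dist b y + 1 = X.dist b x} ⊆ Y := fun y hy => hY.2 (Or.inr hy)
    have hvY : v ⊆ Y := PEv_v hg hs hM hC hz hx hmax hY.1 hxY hLY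
    exact Set.union_subset hvY (PEv_lowS hp hg h1 h3 hh hb hM hP hbo hx hY.1 hvY hLY)

end Pool.Agent.H341.FM.P
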