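import Pool.Agent.H341.FM.PStm

set_option autoImplicit false

/-! Solvable groups: the induction (P_SOLV from P_STEP). -/

namespace Pool.Agent.H341.FM.P

open Pool.Agent.H341.MA Pool.Agent.H341.FM

universe u v

private theorem PSolv_vertex {V : Type u} (X : SimpleGraph V) (a : V) : Cell X {a} := by
  refine ⟨fun x => ⟨a, rfl, ?_⟩, ?_, Set.finite_singleton a⟩
  · intro y' hy'
    rw [Set.mem_singleton_iff] at hy'
    subst hy'
    simp
  · intro v hv x hx y _ hvx
    rw [Set.mem_singleton_iff] at hv hx
    subst hv
    subst hx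
    exact absurd hvx (X.irrefl)

private theorem PSolv_group {G : Type u} [Group G] [Finite G] [Nontrivial G] [Group.IsSolvable G] :
    ∃ (p : ℕ) (N : Subgroup G), p.Prime ∧ N.Normal ∧ N ≠ ⊤ ∧ ∀ g : G, g ^ p ∈ N := by
  have h1 : commutator G < ⊤ := Group.IsSolvable.commutator_lt_top_of_nontrivial G
  have hnt : Nontrivial (Abelianization G) := by
    rw [← not_subsingleton_iff_nontrivial]
    intro hs
    apply h1.ne
    rw [eq_top_iff]
    intro g _
    have h2 : (Abelianization.of g : Abelianization G) = 1 := Subsingleton.elim _ _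
    rw [← Abelianization.ker_of G]
    exact h2
  have hcard : Nat.card (Abelianization G) ≠ 1 := by
    intro h
    exact (Finite.one_lt_card (α := Abelianization G)).ne' h
  obtain ⟨p, hp, hpd⟩ := Nat.exists_prime_and_dvd hcard
  have : Fact p.Prime := ⟨hp⟩
  refine ⟨p, Subgroup.comap (Abelianization.of : G →* Abelianization G) (powMonoidHom p).range, hp,
    inferInstance, ?_, ?_⟩
  · intro htop
    have hsurj : Function.Surjective (powMonoidHom p : Abelianization G →* Abelianization G) := by
      intro a
      obtain ⟨g, rfl⟩ := QuotientGroup.mk_surjective a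
      have hg : g ∈ Subgroup.comap (Abelianization.of : G →* Abelianization G) (powMonoidHom p).range := by
        rw [htop]
        exact Subgroup.mem_top g
      exact hg
    have hinj := Finite.injective_iff_surjective.2 hsurj
    obtain ⟨a, ha⟩ := exists_prime_orderOf_dvd_card' p hpd
    have h3 : (powMonoidHom p : Abelianization G →* Abelianization G) a = (powMonoidHom p) 1 := by
      rw [map_one]
      change a ^ p = 1
      rw [← ha]
      exact pow_orderOf_eq_one a
    have h4 := hinj h3
    rw [h4, orderOf_one] at ha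
    exact hp.one_lt.ne ha
  · intro g
    exact ⟨Abelianization.of g, by simp⟩

theorem p_solv (hs : P_STEP.{u}) : P_SOLV.{u} := by
  intro V _ X hX K
  induction K using WellFoundedLT.induction with
  | ind K ih =>
    intro hK hadj
    rcases eq_or_ne K ⊥ with rfl | hne
    · obtain ⟨a⟩ := hX.connected.nonempty
      refine ⟨{a}, PSolv_vertex X a, fun g hg => ?_⟩
      rw [Subgroup.mem_bot] at hg
      subst hg
      simp
    · have hnt : Nontrivial K := (Subgroup.nontrivial_iff_ne_bot K).2 hne
      obtain ⟨p, N, hp, hN, hNt, hpow⟩ := PSolv_group (G := K)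
      have hle : N.map K.subtype ≤ K := Subgroup.map_subtype_le N
      have hlt : N.map K.subtype < K := by
        refine lt_of_le_of_ne hle fun h => hNt ?_
        rw [eq_top_iff]
        intro g _
        have h1 : (g : Equiv.Perm V) ∈ N.map K.subtype := by
          rw [h]
          exact g.2
        obtain ⟨g', hg', h2⟩ := h1
        have h3 : g' = g := Subtype.ext h2
        rw [← h3]
        exact hg'
      have hsol : Group.IsSolvable (N.map K.subtype) :=
        Group.isSolvable_of_isSolvable_injective (Subgroup.inclusion_injective hle)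
      obtain ⟨D, hD, hDN⟩ := ih _ hlt hsol (fun g hg => hadj g (hle hg))
      refine hs V X hX (N.map K.subtype) K p hp hle ?_ ?_ hadj ⟨D, hD, hDN⟩
      · rintro n ⟨n', hn', rfl⟩ g hg
        exact ⟨⟨g, hg⟩ * n' * ⟨g, hg⟩⁻¹, hN.conj_mem n' hn' ⟨g, hg⟩, rfl⟩
      · intro g hg
        exact ⟨1, ⟨g, hg⟩ ^ p, hpow ⟨g, hg⟩, by simp⟩

end Pool.Agent.H341.FM.P
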