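import Pool.Agent.H341.FM.PStm

/-!
# P_STEP: from `N` to `K` if `K / N` is a `p`-group (helper196)
-/

set_option autoImplicit false

namespace Pool.Agent.H341.FM.P

open Pool.Agent.H341.MA Pool.Agent.H341.FM

universe u v

/-- isometries -/
def PStep_Iso {V : Type u} (X : SimpleGraph V) (g : Equiv.Perm V) : Prop :=
  ∀ x y : V, X.dist (g x) (g y) = X.dist x y

theorem pStep_dist_le {V : Type u} {X : SimpleGraph V} (hX : X.Connected) (g : Equiv.Perm V)
    (hA : ∀ x y : V, X.Adj x y → X.Adj (g x) (g y)) (a b : V) :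
    X.dist (g a) (g b) ≤ X.dist a b := by
  obtain ⟨p, hp⟩ := hX.exists_walk_length_eq_dist a b
  let f : X →g X := ⟨fun w => g w, fun {a b} h => hA a b h⟩
  have h1 : X.dist (f a) (f b) ≤ (p.map f).length := SimpleGraph.dist_le _
  rw [SimpleGraph.Walk.length_map, hp] at h1
  exact h1

theorem pStep_iso {V : Type u} {X : SimpleGraph V} (hX : X.Connected) (K : Subgroup (Equiv.Perm V))
    (hA : ∀ g ∈ K, ∀ x y : V, X.Adj x y → X.Adj (g x) (g y)) (g : Equiv.Perm V) (hg : g ∈ K) :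
    PStep_Iso X g := by
  intro a b
  refine le_antisymm (pStep_dist_le hX g (hA g hg) a b) ?_
  have h := pStep_dist_le hX g⁻¹ (hA g⁻¹ (K.inv_mem hg)) (g a) (g b)
  have e : ∀ z : V, g⁻¹ (g z) = z := fun z => g.symm_apply_apply z
  rw [e, e] at h
  exact h

theorem pStep_symm {V : Type u} {X : SimpleGraph V} {g : Equiv.Perm V} (hd : PStep_Iso X g) :
    PStep_Iso X g.symm := by
  intro x y
  rw [← hd (g.symm x) (g.symm y), g.apply_symm_apply, g.apply_symm_apply]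

theorem pStep_adj {V : Type u} {X : SimpleGraph V} {g : Equiv.Perm V} (hd : PStep_Iso X g) (x y : V) :
    X.Adj (g x) (g y) ↔ X.Adj x y := by
  rw [← SimpleGraph.dist_eq_one_iff_adj, ← SimpleGraph.dist_eq_one_iff_adj, hd]

theorem pStep_gated {V : Type u} {X : SimpleGraph V} {g : Equiv.Perm V} (hd : PStep_Iso X g)
    {Y : Set V} (h : Gated X Y) : Gated X (g '' Y) := by
  intro x
  obtain ⟨x, rfl⟩ := g.surjective x
  obtain ⟨y, hy, h'⟩ := h x
  refine ⟨g y, ⟨y, hy, rfl⟩, ?_⟩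
  rintro _ ⟨y', hy', rfl⟩
  rw [hd, hd, hd]
  exact h' y' hy'

theorem pStep_gt {V : Type u} {X : SimpleGraph V} {g : Equiv.Perm V} (hd : PStep_Iso X g)
    (R : Set V) (a y : V) : Gt X (g '' R) (g a) (g y) ↔ Gt X R a y := by
  unfold Gt
  rw [g.injective.mem_set_image, Set.forall_mem_image]
  refine and_congr Iff.rfl (forall₂_congr fun y' _ => ?_)
  rw [hd, hd, hd]

theorem pStep_im {V : Type u} {X : SimpleGraph V} {g : Equiv.Perm V} (hd : PStep_Iso X g)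
    (R o : Set V) : Im X (g '' R) (g '' o) = g '' Im X R o := by
  ext z
  constructor
  · rintro ⟨_, ⟨a, ha, rfl⟩, h⟩
    obtain ⟨y, rfl⟩ := g.surjective z
    exact ⟨y, ⟨a, ha, (pStep_gt hd R a y).1 h⟩, rfl⟩
  · rintro ⟨y, ⟨a, ha, h⟩, rfl⟩
    exact ⟨g a, ⟨a, ha, rfl⟩, (pStep_gt hd R a y).2 h⟩

theorem pStep_low {V : Type u} {X : SimpleGraph V} {g : Equiv.Perm V} (hd : PStep_Iso X g)
    (o v : Set V) : LowS X (g '' o) (g '' v) = g '' LowS X o v := by
  ext z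
  obtain ⟨z, rfl⟩ := g.surjective z
  rw [g.injective.mem_set_image]
  constructor
  · rintro ⟨_, ⟨x, hx, rfl⟩, a, h1, h2, h3⟩
    obtain ⟨a, rfl⟩ := g.surjective a
    rw [hd, hd] at h3
    exact ⟨x, hx, a, (pStep_gt hd o x a).1 h1, (pStep_adj hd _ _).1 h2, h3⟩
  · rintro ⟨x, hx, a, h1, h2, h3⟩
    refine ⟨g x, ⟨x, hx, rfl⟩, g a, (pStep_gt hd o x a).2 h1, (pStep_adj hd _ _).2 h2, ?_⟩
    rw [hd, hd]
    exact h3

theorem pStep_gh {V : Type u} {X : SimpleGraph V} {g : Equiv.Perm V} (hd : PStep_Iso X g)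
    (S : Set V) : GH X (g '' S) = g '' GH X S := by
  ext z
  obtain ⟨z, rfl⟩ := g.surjective z
  rw [g.injective.mem_set_image]
  constructor
  · intro h Y hY
    have h1 := h (g '' Y) ⟨pStep_gated hd hY.1, Set.image_mono hY.2⟩
    rwa [g.injective.mem_set_image] at h1
  · intro h Y hY
    have h1 := h (g.symm '' Y) ⟨pStep_gated (pStep_symm hd) hY.1, fun s hs =>
      ⟨g s, hY.2 ⟨s, hs, rfl⟩, g.symm_apply_apply s⟩⟩
    obtain ⟨y, hy, hyz⟩ := h1
    rw [← hyz, g.apply_symm_apply]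
    exact hy

theorem pStep_inter {V : Type u} {X : SimpleGraph V} (hX : X.Connected) (hg : S_GP.{u})
    {A B : Set V} (hA : Gated X A) (hB : Gated X B) (hne : (A ∩ B).Nonempty) :
    Gated X (A ∩ B) := by
  obtain ⟨e, heA, heB⟩ := hne
  intro x
  obtain ⟨c, hc, hc'⟩ := hB x
  obtain ⟨r, hr, hr'⟩ := hA c
  have hrB : r ∈ B := (hg V X hX B hB).1 c hc e heB (hr' e heA)
  refine ⟨r, ⟨hr, hrB⟩, ?_⟩
  rintro y ⟨hyA, hyB⟩
  have h1 := hc' y hyB
  have h2 := hr' y hyA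
  have h3 := hc' r hrB
  omega

theorem pStep_univ {V : Type u} (X : SimpleGraph V) : Gated X (Set.univ : Set V) := by
  intro x
  refine ⟨x, Set.mem_univ _, fun y' _ => ?_⟩
  rw [SimpleGraph.dist_self, zero_add]

theorem p_step (hc : P_COMB.{u}) (he : P_E.{u}) (hi : P_IM.{u}) (hcl : P_CELL.{u})
    (hg : S_GP.{u}) : P_STEP.{u} := by
  intro V _ X hM N K p hp hNK hnorm hpow hK hD
  have hX : X.Connected := hM.connected
  have hiso : ∀ g ∈ K, PStep_Iso X g := fun g hgK => pStep_iso hX K hK g hgK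
  have hisoN : ∀ n ∈ N, PStep_Iso X n := fun n hn => hiso n (hNK hn)
  have hne : ∀ R : Set V, Gated X R → R.Nonempty := by
    intro R hR
    obtain ⟨x⟩ := hX.nonempty
    obtain ⟨y, hy, -⟩ := hR x
    exact ⟨y, hy⟩
  -- the family of the invariant gated sets
  let G : Set (Set V) := {R | Gated X R ∧ ∀ n ∈ N, n '' R = R}
  have hGdef : ∀ R : Set V, R ∈ G ↔ (Gated X R ∧ ∀ n ∈ N, n '' R = R) := fun R => Iff.rfl
  obtain ⟨D, hDc, hDN⟩ := hD
  have hDG : D ∈ G := ⟨hDc.1, hDN⟩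
  -- a minimal one inside the invariant cell
  obtain ⟨o, ho⟩ : ∃ o, Minimal (fun R => R ∈ G ∧ R ⊆ D) o :=
    (Set.toFinite {R : Set V | R ∈ G ∧ R ⊆ D}).exists_minimal ⟨D, hDG, subset_rfl⟩
  obtain ⟨⟨hoG, hoD⟩, hmin⟩ := ho
  have hpolg : ∀ R R' : Set V, R ⊆ R' → Polg X R' → Polg X R := by
    intro R R' hRR' h v hv x hx y hy
    exact h v (hRR' hv) x (hRR' hx) y (hRR' hy)
  have hocell : Cell X o := ⟨hoG.1, hpolg o D hoD hDc.2.1, Set.toFinite _⟩
  -- the projections to `o`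
  have hIm : ∀ R ∈ G, Im X o R = o := by
    intro R hR
    have h1 : Im X o R ∈ G := by
      refine ⟨(hi V X hX R o hR.1 hoG.1).1, fun n hn => ?_⟩
      rw [← pStep_im (hisoN n hn), hoG.2 n hn, hR.2 n hn]
    have h2 : Im X o R ⊆ o := fun y hy => by
      obtain ⟨a, _, hy, _⟩ := hy
      exact hy
    exact subset_antisymm h2 (hmin ⟨h1, h2.trans hoD⟩ h2)
  have hIm' : ∀ R ∈ G, Im X R o ∈ G ∧ Prl X o (Im X R o) := by
    intro R hR
    have h1 := hi V X hX o R hoG.1 hR.1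
    refine ⟨⟨h1.1, fun n hn => ?_⟩, h1.2 (hIm R hR)⟩
    rw [← pStep_im (hisoN n hn), hoG.2 n hn, hR.2 n hn]
  have hE : ∀ v, Prl X o v → v ∈ G → Cell X (GH X (v ∪ LowS X o v)) ∧
      GH X (v ∪ LowS X o v) ∈ G := by
    intro v hv hvG
    have h1 := (he V X hM o v hv (hcl V X hM o v hv hocell)).1
    refine ⟨h1, h1.1, fun n hn => ?_⟩
    rw [← pStep_gh (hisoN n hn), Set.image_union, ← pStep_low (hisoN n hn), hvG.2 n hn,
      hoG.2 n hn]
  obtain ⟨R, hRG, hRK, v, hv, hRv⟩ := hc V K p hp G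
    ⟨pStep_univ X, fun n _ => by rw [Set.image_univ, n.surjective.range_eq]⟩
    (fun R hR => hne R hR.1)
    (fun R hR R' hR' h => ⟨pStep_inter hX hg hR.1 hR'.1 h, fun n hn => by
      rw [Set.image_inter n.injective, hR.2 n hn, hR'.2 n hn]⟩)
    (fun g hgK R hR => ⟨pStep_gated (hiso g hgK) hR.1, fun n hn => by
      have h1 := hR.2 _ (hnorm n hn g⁻¹ (K.inv_mem hgK))
      conv_rhs => rw [← h1]
      rw [Set.image_image, Set.image_image]
      apply Set.image_congr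
      intro a _
      simp [Equiv.Perm.mul_apply]⟩)
    (fun g hgK => by
      obtain ⟨k, hk⟩ := hpow g hgK
      exact ⟨k, fun R hR => hR.2 _ hk⟩)
    {v | v ∈ G ∧ Prl X o v} (fun v => GH X (v ∪ LowS X o v))
    (fun v hv => ⟨hv.1, fun y hy Y hY => hY.2 (Or.inl hy), (hE v hv.2 hv.1).2⟩)
    (fun R hR => by
      have h1 := hIm' R hR
      have hsub : Im X R o ⊆ R := fun y hy => by
        obtain ⟨a, _, hy, _⟩ := hy
        exact hy
      refine ⟨Im X R o, ⟨⟨h1.1, h1.2⟩, hsub, ?_⟩, ?_⟩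
      · exact ((he V X hM o _ h1.2 (hcl V X hM o _ h1.2 hocell)).2 R hR.1 hsub).2 rfl
      · rintro v' ⟨hv', hv'R, h'⟩
        exact (((he V X hM o _ hv'.2 (hcl V X hM o _ hv'.2 hocell)).2 R hR.1 hv'R).1 h').symm)
  exact ⟨R, ⟨hRG.1, hpolg R _ hRv (hE v hv.2 hv.1).1.2.1, Set.toFinite _⟩, hRK⟩

end Pool.Agent.H341.FM.P
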