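import Pool.Agent.H341.FM.OStm

/-!
# Fixed monoliths for solvable groups: statements (proofs: see the doc comments)

Main idea: if `N` acts on a finite mediangle graph and stabilises a cell, consider the finite family of the `N`-invariant gated sets `R` and the weights `w R` with `∑_{R' ⊆ R} w R' = 1` for all `R`.
They are invariant under every group `K` normalising `N`, their sum is `1`, and `w R ≠ 0` only if `R` is contained in an `N`-invariant cell. If `K / N` is a `p`-group, counting mod `p` gives a `K`-invariant `R` with `w R ≠ 0`.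
-/

set_option autoImplicit false

namespace Pool.Agent.H341.FM.P

open Pool.Agent.H341.MA Pool.Agent.H341.FM Pool.Agent.H341.FM.O

universe u v

/-- `y` is the gate of `a` in `R` -/
def Gt {V : Type u} (X : SimpleGraph V) (R : Set V) (a y : V) : Prop :=
  y ∈ R ∧ ∀ y' ∈ R, X.dist a y' = X.dist a y + X.dist y y'

/-- the projection of `o` to `R`: all gates in `R` of elements of `o` -/
def Im {V : Type u} (X : SimpleGraph V) (R o : Set V) : Set V := {y | ∃ a ∈ o, Gt X R a y}

/-- parallel gated sets -/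
def Prl {V : Type u} (X : SimpleGraph V) (o v : Set V) : Prop :=
  Gated X o ∧ Gated X v ∧ Im X v o = v ∧ Im X o v = o

/-- the vertices adjacent to `v` and closer to `o` -/
def LowS {V : Type u} (X : SimpleGraph V) (o v : Set V) : Set V :=
  {y | ∃ x ∈ v, ∃ a, Gt X o x a ∧ X.Adj x y ∧ X.dist y a + 1 = X.dist x a}

/-- **P_PRL**. Gates are unique. Parallel sets: the gate maps are mutually inverse isometries and all distances between mutual gates are equal.

Proof. (1) For gated `A, B`, `b ∈ B`, `a` = gate of `b` in `A`, `b'` = gate of `a` in `B`: `a` is the gate of `b'` in `A`: for `a'' ∈ A`: `d(b,a'') = d(b,a) + d(a,a'') = d(b,b') + d(b',a) + d(a,a'')` and `d(b,a'') ≤ d(b,b') + d(b',a'')`.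
(2) So if `x ∈ v = Im v o`, `x` the gate of `a0 ∈ o = Im o v`, `a0` the gate of some `b ∈ v`, then by (1) `a0` is the gate of `x` in `o`, so `a = a0`, and `x` is the gate of `a` in `v`. (3) With `a, a'` the gates of `x, x'`: `d(x,a') = d(x,a) + d(a,a')` and `d(a',x) = d(a',x') + d(x',x)`;
symmetrically `d(x',a) = d(x',a') + d(a',a) = d(a,x) + d(x,x')`. Add and subtract. -/
def P_PRL : Prop := ∀ (V : Type u) (X : SimpleGraph V), X.Connected → ∀ o v : Set V, Prl X o v →
  ∀ x ∈ v, ∀ x' ∈ v, ∀ a a' : V, Gt X o x a → Gt X o x' a' →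
    Gt X v a x ∧ X.dist x a = X.dist x' a' ∧ X.dist x x' = X.dist a a'

/-- **P_IM** (may use P_PRL-style arguments; X connected). The projection `v` of a gated set `o` to a gated set `R` is gated, and if `Im X o R = o` then `o` and `v` are parallel.

Proof. Gated: let `A = R`, `B = o`, `z` any vertex, `a` = gate of `z` in `A`, `b` = gate of `a` in `B`, `a'` = gate of `b` in `A`. Then `a'` is the gate of `z` in `Im A B`. It is enough that `d(a,a'') = d(a,a') + d(a',a'')` for `a'' ∈ Im A B`. Let `b''` = gate of `a''` in `B`; by (1) of P_PRL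
`a''` is the gate of `b''` in `A`, `b` is the gate of `a'` in `B`. `d(a,b'') = d(a,b) + d(b,b'')`, `d(a,b'') = d(a,a'') + d(a'',b'')`, `d(b,a'') = d(b,b'') + d(b'',a'') = d(b,a') + d(a',a'')`, `d(a,b) = d(a,a') + d(a',b)`, `d(a',b'') = d(a',b) + d(b,b'') = d(a',a'') + d(a'',b'')`. These equations give it.
Parallel: for `a ∈ o` with gate `y` in `R`, `y ∈ v ⊆ R` is the gate of `a` in `v`; so `Im v o = v`. `Im o v = o`: `a ∈ o` is the gate of some `r ∈ R`; let `y` be the gate of `a` in `R`, `y ∈ v`; by (1) `a` is the gate of `y` in `o`. -/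
def P_IM : Prop := ∀ (V : Type u) (X : SimpleGraph V), X.Connected → ∀ o R : Set V, Gated X o → Gated X R →
  Gated X (Im X R o) ∧ (Im X o R = o → Prl X o (Im X R o))

/-- **P_CELL** (take P_PRL, S_GP as hypotheses). A set parallel to a cell is a cell.

Proof. `v` is gated, and finite as it is the image of `o`. `Polg`: let `x, x1, x2 ∈ v`, `x1, x2` non-adjacent neighbours of `x`; their gates `a, a1, a2 ∈ o` have the same mutual distances (P_PRL), so there is an even convex cycle `c` with `c 0 = a`, `c 1 = a1`, `c (-1) = a2`; it is contained in `o` (S_GP).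
Let `c' i` be the gate of `c i` in `v` (choose). Then `d(c' i, c' j) = d(c i, c j)` and `c'` is an even convex cycle: for the convexity, `z ∈ I(c' i, c' j)` lies in `v` (convex), its gate in `o` lies in `I(c i, c j)`, so it is some `c k` and `z = c' k`. -/
def P_CELL : Prop := ∀ (V : Type u) (X : SimpleGraph V), Mediangle X → ∀ o v : Set V, Prl X o v → Cell X o → Cell X v

/-- **P_EV** (take P_PRL, S_GP, S_GHG, S_STAR, S_E1, S_E3, S_HAM, S_BOX as hypotheses). The gated hull of `v ∪ LowS o v` is the gated hull of one vertex and its lower neighbours.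
Here `b ∈ o`, `z` is the gate of `b` in `v`, and `x ∈ v` has the largest possible distance from `z`.

Proof. Let `Low = {y | y ~ x, d(b,y) + 1 = d(b,x)}`. Note `d(b,x') = d(b,z) + d(z,x')` for `x' ∈ v`. (a) `Low ⊆ v ∪ LowS o v`: let `a` be the gate of `x` in `o`, `y ∈ Low`. In Hamming coordinates (S_HAM, S_BOX) `y` differs from `x` exactly in one direction `h`, and `co y h = co b h` (`y ∈ I(b,x) = Box`). `a ∈ I(b,x)` [`d(x,b) = d(x,a) + d(a,b)`],
so `co a h` is `co b h` or `co x h`. If `co a h = co b h` then `d(y,a) + 1 = d(x,a)` (count separating directions) and `y ∈ LowS`. If `co a h = co x h ≠ co b h`: as `z ∈ I(b,x)` and `d(z,x) = d(b,a)`, `d(b,z) = d(a,x)`, [`z ∈ I(b,x)` and `d(a,z) = d(a,x) + d(x,z)`, so `x ∈ I(a,z)`: `co x h` is `co a h` or `co z h`; similarly `b ∈ I(a,z)`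
as `d(z,a) = d(z,b) + d(b,a)`: `co b h` is `co a h` or `co z h`, so `co b h = co z h`]. So `co y h = co z h`, so `y ∈ Box z x = I(z,x) ⊆ v`. (b) Let `E = GH ({x} ∪ Low)`. `v ⊆ E` by S_STAR: a neighbour `x' ∈ v` of `x` has `d(z,x') ≤ d(z,x)`; if smaller `x' ∈ Low`; if equal the triangle condition (with `z`) gives `w ~ x, x'`, `w ∈ I(z,x)`, `w ∈ Low`, and `x' ∈ E` (S_GP, triangles).
(c) `LowS o v ⊆ E`: if `x'' ~ x'` are in `v`, the elements of LowS adjacent (with gate condition) to `x''` are in `E`, then so are those adjacent to `x'`: let `y' ~ x'`, `a' , a''` the gates of `x', x''`, `d(y',a') + 1 = d(x',a')`. With respect to `a''` both `x''` and `y'` are lower neighbours of `x'` (distances: `d(x',a'') = d(x'',a'') + 1`, `d(y',a'') ≤ d(y',a') + 1`), and `x'' ≠ y'`. The cycle condition gives an even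
convex cycle `c`, `c 0 = x'`, `c 1 = x''`, `c (-1) = y'`, `c l ∈ I(a'', x'')`; `c 2 ∈ I(c 1, c l) ⊆ I(x'', a'')` is in LowS adjacent to `x''`, so in `E`; `c 0, c 1, c 2 ∈ E`, so `y' ∈ E` (S_GP with a shift, S_E3). Induction along a path in `v` from `x` (where it holds by definition of Low: `y ~ x` with `d(y,a) + 1 = d(x,a)` has `d(b,y) + 1 = d(b,x)`). -/
def P_EV : Prop := ∀ (V : Type u) (X : SimpleGraph V), Mediangle X → ∀ o v : Set V, Prl X o v → Cell X v →
  ∀ b ∈ o, ∀ z x : V, Gt X v b z → x ∈ v → (∀ x' ∈ v, X.dist z x' ≤ X.dist z x) →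
    GH X ({x} ∪ {y | X.Adj x y ∧ X.dist b y + 1 = X.dist b x}) = GH X (v ∪ LowS X o v)

/-- **P_SUB** (take S_MT, S_SG, S_SUBC, S_BOX as hypotheses; `V` finite). The gated hull `E` of `x` and ALL its lower neighbours with respect to `b` is a cell, and `co b h ≠ co x h` for all directions `h` of `E`.

Proof. If there is no lower neighbour then `b = x` (S_BOX) and `E = {x}`. Otherwise S_MT (`o = b`, `v = x`, `T` = all lower neighbours) gives `b' ∈ I(b,x)` with `Ant co b' x`, `T` = lower neighbours of `x` with respect to `b'`; S_SG: `E = Sub co b' x`; S_SUBC. If `u ∈ E` and `co u h ≠ co x h` then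
`co b' h ≠ co x h`, and `co b' h` is `co b h` or `co x h`. -/
def P_SUB : Prop := ∀ (V : Type u) [Finite V] (X : SimpleGraph V) (η σ : Type u) (co : V → η → σ), Mediangle X → Ham X co →
  ∀ b x : V, Cell X (GH X ({x} ∪ {y | X.Adj x y ∧ X.dist b y + 1 = X.dist b x})) ∧
    ∀ u ∈ GH X ({x} ∪ {y | X.Adj x y ∧ X.dist b y + 1 = X.dist b x}), ∀ h, co u h ≠ co x h → co b h ≠ co x h

/-- **P_E** (take P_PRL, P_EV, P_SUB, S_HAM, S_BOX, S_GP, S_GHG as hypotheses; `V` finite). Let `E = GH (v ∪ LowS o v)`. It is a cell, and for gated `R ⊇ v`: `R ∩ E = v` iff `v` is the projection of `o` to `R`.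

Proof. Choose `b ∈ o`, `z` its gate in `v`, `x ∈ v` at the largest distance from `z`: P_EV, P_SUB describe `E`. (⇐) Let `v = Im R o`, `F = R ∩ E` (gated or at least convex and closed under triangles, by S_GP). Suppose `F ≠ v`; as `F` is convex there are `x' ∈ v`, `y ∈ F`, `y ∉ v`, `x' ~ y` (take a vertex of `F` outside `v`, its gate `x'` in `v`, and `y` on a geodesic between them).
They differ exactly in one direction `h`. (i) `co` is constant on `v` at `h`: if `co u h ≠ co x' h` for a `u ∈ v`, then `Ham.proj x' y u` gives `w` with `co w h = co u h` and the other coordinates those of `x'`: `w ∈ Box x' u ⊆ v`, `w ~ x'`, and `y = w` or `y ~ w`, so `y ∈ v` (S_GP), a contradiction. (ii) `co y h ≠ co x h = co x' h`, so by P_SUB `co b h ≠ co x h`.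
Let `a` be the gate of `x'` in `o`: `co a h = co b h`? we have `d(z,a) = d(z,b) + d(b,a)` so `b ∈ Box z a`, so `co b h` is `co z h = co x' h` (no) or `co a h`. So `co a h = co b h ≠ co x' h`. Let `w = y` if `co y h = co a h`, otherwise `w` = `Ham.proj x' y a` (`co w h = co a h`, other coordinates those of `x'`), adjacent to `x'` and `y`, so `w ∈ F`. Then `d(w,a) + 1 = d(x',a)`.
But `w ∈ R` and `d(w,a) ≥ d(a, gate of a in R) = d(a,x')` [the gate of `a` in `R` lies in `v = Im R o`, so it is the gate of `a` in `v`, which is `x'`]. Contradiction.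
(⇒) Let `R ∩ E = v`, `R` gated, `v ⊆ R`. Claim: for `x' ∈ v` with gate `a'` in `o`, `x'` is the gate of `a'` in `R`. If the gate is `r ≠ x'` take a neighbour `y'` of `x'` in `I(x',r) ⊆ R`; `r ∈ I(x',a')` so `d(y',a') + 1 = d(x',a')`, so `y' ∈ LowS ⊆ E`, `y' ∈ R ∩ E = v`, but all vertices of `v` have the same distance from their gates in `o` (P_PRL) and `d(y', gate) ≤ d(y',a') < d(x',a')`, a contradiction.
So `v ⊆ Im R o`, and conversely every `a ∈ o` is the gate of an element `x'` of `v` (`Im o v = o`), so its gate in `R` is `x'`. -/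
def P_E : Prop := ∀ (V : Type u) [Finite V] (X : SimpleGraph V), Mediangle X → ∀ o v : Set V, Prl X o v → Cell X v →
  Cell X (GH X (v ∪ LowS X o v)) ∧
  ∀ R : Set V, Gated X R → v ⊆ R → (R ∩ GH X (v ∪ LowS X o v) = v ↔ Im X R o = v)

/-- **P_COMB**. The counting argument.

Proof. Finite family `𝒢`. For every `f : 𝒢 → ℤ` there is a unique `w : 𝒢 → ℤ` with `∑_{R' ⊆ R} w R' = f R` for all `R ∈ 𝒢` (induction on the cardinality). (1) Let `w` be the solution for `f = 1`; by uniqueness `w (g R) = w R` for `g ∈ K`. `∑_{R ∈ 𝒢} w R = 1` (`univ ∈ 𝒢`). (2) For `v ∈ 𝒱` let `w_v` be the solution for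
`f_v R = 1` if `v ⊆ R` and `R ∩ E v = v`, and `0` otherwise. `w_v R = 0` unless `R ⊆ E v`: induction on `R`: let `R ⊄ E v`. `f_v R = ∑_{R' ⊆ R} w_v R' = w_v R + ∑_{R' ⊆ R ∩ E v} w_v R'` by induction. If `R ∩ E v` is empty, the last sum is `0` and `f_v R = 0` (`v` is nonempty and inside `E v`). Otherwise `R ∩ E v ∈ 𝒢` and the last sum is
`f_v (R ∩ E v) = f_v R`. (3) `∑_v f_v = 1` by hypothesis, so `w = ∑_v w_v` by uniqueness. So `w R ≠ 0` implies `R ⊆ E v` for some `v ∈ 𝒱`. (4) `K` acts on `𝒢` through a finite `p`-group, `w` is constant on the orbits, the orbits have length `1` or divisible by `p`. As `∑ w R = 1` is not divisible by `p` there is a fixed `R` with `w R ≠ 0`. -/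
def P_COMB : Prop := ∀ (W : Type u) [Finite W] (K : Subgroup (Equiv.Perm W)) (p : ℕ), p.Prime → ∀ 𝒢 : Set (Set W),
  Set.univ ∈ 𝒢 → (∀ R ∈ 𝒢, R.Nonempty) → (∀ R ∈ 𝒢, ∀ R' ∈ 𝒢, (R ∩ R').Nonempty → R ∩ R' ∈ 𝒢) →
  (∀ g ∈ K, ∀ R ∈ 𝒢, g '' R ∈ 𝒢) → (∀ g ∈ K, ∃ k : ℕ, ∀ R ∈ 𝒢, (g ^ p ^ k : Equiv.Perm W) '' R = R) →
  ∀ (𝒱 : Set (Set W)) (E : Set W → Set W), (∀ v ∈ 𝒱, v ∈ 𝒢 ∧ v ⊆ E v ∧ E v ∈ 𝒢) →
  (∀ R ∈ 𝒢, ∃! v, v ∈ 𝒱 ∧ v ⊆ R ∧ R ∩ E v = v) →
  ∃ R ∈ 𝒢, (∀ g ∈ K, g '' R = R) ∧ ∃ v ∈ 𝒱, R ⊆ E v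

/-- **P_STEP** (take P_COMB, P_E, P_IM, P_CELL, S_GP as hypotheses). From `N` to `K` if `K / N` is a `p`-group.

Proof. `𝒢` = the `N`-invariant gated sets (`univ` is gated; nonempty intersections of gated sets are gated: for a vertex `a`, the gate in `R ∩ R'` is the gate in `R` of the gate in `R'`: the gate `r` in `R` of `c ∈ R'`, lies in `I(c, e) ⊆ R'` for `e ∈ R ∩ R'`; automorphisms map gated sets to gated sets). Let `o ∈ 𝒢` be contained in the `N`-invariant cell `D`, of minimal cardinality.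
`o` is a cell (gated, subset of a cell: `Polg` passes to subsets). For `R ∈ 𝒢`, `Im X o R` is gated (P_IM) and `N`-invariant (automorphisms preserve gates), contained in `o`, so it is `o`. `𝒱 = {v ∈ 𝒢 | Prl X o v}`, `E v = GH X (v ∪ LowS X o v)`: it is `N`-invariant because `v` and `o` are (`GH`, `LowS` commute with automorphisms) and a cell (P_CELL, P_E). For `R ∈ 𝒢` the unique `v` is `Im X R o`
(P_IM, P_E; `N`-invariant). `K` acts on `𝒢` because it normalises `N`. P_COMB gives a `K`-invariant `R ⊆ E v`, gated, so it is a cell. -/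
def P_STEP : Prop := ∀ (V : Type u) [Finite V] (X : SimpleGraph V), Mediangle X → ∀ (N K : Subgroup (Equiv.Perm V)) (p : ℕ), p.Prime →
  N ≤ K → (∀ n ∈ N, ∀ g ∈ K, g * n * g⁻¹ ∈ N) → (∀ g ∈ K, ∃ k : ℕ, g ^ p ^ k ∈ N) →
  (∀ g ∈ K, ∀ x y : V, X.Adj x y → X.Adj (g x) (g y)) →
  (∃ D, Cell X D ∧ ∀ n ∈ N, n '' D = D) → ∃ D, Cell X D ∧ ∀ g ∈ K, g '' D = D

/-- **P_SOLV** (take P_STEP as hypothesis). Solvable groups.

Proof. Strong induction on the order of the finite group `K`. `K = 1`: a vertex is a cell. Otherwise the solvable group `K` has a normal subgroup `N` of prime index `p` (`K` modulo its commutator subgroup is a nontrivial finite abelian group); `N` is solvable, has an invariant cell by induction; use P_STEP (`g ^ p ∈ N`). -/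
def P_SOLV : Prop := ∀ (V : Type u) [Finite V] (X : SimpleGraph V), Mediangle X → ∀ K : Subgroup (Equiv.Perm V), Group.IsSolvable K →
  (∀ g ∈ K, ∀ x y : V, X.Adj x y → X.Adj (g x) (g y)) → ∃ D, Cell X D ∧ ∀ g ∈ K, g '' D = D

end Pool.Agent.H341.FM.P
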