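import Pool.Agent.H341.FM.PStm

/-!
# Fixed monoliths for solvable groups: cells spanned by lower neighbours (P_SUB)
-/

set_option autoImplicit false

namespace Pool.Agent.H341.FM.P

open Pool.Agent.H341.MA Pool.Agent.H341.FM

universe u v

/-- a single vertex is a cell -/
theorem psub_cell_singleton {V : Type u} (X : SimpleGraph V) (x : V) : Cell X ({x} : Set V) := by
  refine ⟨?_, ?_, Set.finite_singleton x⟩
  · intro y
    refine ⟨x, rfl, ?_⟩
    rintro _ rfl
    simp
  · intro v hv y hy z _ hvy _ _ _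
    have h1 : v = x := hv
    have h2 : y = x := hy
    rw [h1, h2] at hvy
    exact absurd hvy (X.loopless.irrefl x)

theorem p_sub (hmt : S_MT.{u}) (hsg : S_SG.{u}) (hsu : S_SUBC.{u}) (hb : S_BOX.{u}) :
    P_SUB.{u} := by
  intro V _ X η σ co hX hH b x
  obtain ⟨b1, b2, b3, b4, b5⟩ := hb V X η σ co hX.connected hH
  generalize hTdef : {y | X.Adj x y ∧ X.dist b y + 1 = X.dist b x} = T
  have hT : ∀ y, y ∈ T ↔ X.Adj x y ∧ X.dist b y + 1 = X.dist b x := by
    intro y
    rw [← hTdef]
    exact Iff.rfl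
  rcases T.eq_empty_or_nonempty with h0 | hne
  · -- there is no lower neighbour
    have hxg : x ∈ GH X ({x} ∪ T) := fun Y hY => hY.2 (Or.inl rfl)
    have h1 : GH X ({x} ∪ T) = {x} := by
      refine Set.Subset.antisymm ?_ ?_
      · intro y hy
        refine hy {x} ⟨(psub_cell_singleton X x).1, ?_⟩
        rw [h0, Set.union_empty]
      · rintro _ rfl
        exact hxg
    rw [h1]
    refine ⟨psub_cell_singleton X x, ?_⟩
    rintro u hu h hne
    have hu' : u = x := hu
    rw [hu'] at hne
    exact absurd rfl hne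
  · obtain ⟨b', hbI, hant, hlow⟩ := hmt V X η σ co hX hH b x T hne fun y hy => (hT y).1 hy
    have e : GH X ({x} ∪ T) = Sub co b' x := by
      rw [← hsg V X η σ co hX hH b' x hant]
      congr 2
      ext y
      exact (hlow y).symm
    rw [e]
    obtain ⟨c1, c2⟩ := hsu V X η σ co hX hH b' x hant
    refine ⟨⟨c1, c2, Set.toFinite _⟩, ?_⟩
    intro u hu h hne'
    have hb'x : co b' h ≠ co x h := fun hh => hne' ((hu h hh).trans hh)
    rw [b2] at hbI
    rcases hbI h with h2 | h2
    · rw [← h2]
      exact hb'x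
    · exact absurd h2 hb'x

end Pool.Agent.H341.FM.P
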