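import Pool.Agent.H341.FM.PStm

/-!
# P_PRL and P_IM: gates, projections, parallel gated sets (helper383)
-/

set_option autoImplicit false

namespace Pool.Agent.H341.FM.P

open Pool.Agent.H341.MA Pool.Agent.H341.FM

universe u v

theorem prl_uniq {V : Type u} {X : SimpleGraph V} (hc : X.Connected) {R : Set V} {a y z : V}
    (hy : Gt X R a y) (hz : Gt X R a z) : y = z := by
  have h1 := hy.2 z hz.1
  have h2 := hz.2 y hy.1
  have h3 : X.dist y z = 0 := by omega
  exact hc.dist_eq_zero_iff.1 h3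

/-- (1): the gate of the gate -/
theorem prl_back {V : Type u} {X : SimpleGraph V} (hc : X.Connected) {A B : Set V} {a b b' : V}
    (hb : b ∈ B) (ha : Gt X A b a) (hb' : Gt X B a b') : Gt X A b' a := by
  refine ⟨ha.1, fun c hcA => ?_⟩
  have h1 := ha.2 c hcA
  have h2 := hb'.2 b hb
  have h3 : X.dist b c ≤ X.dist b b' + X.dist b' c := hc.dist_triangle
  have h4 : X.dist b' c ≤ X.dist b' a + X.dist a c := hc.dist_triangle
  have e1 : X.dist a b = X.dist b a := X.dist_comm
  have e2 : X.dist a b' = X.dist b' a := X.dist_comm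
  have e3 : X.dist b' b = X.dist b b' := X.dist_comm
  omega

theorem prl_gate {V : Type u} {X : SimpleGraph V} {R : Set V} (hR : Gated X R) (a : V) :
    ∃ y, Gt X R a y := by
  obtain ⟨y, hy, h⟩ := hR a
  exact ⟨y, hy, h⟩

/-- **P_PRL** -/
theorem p_prl : P_PRL.{u} := by
  intro V X hc o v hp x hx x' hx' a a' ha ha'
  have key : ∀ x ∈ v, ∀ a : V, Gt X o x a → Gt X v a x := by
    intro x hx a ha
    have h1 : x ∈ Im X v o := by
      rw [hp.2.2.1]
      exact hx
    obtain ⟨a0, ha0, h2⟩ := h1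
    have h3 : a0 ∈ Im X o v := by
      rw [hp.2.2.2]
      exact ha0
    obtain ⟨b, hb, h4⟩ := h3
    have h5 : Gt X o x a0 := prl_back hc hb h4 h2
    rw [prl_uniq hc ha h5]
    exact h2
  have hg := key x hx a ha
  have hg' := key x' hx' a' ha'
  have h1 := ha.2 a' ha'.1
  have h2 := hg'.2 x hx
  have h3 := ha'.2 a ha.1
  have h4 := hg.2 x' hx'
  have e1 : X.dist a' x = X.dist x a' := X.dist_comm
  have e2 : X.dist a x' = X.dist x' a := X.dist_comm
  have e3 : X.dist a' x' = X.dist x' a' := X.dist_comm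
  have e4 : X.dist a x = X.dist x a := X.dist_comm
  have e5 : X.dist x' x = X.dist x x' := X.dist_comm
  have e6 : X.dist a' a = X.dist a a' := X.dist_comm
  exact ⟨hg, by omega, by omega⟩

/-- **P_IM** -/
theorem p_im : P_IM.{u} := by
  intro V X hc o R ho hR
  have hgated : Gated X (Im X R o) := by
    intro z
    obtain ⟨a, ha⟩ := prl_gate hR z
    obtain ⟨b, hb⟩ := prl_gate ho a
    obtain ⟨a', ha'⟩ := prl_gate hR b
    refine ⟨a', ⟨b, hb.1, ha'⟩, ?_⟩
    rintro c ⟨b0, hb0, hc0⟩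
    obtain ⟨b2, hb2⟩ := prl_gate ho c
    have g1 : Gt X R b2 c := prl_back hc hb0 hc0 hb2
    have g2 : Gt X o a' b := prl_back hc ha.1 hb ha'
    have E1 := hb.2 b2 hb2.1
    have E2 := g1.2 a ha.1
    have E3 := hb2.2 b hb.1
    have E4 := ha'.2 c hc0.1
    have E5 := ha'.2 a ha.1
    have E6 := g2.2 b2 hb2.1
    have E7 := g1.2 a' ha'.1
    have E8 := ha.2 c hc0.1
    have E9 := ha.2 a' ha'.1
    have e1 : X.dist b2 a = X.dist a b2 := X.dist_comm
    have e2 : X.dist b2 c = X.dist c b2 := X.dist_comm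
    have e3 : X.dist c a = X.dist a c := X.dist_comm
    have e4 : X.dist b a = X.dist a b := X.dist_comm
    have e5 : X.dist b a' = X.dist a' b := X.dist_comm
    have e6 : X.dist a' a = X.dist a a' := X.dist_comm
    have e7 : X.dist b2 a' = X.dist a' b2 := X.dist_comm
    have e8 : X.dist c a' = X.dist a' c := X.dist_comm
    omega
  refine ⟨hgated, fun him => ⟨ho, hgated, ?_, ?_⟩⟩
  · ext y
    constructor
    · rintro ⟨a, _, hy⟩
      exact hy.1
    · rintro ⟨a, ha, hy⟩
      refine ⟨a, ha, ⟨a, ha, hy⟩, fun y' hy' => ?_⟩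
      obtain ⟨a1, _, hy1⟩ := hy'
      exact hy.2 y' hy1.1
  · ext a
    constructor
    · rintro ⟨y, _, hy⟩
      exact hy.1
    · intro ha
      have h1 : a ∈ Im X o R := by
        rw [him]
        exact ha
      obtain ⟨r, hr, h2⟩ := h1
      obtain ⟨y, hy⟩ := prl_gate hR a
      exact ⟨y, ⟨a, ha, hy⟩, prl_back hc hr h2 hy⟩

end Pool.Agent.H341.FM.P
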