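import Pool.Agent.H341.FM.Stm

/-!
SH (helper124): edges of the same direction lie in the same hyperplane.
-/

set_option autoImplicit false

namespace Pool.Agent.H341.FM

open Pool.Agent.H341.MA

universe u v

private theorem sh_step {V : Type u} (X : SimpleGraph V) (hX : X.Connected) (x a : V)
    (h : 0 < X.dist x a) : ∃ s, X.Adj a s ∧ X.dist x s + 1 = X.dist x a := by
  obtain ⟨p, hp⟩ := (hX a x).exists_walk_length_eq_dist
  rw [SimpleGraph.dist_comm] at h ⊢
  cases p with
  | nil => simp at h
  | cons hadj q =>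
    rename_i s
    refine ⟨s, hadj, ?_⟩
    rw [SimpleGraph.Walk.length_cons] at hp
    have h1 : X.dist s x ≤ q.length := SimpleGraph.dist_le q
    have h2 : X.dist a x ≤ X.dist a s + X.dist s x := hX.dist_triangle
    have h3 : X.dist a s = 1 := SimpleGraph.dist_eq_one_iff_adj.2 hadj
    rw [SimpleGraph.dist_comm (u := x)]
    omega

/-- the induction of `MA/Par.lean` -/
private theorem sh_main (h1 : S_E1.{u}) (h3 : S_E3.{u}) (hW : S_W.{u}) {V : Type u}
    {X : SimpleGraph V} (hM : Mediangle X) :
    ∀ k : ℕ, ∀ x y a b : V, X.Adj x y → X.Adj a b → X.dist x a = k →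
      X.dist x a < X.dist x b → X.dist y b < X.dist y a → SameHyp X s(x, y) s(a, b) := by
  have hX := hM.connected
  have tri : ∀ u v w : V, X.Adj v w → X.dist u w ≤ X.dist u v + 1 := by
    intro u v w hvw
    have h4 : X.dist u w ≤ X.dist u v + X.dist v w := hX.dist_triangle
    rw [SimpleGraph.dist_eq_one_iff_adj.2 hvw] at h4
    exact h4
  have trl : ∀ u v w : V, X.Adj v w → X.dist v u ≤ X.dist w u + 1 := by
    intro u v w hvw
    rw [SimpleGraph.dist_comm (u := v), SimpleGraph.dist_comm (u := w)]
    exact tri u w v hvw.symm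
  intro k
  induction k using Nat.strong_induction_on with
  | _ k ih =>
    intro x y a b hxy hab hk hxa hyb
    have e1 : X.dist x b = k + 1 := by
      have := tri x a b hab
      omega
    have e2 := trl a y x hxy.symm
    have e3 := trl b x y hxy
    have e4 : X.dist y b = k := by omega
    have e5 : X.dist y a = k + 1 := by omega
    rcases Nat.eq_zero_or_pos k with h0 | hpos
    · have hxa' : x = a := (hX.dist_eq_zero_iff).1 (by omega)
      have hyb' : y = b := (hX.dist_eq_zero_iff).1 (by omega)
      rw [hxa', hyb']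
      exact Relation.EqvGen.refl _
    · obtain ⟨s, has, hs⟩ := sh_step X hX x a (by omega)
      have e6 := trl s y x hxy.symm
      have e7 := tri y s a has.symm
      have e8 : X.dist y s = k := by omega
      have hbs : b ≠ s := by
        intro h
        rw [h] at e1
        omega
      obtain ⟨l, c, hcc, c0, c1, cm, cl, -⟩ := hM.cycle y b s a hbs hab has (by omega) (by omega)
      have hl := hcc.two_le
      have hper : ∀ i j : ℤ, (2 * (l : ℤ)) ∣ (i - j) → c i = c j := fun i j h =>
        (hcc.eq_iff i j).2 h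
      -- the distance of y to its gate
      have d1 : X.dist (c l) b = l - 1 := by
        have := h1 V X hX l c hcc 1 (l - 1) (by omega)
        have e : (1 : ℤ) + ((l - 1 : ℕ) : ℤ) = l := by
          push_cast [Nat.cast_sub (show 1 ≤ l by omega)]
          ring
        rw [e, c1, SimpleGraph.dist_comm] at this
        exact this
      have d2 : X.dist y (c l) + (l - 1) = k := by
        have : X.dist y b = X.dist y (c l) + X.dist (c l) b := cl
        rw [d1, e4] at this
        exact this.symm
      have w1 : X.dist x (c (l + 1)) < X.dist x (c l) := by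
        rw [← hW V X hM l c hcc x, c0, c1]
        exact hxa
      have w2 : X.dist y (c l) < X.dist y (c (l + 1)) := by
        have hr := (h3 V X l c hcc 1).2
        have hw : X.dist y (c (1 - 0)) < X.dist y (c (1 - 1)) ↔
            X.dist y (c (1 - ((l : ℤ) + 1))) < X.dist y (c (1 - (l : ℤ))) :=
          hW V X hM l (fun i => c (1 - i)) hr y
        have q0 : c (1 - 0) = b := by rw [sub_zero, c1]
        have q1 : c (1 - 1) = a := by rw [sub_self, c0]
        have q2 : c (1 - ((l : ℤ) + 1)) = c l := hper _ _ ⟨-1, by ring⟩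
        have q3 : c (1 - (l : ℤ)) = c (l + 1) := hper _ _ ⟨-1, by ring⟩
        rw [q0, q1, q2, q3] at hw
        exact hw.1 hyb
      have hadj : X.Adj (c l) (c (l + 1)) := hcc.adj l
      have key := ih (X.dist y (c l)) (by omega) y x (c l) (c (l + 1)) hxy.symm hadj rfl w2 w1
      have hep : SameHyp X s(a, b) s(c l, c (l + 1)) := by
        refine Relation.EqvGen.rel _ _ (Or.inr ⟨l, c, hcc, ?_, rfl⟩)
        rw [c0, c1]
      rw [Sym2.eq_swap (a := x) (b := y)]
      exact Relation.EqvGen.trans _ _ _ key (Relation.EqvGen.symm _ _ hep)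

private theorem sh_tri {V : Type u} {X : SimpleGraph V} {p q r : V} (hpq : X.Adj p q)
    (hqr : X.Adj q r) (hpr : p = r ∨ X.Adj p r) : SameHyp X s(p, q) s(q, r) := by
  rcases hpr with rfl | hpr
  · rw [Sym2.eq_swap]
    exact Relation.EqvGen.refl _
  · exact Relation.EqvGen.rel _ _ (Or.inl ⟨p, q, r, hpq, hqr, hpr, rfl, rfl⟩)

private theorem sh_cl {V : Type u} {X : SimpleGraph V} {p q r s : V} (hpq : X.Adj p q)
    (hrs : X.Adj r s) (hpr : p = r ∨ X.Adj p r) (hqr : q = r ∨ X.Adj q r)
    (hqs : q = s ∨ X.Adj q s) (hps : p = s ∨ X.Adj p s) : SameHyp X s(p, q) s(r, s) := by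
  rcases hqr with rfl | hqr
  · exact sh_tri hpq hrs hps
  · exact Relation.EqvGen.trans _ _ _ (sh_tri hpq hqr hpr) (sh_tri hqr hrs hqs)

theorem s_sh (h1 : S_E1.{u}) (h2 : S_E2.{u}) (h3 : S_E3.{u}) (hW : S_W.{u})
    (hb : S_BOX.{u}) : S_SH.{u} := by
  intro V X η σ co hM hH x y x' y' h hxy hxy' hd hd'
  have hX := hM.connected
  obtain ⟨b1, -, b3, -, -⟩ := hb V X η σ co hX hH
  -- vertices which agree outside of `h` are equal or adjacent
  have hea : ∀ p q : V, (∀ g, g ≠ h → co p g = co q g) → p = q ∨ X.Adj p q := by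
    intro p q hpq
    by_cases e : co p h = co q h
    · left
      refine b1 p q fun g => ?_
      by_cases hg : g = h
      · rw [hg]; exact e
      · exact hpq g hg
    · right
      exact (b3 p q).2 ⟨h, e, hpq⟩
  obtain ⟨a, ha1, ha2⟩ := hH.proj x' y' x hxy' h hd'
  obtain ⟨b, hb1, hb2⟩ := hH.proj x' y' y hxy' h hd'
  have hab : X.Adj a b := by
    refine (b3 a b).2 ⟨h, ?_, fun g hg => ?_⟩
    · rw [ha1, hb1]; exact hd
    · rw [ha2 g hg, hb2 g hg]
  have hlt : ∀ p q r : V, co p h = co q h → co p h ≠ co r h → (∀ g, g ≠ h → co q g = co r g) →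
      X.dist p q < X.dist p r := by
    intro p q r e1 e2 e3
    rw [← hH.card p q, ← hH.card p r]
    refine Set.ncard_lt_ncard ?_ (hH.fin p r)
    rw [Set.ssubset_iff_of_subset]
    · exact ⟨h, e2, fun h4 => h4 e1⟩
    · intro g hg
      by_cases hgh : g = h
      · subst hgh
        exact absurd e1 hg
      · show co p g ≠ co r g
        rw [← e3 g hgh]
        exact hg
  have hxa : X.dist x a < X.dist x b := by
    refine hlt x a b ha1.symm ?_ fun g hg => ?_
    · rw [hb1]; exact hd
    · rw [ha2 g hg, hb2 g hg]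
  have hyb : X.dist y b < X.dist y a := by
    refine hlt y b a hb1.symm ?_ fun g hg => ?_
    · rw [ha1]; exact hd.symm
    · rw [ha2 g hg, hb2 g hg]
  have hfirst := sh_main h1 h3 hW hM _ x y a b hxy hab rfl hxa hyb
  have hxy2 := (b3 x' y').1 hxy'
  obtain ⟨g', hg'1, hg'2⟩ := hxy2
  have hgh : g' = h := by
    by_contra hne
    exact hd' (hg'2 h (Ne.symm hne))
  subst hgh
  refine Relation.EqvGen.trans _ _ _ hfirst (sh_cl hab hxy' ?_ ?_ ?_ ?_)
  · exact hea a x' fun g hg => ha2 g hg
  · exact hea b x' fun g hg => hb2 g hg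
  · exact hea b y' fun g hg => by rw [hb2 g hg, hg'2 g hg]
  · exact hea a y' fun g hg => by rw [ha2 g hg, hg'2 g hg]

end Pool.Agent.H341.FM
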