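import Pool.Agent.H341.FM.Defs
import Pool.Agent.H341.MA.St2

/-!
# Fixed monoliths: statements (proofs: see the doc comments)

`X` is a mediangle graph, `co` its Hamming coordinates (`Ham X co`, see `MA/St1.lean`): `co x h` is the coordinate of the vertex `x` in
direction `h`; two vertices are adjacent iff they differ in exactly one coordinate; intervals are boxes (S_BOX). We say that the edge `xy`
has direction `h` if `co x h ≠ co y h`.
-/

set_option autoImplicit false

namespace Pool.Agent.H341.FM

open Pool.Agent.H341.MA

universe u v

/-- **S_DIR**. Opposite edges of an even convex cycle have the same direction; the edges of a triangle have the same direction.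

Proof. Triangle: `x, y` differ exactly in `h`, `y, z` exactly in `h2`, `x, z` exactly in one coordinate, so `h = h2` (if not, `x, z` would differ
in `h` and in `h2`). Cycle: `x = c 0, y = c 1, y' = c l, x' = c (l+1)`; by S_E1 (`MA/E.lean`) `d(x,x') = d(y,y') = l-1`, `d(x,y') = d(y,x') = l`
(for `x'` use period `2l`: `c (l+1) = c (-(l-1))`). Let `S(a,b)` be the set of directions separating `a, b` (`ncard = dist`, S_BOX: intervals are
boxes). `y ∈ I(x,y')`, `x' ∈ I(x,y')`, `x ∈ I(y,x')`, `y' ∈ I(y,x')`. So `S(x,y') = S(x,y) ⊔ S(y,y')` and `S(y,x') = S(y,y') ⊔ S(y',x')`, disjoint unions,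
and `S(x,y) = {h} ⊆ S(y,x')`: so `h ∈ S(y,y')` (impossible) or `h ∈ S(y',x')`. -/
def S_DIR : Prop := ∀ (V : Type u) (X : SimpleGraph V) (η σ : Type u) (co : V → η → σ), Mediangle X → Ham X co →
  (∀ x y z : V, X.Adj x y → X.Adj y z → X.Adj x z → ∀ h, co x h ≠ co y h → co y h ≠ co z h) ∧
  (∀ (l : ℕ) (c : ℤ → V), EvenConvexCycle X l c → ∀ h, co (c 0) h ≠ co (c 1) h → co (c l) h ≠ co (c (l + 1)) h)

/-- **S_SH**. Edges with the same direction belong to the same hyperplane.

Proof. Copy the induction of `MA/Par.lean` (theorem `s_par`, `main`), with conclusion `SameHyp X s(x,y) s(a,b)` in place of `cls X x y = cls X a b`: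
claim: if `x ~ y`, `a ~ b`, `d(x,a) < d(x,b)`, `d(y,b) < d(y,a)` then `SameHyp X s(x,y) s(a,b)`, induction on `d(x,a)`: if it is `0` then `x = a`, `y = b`.
Otherwise the proof of `s_par` gives an even convex cycle `c` with `c 0 = a, c 1 = b` such that the induction hypothesis applies to
`y, x, c l, c (l+1)`: `SameHyp s(y,x) s(c l, c (l+1))`, and `ElemPar s(c 0, c 1) s(c l, c (l+1))`.
Now let `co x h ≠ co y h` and `co x' h ≠ co y' h`. `Ham.proj x' y' x` gives `a` with `co a h = co x h` and the other coordinates those of `x'`;
`Ham.proj x' y' y` gives `b` with `co b h = co y h`. `a ~ b`; `d(x,a) < d(x,b)`, `d(y,b) < d(y,a)` (count separating directions), so the claim gives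
`SameHyp s(x,y) s(a,b)`. The vertices `x', y', a, b` are pairwise equal or adjacent (they differ at most in `h`); so `s(a,b)` and `s(x',y')` are
connected by triangles. -/
def S_SH : Prop := ∀ (V : Type u) (X : SimpleGraph V) (η σ : Type u) (co : V → η → σ), Mediangle X → Ham X co →
  ∀ (x y x' y' : V) (h : η), X.Adj x y → X.Adj x' y' → co x h ≠ co y h → co x' h ≠ co y' h → SameHyp X s(x, y) s(x', y')

/-- **S_TR** (take S_DIR, S_SH, S_BOX as hypotheses). In `Sub b v` with `b, v` an antipodal pair, edges of different directions have
transverse hyperplanes.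

Proof. Let `h ≠ h'` be the directions of `xy` and `x'y'`. As `x, y` are in `Sub co b v`: `co b h ≠ co v h`; similarly for `h'`. On a geodesic from `b` to `v`
(inside `Box co b v`) there is an edge `a a'` of direction `h`. Let `A, A'` be the antipodes of `a, a'` (`Ant`, both in `Box co b v`): coordinates in the box
take two values, so `A, A'` differ exactly in direction `h`, so `A ~ A'`. By S_SH: `SameHyp s(a,a') s(A,A')`. Also `co a h' ≠ co A h'`.
Lemma (induction on `EqvGen`): if `SameHyp e f`, all ends of `e` have the same `h'`-coordinate `α` [`∀ p ∈ e, co p h' = α`], `e` is an edge with direction `h`,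
then `f` is an edge of direction `h`, and either all ends of `f` have `h'`-coordinate `α` or there are an even convex cycle `c` and `i, j` with
`s(c i, c (i+1))` of direction `h`, and `s(c j, c (j+1))` of direction `h'`: triangles do not change the `h'`-coordinate (S_DIR); for opposite edges
`c 0 c 1`, `c l c (l+1)` with different `h'`-coordinates some edge `c j c (j+1)`, `1 ≤ j < l`, has direction `h'`. [It is easiest to state it for the
relation `∀ α, (P e α ↔ P f α) ∨ (cycle exists)` so that symmetry and transitivity are trivial.] So there is such a cycle; by S_SH `s(x,y)` is in the same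
hyperplane as `s(c i, c (i+1))`, and `s(x',y')` in the same as `s(c j, c (j+1))`. -/
def S_TR : Prop := ∀ (V : Type u) (X : SimpleGraph V) (η σ : Type u) (co : V → η → σ), Mediangle X → Ham X co →
  ∀ b v : V, Ant co b v → ∀ x ∈ Sub co b v, ∀ y ∈ Sub co b v, ∀ x' ∈ Sub co b v, ∀ y' ∈ Sub co b v, X.Adj x y → X.Adj x' y' →
    ∀ h h' : η, h ≠ h' → co x h ≠ co y h → co x' h' ≠ co y' h' → Transverse X s(x, y) s(x', y')

/-- **S_MT** (take S_E2, S_BOX, T_MEET, T_MAIN as hypotheses). A nonempty set `T` of lower neighbours of `v` with respect to `o` is the set of all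
lower neighbours of `v` with respect to a vertex `b ∈ I(o,v)` such that `b, v` is an antipodal pair.

Proof. Copy the proof of `s_ant` in `MA/Ant.lean` (the thin system on `Box co o v`), and use T_MEET, T_MAIN (`TMain φ o v`, `MA/St2.lean`) for the set of the
elements of `T` (as elements of `W`) in place of S_THIN: T_MEET gives the meet `b`, T_MAIN gives `TAnt φ b v` and `Low φ b v = T`. -/
def S_MT : Prop := ∀ (V : Type u) (X : SimpleGraph V) (η σ : Type u) (co : V → η → σ), Mediangle X → Ham X co →
  ∀ (o v : V) (T : Set V), T.Nonempty → (∀ x ∈ T, X.Adj v x ∧ X.dist o x + 1 = X.dist o v) →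
    ∃ b ∈ Itv X o v, Ant co b v ∧ ∀ x, (X.Adj v x ∧ X.dist b x + 1 = X.dist b v) ↔ x ∈ T

/-- the gated hull -/
def GH {V : Type u} (X : SimpleGraph V) (S : Set V) : Set V := ⋂₀ {Y : Set V | Gated X Y ∧ S ⊆ Y}

/-- **S_GHG** (take S_GATE, S_GP as hypotheses). The gated hull of a nonempty set is gated.

Proof. `Y = GH X S` contains `S`. Use S_GATE: all gated sets are closed under intervals, triangles and even convex cycles (S_GP), so `Y` is; `Y` is
preconnected because it is closed under intervals (copy `subc_preconn` in `MA/Subc.lean`). -/
def S_GHG : Prop := ∀ (V : Type u) (X : SimpleGraph V), Mediangle X → ∀ S : Set V, S.Nonempty → Gated X (GH X S)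

/-- **S_SG** (take S_BOX, S_GP, S_STAR, S_SUBC as hypotheses). If `b, v` is an antipodal pair, the gated hull of `v` and its lower
neighbours with respect to `b` is `Sub co b v`.

Proof. `Sub co b v` is gated (S_SUBC) and contains `v` and the interval `I(b,v)`. Conversely let `E` be gated, containing `v` and its lower neighbours with
respect to `b`. By S_STAR (`C = Sub co b v`) it is enough that `E` contains each neighbour `x ∈ Sub co b v` of `v`: `x, v` differ exactly in `h`, `co b h ≠ co v h`
(otherwise `co x h = co b h = co v h`); `Ham.proj` gives `w` with `co w h = co b h` and the other coordinates of `v`: `w ~ v`, `w ∈ Box co b v = I(b,v)`, so `w` is a lower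
neighbour of `v` with respect to `b`, `w ∈ E`; `x = w` or `x ~ w`, and then `x ∈ E` as `E` is closed under triangles (S_GP). -/
def S_SG : Prop := ∀ (V : Type u) (X : SimpleGraph V) (η σ : Type u) (co : V → η → σ), Mediangle X → Ham X co →
  ∀ b v : V, Ant co b v → GH X ({v} ∪ {x | X.Adj v x ∧ X.dist b x + 1 = X.dist b v}) = Sub co b v

/-- **S_FINC** (take S_BOX as hypothesis). A finite orbit is contained in a finite invariant set which is closed under intervals.

Proof. Let `C` be the intersection of all sets which contain the orbit of `x` and are closed under intervals. It is closed under intervals, and invariant: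
automorphisms map such sets to such sets (`dist` is preserved by the action: both `g` and `g⁻¹` preserve adjacency). It is finite: `B = {v | ∀ h, ∃ g : G, co v h = co (g • x) h}` contains the orbit and is
closed under intervals (S_BOX: intervals are boxes), so `C ⊆ B`; `B` is finite: the set `E` of the directions `h` for which some `co (g • x) h ≠ co x h` is finite (finite union over the
orbit of the finite sets `{h | co x h ≠ co y h}`), a vertex `v ∈ B` has `co v h = co x h` for `h ∉ E` and `co v h` is in the finite set `{co y h | y in the orbit}` for `h ∈ E`, and vertices are determined by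
their coordinates (S_BOX). -/
def S_FINC : Prop := ∀ (V : Type u) (X : SimpleGraph V) (η σ : Type u) (co : V → η → σ) (G : Type v) [Group G] [MulAction G V],
  X.Connected → Ham X co → (∀ (g : G) (x y : V), X.Adj x y → X.Adj (g • x) (g • y)) → ∀ x : V, (MulAction.orbit G x).Finite →
    ∃ C : Set V, C.Finite ∧ x ∈ C ∧ (∀ u ∈ C, ∀ v ∈ C, Itv X u v ⊆ C) ∧ ∀ (g : G), ∀ v ∈ C, g • v ∈ C

end Pool.Agent.H341.FM
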