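import Pool.Agent.H341.FM.Stm

/-!
# Hyperplanes of an antipodal cell are transverse
-/

set_option autoImplicit false

namespace Pool.Agent.H341.FM

open Pool.Agent.H341.MA

universe u

/-- shift of an even convex cycle by `l` -/
private lemma tr_shift {V : Type u} {X : SimpleGraph V} {l : ℕ} {c : ℤ → V} (hc : EvenConvexCycle X l c) (a : ℤ) :
    EvenConvexCycle X l (fun i => c (i + a)) := by
  refine ⟨hc.two_le, ?_, ?_, ?_, ?_⟩
  · intro i j
    show c (i + a) = c (j + a) ↔ _
    rw [hc.eq_iff]
    have h : i + a - (j + a) = i - j := by ring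
    rw [h]
  · intro i
    show X.Adj (c (i + a)) (c (i + 1 + a))
    have h : i + 1 + a = i + a + 1 := by ring
    rw [h]
    exact hc.adj _
  · intro i j hij
    have h := hc.induced (i + a) (j + a) hij
    have h1 : j + a - (i + a) - 1 = j - i - 1 := by ring
    have h2 : i + a - (j + a) - 1 = i - j - 1 := by ring
    rwa [h1, h2] at h
  · intro i j z hz
    obtain ⟨k, hk⟩ := hc.convex (i + a) (j + a) hz
    refine ⟨k - a, ?_⟩
    show c (k - a + a) = z
    have h : k - a + a = k := by ring
    rw [h, hk]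

/-- an edge of direction `h` -/
private def trQ {V η σ : Type u} (X : SimpleGraph V) (co : V → η → σ) (h : η) (e : Sym2 V) : Prop :=
  ∃ p q : V, e = s(p, q) ∧ X.Adj p q ∧ co p h ≠ co q h

/-- all ends have the coordinate `α` -/
private def trP {V η σ : Type u} (co : V → η → σ) (h' : η) (e : Sym2 V) (α : σ) : Prop :=
  ∀ p ∈ e, co p h' = α

/-- a cycle with edges of both directions -/
private def trC {V η σ : Type u} (X : SimpleGraph V) (co : V → η → σ) (h h' : η) : Prop :=
  ∃ (l : ℕ) (c : ℤ → V), EvenConvexCycle X l c ∧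
    ∃ i j : ℤ, co (c i) h ≠ co (c (i + 1)) h ∧ co (c j) h' ≠ co (c (j + 1)) h'

private lemma trQ_mk {V η σ : Type u} {X : SimpleGraph V} {co : V → η → σ} {h : η} {p q : V} (hpq : X.Adj p q) :
    trQ X co h s(p, q) ↔ co p h ≠ co q h := by
  constructor
  · rintro ⟨p', q', he, -, hne⟩
    rw [Sym2.eq_iff] at he
    rcases he with ⟨rfl, rfl⟩ | ⟨rfl, rfl⟩
    · exact hne
    · exact fun h => hne h.symm
  · intro hne
    exact ⟨p, q, rfl, hpq, hne⟩

private lemma trP_mk {V η σ : Type u} {co : V → η → σ} {h' : η} {p q : V} {α : σ} :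
    trP co h' s(p, q) α ↔ co p h' = α ∧ co q h' = α := by
  unfold trP
  constructor
  · intro hh
    exact ⟨hh p (Sym2.mem_mk_left p q), hh q (Sym2.mem_mk_right p q)⟩
  · rintro ⟨h1, h2⟩ r hr
    rw [Sym2.mem_iff] at hr
    rcases hr with rfl | rfl
    · exact h1
    · exact h2

private lemma tr_main (hd : S_DIR.{u}) {V : Type u} {X : SimpleGraph V} {η σ : Type u} {co : V → η → σ}
    (hX : Mediangle X) (hH : Ham X co)
    (hadj : ∀ u v : V, X.Adj u v ↔ ∃ g, co u g ≠ co v g ∧ ∀ h, h ≠ g → co u h = co v h)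
    {h h' : η} (hhh : h ≠ h') {e f : Sym2 V} (hef : Relation.EqvGen (ElemPar X) e f) :
    trC X co h h' ∨ ((trQ X co h e ↔ trQ X co h f) ∧ (trQ X co h e → ∀ α, trP co h' e α ↔ trP co h' f α)) := by
  obtain ⟨hd1, hd2⟩ := hd V X η σ co hX hH
  have hone : ∀ p q : V, X.Adj p q → co p h ≠ co q h → co p h' = co q h' := by
    intro p q hpq hne
    obtain ⟨g, hg1, hg2⟩ := (hadj p q).mp hpq
    have hgh : h = g := by
      by_contra hcon
      exact hne (hg2 h hcon)
    apply hg2
    rw [← hgh]
    exact fun h => hhh h.symm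
  induction hef with
  | rel e f hr =>
    rcases hr with ⟨x, y, z, hxy, hyz, hxz, rfl, rfl⟩ | ⟨l, c, hc, rfl, rfl⟩
    · right
      rw [trQ_mk hxy, trQ_mk hyz]
      have h1 : co x h ≠ co y h → co y h ≠ co z h := hd1 x y z hxy hyz hxz h
      have h2 : co z h ≠ co y h → co y h ≠ co x h := hd1 z y x hyz.symm hxy.symm hxz.symm h
      refine ⟨⟨h1, fun h3 => (h2 h3.symm).symm⟩, ?_⟩
      intro h3 α
      have h4 := hone x y hxy h3
      have h5 := hone y z hyz (h1 h3)
      rw [trP_mk, trP_mk, h4, h5]
    · by_cases hC : trC X co h h'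
      · left; exact hC
      · right
        have hp : ∀ k : ℤ, c (2 * (l : ℤ) + k) = c k := by
          intro k
          rw [hc.eq_iff]
          have : 2 * (l : ℤ) + k - k = 2 * (l : ℤ) := by ring
          rw [this]
        have h1 : co (c 0) h ≠ co (c 1) h → co (c l) h ≠ co (c (l + 1)) h := hd2 l c hc h
        have h2 : co (c l) h ≠ co (c (l + 1)) h → co (c 0) h ≠ co (c 1) h := by
          intro h3
          have h4 := hd2 l (fun i => c (i + l)) (tr_shift hc l) h
          have e1 : (0 : ℤ) + l = l := by ring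
          have e2 : (1 : ℤ) + l = l + 1 := by ring
          have e3 : (l : ℤ) + l = 2 * (l : ℤ) + 0 := by ring
          have e4 : (l : ℤ) + 1 + l = 2 * (l : ℤ) + 1 := by ring
          simp only [e1, e2, e3, e4, hp] at h4
          exact h4 h3
        have hadj0 : X.Adj (c 0) (c 1) := by
          have := hc.adj 0
          rwa [zero_add] at this
        have hadjl : X.Adj (c l) (c (l + 1)) := hc.adj l
        rw [trQ_mk hadj0, trQ_mk hadjl]
        refine ⟨⟨h1, h2⟩, ?_⟩
        intro h3 α
        have hall : ∀ j : ℤ, co (c j) h' = co (c (j + 1)) h' := by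
          intro j
          by_contra hj
          apply hC
          refine ⟨l, c, hc, 0, j, ?_, hj⟩
          rw [zero_add]
          exact h3
        have hnat : ∀ j : ℕ, co (c (j : ℤ)) h' = co (c 0) h' := by
          intro j
          induction j with
          | zero => simp
          | succ j ih =>
            rw [← ih, hall j]
            push_cast
            rfl
        have hl1 : co (c ((l : ℤ) + 1)) h' = co (c 0) h' := by
          rw [← hall l]
          exact hnat l
        have h11 : co (c 1) h' = co (c 0) h' := by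
          have := hnat 1
          simpa using this
        rw [trP_mk, trP_mk, h11, hnat l, hl1]
  | refl e => right; exact ⟨Iff.rfl, fun _ _ => Iff.rfl⟩
  | symm e f _ ih =>
    rcases ih with ih | ⟨ih1, ih2⟩
    · left; exact ih
    · right
      exact ⟨ih1.symm, fun hf α => (ih2 (ih1.mpr hf) α).symm⟩
  | trans e f g _ _ ih1 ih2 =>
    rcases ih1 with ih1 | ⟨i1, i2⟩
    · left; exact ih1
    · rcases ih2 with ih2 | ⟨j1, j2⟩
      · left; exact ih2
      · right
        exact ⟨i1.trans j1, fun he α => (i2 he α).trans (j2 (i1.mp he) α)⟩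

/-- an edge of direction `h` in the box -/
private lemma tr_edge {V : Type u} {X : SimpleGraph V} {η σ : Type u} {co : V → η → σ}
    (hitv : ∀ u v : V, Itv X u v = Box co u v)
    (hstep : ∀ u v : V, u ≠ v → ∃ w, X.Adj u w ∧ w ∈ Itv X u v ∧ X.dist u v = X.dist w v + 1)
    (b v : V) (h : η) : ∀ (n : ℕ) (u : V), X.dist u v = n → u ∈ Box co b v → co u h ≠ co v h →
      ∃ a a' : V, a ∈ Box co b v ∧ a' ∈ Box co b v ∧ X.Adj a a' ∧ co a h ≠ co a' h := by
  intro n
  induction n with
  | zero =>
    intro u hd hu hne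
    obtain ⟨w, -, -, hw⟩ := hstep u v (fun huv => hne (by rw [huv]))
    omega
  | succ n ih =>
    intro u hd hu hne
    obtain ⟨w, huw, hwI, hw⟩ := hstep u v (fun huv => hne (by rw [huv]))
    rw [hitv] at hwI
    have hwB : w ∈ Box co b v := by
      intro k
      rcases hwI k with h1 | h1
      · rcases hu k with h2 | h2
        · left; rw [h1, h2]
        · right; rw [h1, h2]
      · right; exact h1
    by_cases hwh : co u h = co w h
    · exact ih w (by omega) hwB (by rw [← hwh]; exact hne)
    · exact ⟨u, w, hu, hwB, huw, hwh⟩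

private lemma tr_two {σ : Type u} {s t p q r : σ} (hp : p = s ∨ p = t) (hq : q = s ∨ q = t) (hr : r = s ∨ r = t)
    (hpq : p ≠ q) (hpr : p ≠ r) : q = r := by
  rcases hp with rfl | rfl
  · rcases hq with h1 | h1
    · exact absurd h1.symm hpq
    · rcases hr with h2 | h2
      · exact absurd h2.symm hpr
      · rw [h1, h2]
  · rcases hq with h1 | h1
    · rcases hr with h2 | h2
      · rw [h1, h2]
      · exact absurd h2.symm hpr
    · exact absurd h1.symm hpq

theorem s_tr (hd : S_DIR.{u}) (hs : S_SH.{u}) (hb : S_BOX.{u}) : S_TR.{u} := by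
  intro V X η σ co hX hH b v hA x hx y hy x' hx' y' hy' hxy hx'y' h h' hhh hxyh hx'y'h
  obtain ⟨hdet, hitv, hadj, hconv, hstep⟩ := hb V X η σ co hX.connected hH
  have hbv : co b h ≠ co v h := by
    intro hbv
    apply hxyh
    rw [hx h hbv, hy h hbv]
  have hbv' : co b h' ≠ co v h' := by
    intro hbv
    apply hx'y'h
    rw [hx' h' hbv, hy' h' hbv]
  obtain ⟨a, a', ha, ha', haa, haah⟩ := tr_edge hitv hstep b v h (X.dist b v) b rfl (fun k => Or.inl rfl) hbv
  obtain ⟨A, hAB, hAa⟩ := hA a ha
  obtain ⟨A', hAB', hAa'⟩ := hA a' ha'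
  have hother : ∀ k, k ≠ h → co a k = co a' k := by
    obtain ⟨g, hg1, hg2⟩ := (hadj a a').mp haa
    have hgh : h = g := by
      by_contra hcon
      exact haah (hg2 h hcon)
    intro k hk
    apply hg2
    rw [← hgh]
    exact hk
  have hAAh : co A h ≠ co A' h := by
    have h1 : co A h = co a' h := tr_two (ha h) (hAB h) (ha' h) (hAa h hbv) haah
    have h2 : co A' h = co a h := tr_two (ha' h) (hAB' h) (ha h) (hAa' h hbv) (fun hc => haah hc.symm)
    rw [h1, h2]
    exact fun hc => haah hc.symm
  have hAA : X.Adj A A' := by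
    rw [hadj]
    refine ⟨h, hAAh, ?_⟩
    intro k hk
    have h0 := hother k hk
    by_cases hbk : co b k = co v k
    · have h5 : co A k = co b k := by
        rcases hAB k with h5 | h5
        · exact h5
        · rw [h5, hbk]
      have h6 : co A' k = co b k := by
        rcases hAB' k with h5 | h5
        · exact h5
        · rw [h5, hbk]
      rw [h5, h6]
    · exact tr_two (ha k) (hAB k) (hAB' k) (hAa k hbk) (by rw [h0]; exact hAa' k hbk)
  have hSH : SameHyp X s(a, a') s(A, A') := hs V X η σ co hX hH a a' A A' h haa hAA haah hAAh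
  have hC : trC X co h h' := by
    rcases tr_main hd hX hH hadj hhh hSH with h1 | ⟨-, h1⟩
    · exact h1
    · exfalso
      have h2 := h1 ((trQ_mk haa).mpr haah) (co a h')
      rw [trP_mk, trP_mk] at h2
      have h3 := (h2.mp ⟨rfl, (hother h' (fun hc => hhh hc.symm)).symm⟩).1
      exact hAa h' hbv' h3.symm
  obtain ⟨l, c, hc, i, j, hi, hj⟩ := hC
  exact ⟨l, c, hc, i, j, hs V X η σ co hX hH x y _ _ h hxy (hc.adj i) hxyh hi,
    hs V X η σ co hX hH x' y' _ _ h' hx'y' (hc.adj j) hx'y'h hj⟩

end Pool.Agent.H341.FM
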